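import Pool.Agent.TH948.SH.Base

set_option autoImplicit false

/-!
# Sparse common neighbourhoods in `G(n,p)`
-/

namespace Pool.Agent.TH948.SH

open Filter Topology Asymptotics
open scoped Classical
open Pool.Agent.TH965.Spread Pool.Agent.TH965.Emb

namespace I

lemma gnp_or {n : ℕ} {p : ℝ} (hp0 : 0 ≤ p) (hp1 : p ≤ 1) (P Q : SimpleGraph (Fin n) → Prop) :
    gnp n p (fun G => P G ∨ Q G) ≤ gnp n p P + gnp n p Q := by
  have h := gnp_union hp0 hp1 (Finset.univ : Finset Bool) (fun b => if b then P else Q)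
  rw [Fintype.sum_bool] at h
  refine le_trans (gnp_imp hp0 hp1 ?_) h
  intro G hG
  rcases hG with hG | hG
  · exact ⟨true, Finset.mem_univ _, by simpa using hG⟩
  · exact ⟨false, Finset.mem_univ _, by simpa using hG⟩

lemma gnp_two {n : ℕ} {p : ℝ} {ι κ : Type*} (B : Finset ι) (C : Finset κ) (t : ℕ)
    (T : ι → κ → Finset (Sym2 (Fin n)))
    (hT : ∀ i ∈ B, ∀ c ∈ C, ∀ e ∈ T i c, ¬ e.IsDiag)
    (hd : ∀ i ∈ B, ∀ c ∈ C, ∀ i' ∈ B, ∀ c' ∈ C, ¬ (i = i' ∧ c = c') →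
      Disjoint (T i c) (T i' c'))
    (hcard : ∀ i ∈ B, ∀ c ∈ C, (T i c).card = t) :
    gnp n p (fun G => ∀ i ∈ B, ¬ ∀ c ∈ C, ¬ ∀ e ∈ T i c, e ∈ G.edgeSet)
      = (1 - (1 - p ^ t) ^ C.card) ^ B.card := by
  have hs : ∀ i ∈ B, C.biUnion (T i) ⊆ eF (⊤ : SimpleGraph (Fin n)) := by
    intro i hi e he
    rw [Finset.mem_biUnion] at he
    obtain ⟨c, hc, he⟩ := he
    exact mem_top_eF.mpr (hT i hi c hc e he)
  have hdd : ∀ i ∈ B, ∀ j ∈ B, i ≠ j → Disjoint (C.biUnion (T i)) (C.biUnion (T j)) := by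
    intro i hi j hj hij
    rw [Finset.disjoint_biUnion_left]
    intro c hc
    rw [Finset.disjoint_biUnion_right]
    intro c' hc'
    exact hd i hi c hc j hj c' hc' (fun h => hij h.1)
  have h1 : ∀ i ∈ B, exs (C.biUnion (T i)) p (fun Y => 1 + (-1) *
      ∏ c ∈ C, (1 + (-1) * (if T i c ⊆ Y ∩ T i c then (1 : ℝ) else 0)))
      = 1 - (1 - p ^ t) ^ C.card := by
    intro i hi
    rw [exs_add, exs_const, exs_mul_left]
    have h2 := exs_prod C p (T i) (fun c Y => 1 + (-1) * (if T i c ⊆ Y then (1 : ℝ) else 0))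
      (C.biUnion (T i)) (fun c hc => Finset.subset_biUnion_of_mem (T i) hc)
      (fun c hc c' hc' hcc => hd i hi c hc i hi c' hc' (fun h => hcc h.2))
    rw [h2]
    have h3 : ∀ c ∈ C, exs (T i c) p (fun Y => 1 + (-1) * (if T i c ⊆ Y then (1 : ℝ) else 0))
        = 1 - p ^ t := by
      intro c hc
      rw [exs_add, exs_const, exs_mul_left, exs_sub, hcard i hi c hc]; ring
    rw [Finset.prod_congr rfl h3, Finset.prod_const]
    ring
  rw [gnp_eq]
  have h4 := exs_prod B p (fun i => C.biUnion (T i)) (fun i Y => 1 + (-1) *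
      ∏ c ∈ C, (1 + (-1) * (if T i c ⊆ Y ∩ T i c then (1 : ℝ) else 0)))
      (eF (⊤ : SimpleGraph (Fin n))) hs hdd
  rw [Finset.prod_congr rfl h1, Finset.prod_const] at h4
  rw [← h4]
  apply exs_congr
  intro W _
  have h5 : ∀ i ∈ B, (1 + (-1) * ∏ c ∈ C, (1 + (-1) *
      (if T i c ⊆ (W ∩ C.biUnion (T i)) ∩ T i c then (1 : ℝ) else 0)))
      = if ¬ ∀ c ∈ C, ¬ ∀ e ∈ T i c, e ∈
        (SimpleGraph.fromEdgeSet (W : Set (Sym2 (Fin n)))).edgeSet then 1 else 0 := by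
    intro i hi
    have h6 : ∀ c ∈ C, (1 + (-1) *
        (if T i c ⊆ (W ∩ C.biUnion (T i)) ∩ T i c then (1 : ℝ) else 0))
        = if ¬ ∀ e ∈ T i c, e ∈
          (SimpleGraph.fromEdgeSet (W : Set (Sym2 (Fin n)))).edgeSet then 1 else 0 := by
      intro c hc
      have h7 : (T i c ⊆ (W ∩ C.biUnion (T i)) ∩ T i c) ↔ ∀ e ∈ T i c, e ∈
          (SimpleGraph.fromEdgeSet (W : Set (Sym2 (Fin n)))).edgeSet := by
        constructor
        · intro h e he
          rw [mem_from (hT i hi c hc e he)]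
          exact (Finset.mem_inter.mp (Finset.mem_inter.mp (h he)).1).1
        · intro h e he
          have h8 := h e he
          rw [mem_from (hT i hi c hc e he)] at h8
          exact Finset.mem_inter.mpr ⟨Finset.mem_inter.mpr ⟨h8,
            Finset.mem_biUnion.mpr ⟨c, hc, he⟩⟩, he⟩
      by_cases h9 : ∀ e ∈ T i c, e ∈
          (SimpleGraph.fromEdgeSet (W : Set (Sym2 (Fin n)))).edgeSet
      · rw [if_pos (h7.mpr h9), if_neg (not_not.mpr h9)]; ring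
      · rw [if_neg (fun h => h9 (h7.mp h)), if_pos h9]; ring
    rw [Finset.prod_congr rfl h6, Finset.prod_boole]
    by_cases h10 : ∀ c ∈ C, ¬ ∀ e ∈ T i c, e ∈
        (SimpleGraph.fromEdgeSet (W : Set (Sym2 (Fin n)))).edgeSet
    · rw [if_pos h10, if_neg (not_not.mpr h10)]; ring
    · rw [if_neg h10, if_pos h10]; ring
  rw [Finset.prod_congr rfl h5, Finset.prod_boole]
  by_cases h11 : ∀ i ∈ B, ¬ ∀ c ∈ C, ¬ ∀ e ∈ T i c, e ∈
      (SimpleGraph.fromEdgeSet (W : Set (Sym2 (Fin n)))).edgeSet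
  · rw [if_pos h11, if_pos h11]
  · rw [if_neg h11, if_neg h11]

lemma fin_bound {t k m n : ℕ} (ht : 1 ≤ t) (htk : t ≤ k) (hmn : m * k ≤ n) {p : ℝ}
    (hp0 : 0 ≤ p) (hp1 : p ≤ 1) :
    1 - ((m : ℝ) * k) ^ 2 * p - (1 - (1 - p ^ t) ^ n) ^ m ≤
    gnp n p (fun G => ∃ W U : Finset (Fin n), U ⊆ W ∧ U.card = t ∧ W.card = k ∧
    (∀ v ∈ W, ∀ w ∈ W, ¬ G.Adj v w) ∧ ∀ w, ∃ u ∈ U, ¬ G.Adj u w) := by
  obtain ⟨φ, hφi⟩ : ∃ φ : Fin m × Fin k → Fin n, Function.Injective φ :=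
    ⟨fun x => Fin.castLE hmn (finProdFinEquiv x), fun x y h =>
      finProdFinEquiv.injective (Fin.castLE_injective hmn h)⟩
  have hx0 : 0 ≤ p ^ t := pow_nonneg hp0 t
  have hx1 : p ^ t ≤ 1 := pow_le_one₀ hp0 hp1
  obtain ⟨A, hA⟩ : ∃ A : Finset (Fin n), A = Finset.univ.image φ := ⟨_, rfl⟩
  have hAc : A.card = m * k := by
    rw [hA, Finset.card_image_of_injective _ hφi]; simp
  have hAmem : ∀ x, φ x ∈ A := fun x => hA ▸ Finset.mem_image_of_mem φ (Finset.mem_univ x)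
  obtain ⟨T, hT⟩ : ∃ T : Fin m → Fin n → Finset (Sym2 (Fin n)), ∀ j w, T j w =
    Finset.univ.image (fun i : Fin t => s(φ (j, Fin.castLE htk i), w)) := ⟨_, fun _ _ => rfl⟩
  have hci : Function.Injective (Fin.castLE htk) := Fin.castLE_injective htk
  have hE : gnp n p (fun G => ∀ j ∈ (Finset.univ : Finset (Fin m)), ¬ ∀ c ∈ Aᶜ,
      ¬ ∀ e ∈ T j c, e ∈ G.edgeSet) = (1 - (1 - p ^ t) ^ (Aᶜ).card) ^ m := by
    have h := gnp_two (n := n) (p := p) (Finset.univ : Finset (Fin m)) Aᶜ t T ?_ ?_ ?_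
    · rw [h, Finset.card_univ, Fintype.card_fin]
    · intro j _ w hw e he
      rw [hT, Finset.mem_image] at he
      obtain ⟨i, _, rfl⟩ := he
      rw [Sym2.mk_isDiag_iff]
      intro h
      exact (Finset.mem_compl.mp hw) (h ▸ hAmem _)
    · intro j _ w hw j' _ w' hw' hne
      rw [Finset.disjoint_left]
      intro e he he'
      rw [hT, Finset.mem_image] at he he'
      obtain ⟨i, _, rfl⟩ := he
      obtain ⟨i', _, h⟩ := he'
      rw [Sym2.eq_iff] at h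
      rcases h with ⟨h1, h2⟩ | ⟨h1, h2⟩
      · have h3 := hφi h1
        exact hne ⟨(congrArg Prod.fst h3).symm, h2.symm⟩
      · exact (Finset.mem_compl.mp hw) (h1 ▸ hAmem _)
    · intro j _ w hw
      rw [hT, Finset.card_image_of_injective, Finset.card_univ, Fintype.card_fin]
      intro i i' h
      beta_reduce at h
      rw [Sym2.eq_iff] at h
      rcases h with ⟨h1, _⟩ | ⟨h1, _⟩
      · have h3 := congrArg Prod.snd (hφi h1)
        exact hci h3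
      · exact absurd (h1 ▸ hAmem _) (Finset.mem_compl.mp hw)
  have hE' : gnp n p (fun G => ∀ j ∈ (Finset.univ : Finset (Fin m)), ¬ ∀ c ∈ Aᶜ,
      ¬ ∀ e ∈ T j c, e ∈ G.edgeSet) ≤ (1 - (1 - p ^ t) ^ n) ^ m := by
    rw [hE]
    have h1 : (1 - p ^ t) ^ n ≤ (1 - p ^ t) ^ (Aᶜ).card := by
      apply pow_le_pow_of_le_one (by linarith) (by linarith)
      have := Finset.card_le_univ Aᶜ
      rwa [Fintype.card_fin] at this
    have h2 : (1 - p ^ t) ^ (Aᶜ).card ≤ 1 := pow_le_one₀ (by linarith) (by linarith)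
    exact pow_le_pow_left₀ (by linarith) (by linarith) m
  have hF : gnp n p (fun G => ∃ x ∈ A.offDiag, ∀ e ∈ ({s(x.1, x.2)} : Finset (Sym2 (Fin n))),
      e ∈ G.edgeSet) ≤ ((m : ℝ) * k) ^ 2 * p := by
    refine le_trans (gnp_union hp0 hp1 _ _) ?_
    have h1 : ∀ x ∈ A.offDiag, gnp n p (fun G => ∀ e ∈ ({s(x.1, x.2)} : Finset (Sym2 (Fin n))),
      e ∈ G.edgeSet) = p := by
      intro x hx
      rw [gnp_present _ ?_, Finset.card_singleton, pow_one]
      intro e he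
      rw [Finset.mem_singleton] at he
      rw [he, Sym2.mk_isDiag_iff]
      exact (Finset.mem_offDiag.mp hx).2.2
    rw [Finset.sum_congr rfl h1, Finset.sum_const, nsmul_eq_mul]
    apply mul_le_mul_of_nonneg_right _ hp0
    rw [Finset.offDiag_card, hAc, sq]
    have h2 : m * k * (m * k) - m * k ≤ m * k * (m * k) := Nat.sub_le _ _
    calc (((m * k * (m * k) - m * k : ℕ)) : ℝ) ≤ ((m * k * (m * k) : ℕ) : ℝ) := by
          exact_mod_cast h2
      _ = _ := by push_cast; ring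
  have hN := gnp_not (n := n) (p := p) (fun G => ∃ W U : Finset (Fin n), U ⊆ W ∧ U.card = t ∧
    W.card = k ∧ (∀ v ∈ W, ∀ w ∈ W, ¬ G.Adj v w) ∧ ∀ w, ∃ u ∈ U, ¬ G.Adj u w)
  have hM : gnp n p (fun G => ¬ ∃ W U : Finset (Fin n), U ⊆ W ∧ U.card = t ∧
    W.card = k ∧ (∀ v ∈ W, ∀ w ∈ W, ¬ G.Adj v w) ∧ ∀ w, ∃ u ∈ U, ¬ G.Adj u w) ≤
    gnp n p (fun G => (∃ x ∈ A.offDiag, ∀ e ∈ ({s(x.1, x.2)} : Finset (Sym2 (Fin n))),
      e ∈ G.edgeSet) ∨ (∀ j ∈ (Finset.univ : Finset (Fin m)), ¬ ∀ c ∈ Aᶜ,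
      ¬ ∀ e ∈ T j c, e ∈ G.edgeSet)) := by
    apply gnp_imp hp0 hp1
    intro G hG
    by_contra hcon
    rw [not_or] at hcon
    obtain ⟨hc1, hc2⟩ := hcon
    push Not at hc2
    obtain ⟨j, _, hj⟩ := hc2
    have hA' : ∀ v ∈ A, ∀ w ∈ A, ¬ G.Adj v w := by
      intro v hv w hw hvw
      apply hc1
      refine ⟨(v, w), Finset.mem_offDiag.mpr ⟨hv, hw, hvw.ne⟩, ?_⟩
      intro e he
      rw [Finset.mem_singleton] at he
      rw [he]
      exact hvw
    apply hG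
    refine ⟨Finset.univ.image (fun i : Fin k => φ (j, i)),
      Finset.univ.image (fun i : Fin t => φ (j, Fin.castLE htk i)), ?_, ?_, ?_, ?_, ?_⟩
    · intro v hv
      rw [Finset.mem_image] at hv ⊢
      obtain ⟨i, _, rfl⟩ := hv
      exact ⟨Fin.castLE htk i, Finset.mem_univ _, rfl⟩
    · rw [Finset.card_image_of_injective, Finset.card_univ, Fintype.card_fin]
      intro i i' h
      exact hci (congrArg Prod.snd (hφi h))
    · rw [Finset.card_image_of_injective, Finset.card_univ, Fintype.card_fin]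
      intro i i' h
      exact congrArg Prod.snd (hφi h)
    · intro v hv w hw
      rw [Finset.mem_image] at hv hw
      obtain ⟨i, _, rfl⟩ := hv
      obtain ⟨i', _, rfl⟩ := hw
      exact hA' _ (hAmem _) _ (hAmem _)
    · intro w
      by_cases hw : w ∈ A
      · refine ⟨φ (j, Fin.castLE htk ⟨0, ht⟩), Finset.mem_image.mpr ⟨⟨0, ht⟩, Finset.mem_univ _, rfl⟩,
          hA' _ (hAmem _) _ hw⟩
      · obtain ⟨e, he, heG⟩ := hj w (Finset.mem_compl.mpr hw)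
        rw [hT, Finset.mem_image] at he
        obtain ⟨i, _, rfl⟩ := he
        exact ⟨φ (j, Fin.castLE htk i), Finset.mem_image.mpr ⟨i, Finset.mem_univ _, rfl⟩, heG⟩
  have hO := gnp_or (n := n) hp0 hp1 (fun G => ∃ x ∈ A.offDiag, ∀ e ∈
      ({s(x.1, x.2)} : Finset (Sym2 (Fin n))), e ∈ G.edgeSet)
      (fun G => ∀ j ∈ (Finset.univ : Finset (Fin m)), ¬ ∀ c ∈ Aᶜ,
      ¬ ∀ e ∈ T j c, e ∈ G.edgeSet)
  linarith

lemma one_sub_ge {x : ℝ} (hx0 : 0 ≤ x) (hx : x ≤ 1 / 2) : Real.exp (-(2 * x)) ≤ 1 - x := by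
  have h1 : 1 + 2 * x ≤ Real.exp (2 * x) := by
    have := Real.add_one_le_exp (2 * x)
    linarith
  rw [Real.exp_neg, inv_le_iff_one_le_mul₀ (Real.exp_pos _)]
  nlinarith [mul_nonneg hx0 (show (0 : ℝ) ≤ 1 - 2 * x by linarith),
    mul_le_mul_of_nonneg_left h1 (show (0 : ℝ) ≤ 1 - x by linarith)]

lemma real_bound {t k n : ℕ} (ht : 1 ≤ t) (hn : 2 ≤ n) {p : ℝ} (hp0 : 0 ≤ p)
    (hx : p ^ t * n ≤ (1 / (32 * t)) * Real.log n) :
    (((⌊(n : ℝ) ^ ((1 : ℝ) / (8 * t))⌋₊ : ℕ) : ℝ) * k) ^ 2 * p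
      ≤ (k : ℝ) ^ 2 * (n : ℝ) ^ (-((1 : ℝ) / (4 * t))) ∧
    (1 - (1 - p ^ t) ^ n) ^ ⌊(n : ℝ) ^ ((1 : ℝ) / (8 * t))⌋₊
      ≤ Real.exp (-((n : ℝ) ^ ((1 : ℝ) / (16 * t)) - 1)) := by
  have ht' : (1 : ℝ) ≤ t := by exact_mod_cast ht
  have ht0 : (0 : ℝ) < t := by linarith
  obtain ⟨N, hN⟩ : ∃ N : ℝ, N = n := ⟨_, rfl⟩
  have hN2 : 2 ≤ N := by rw [hN]; exact_mod_cast hn
  have hN0 : 0 < N := by linarith
  rw [← hN] at hx ⊢
  obtain ⟨x, hxd⟩ : ∃ x : ℝ, x = p ^ t := ⟨_, rfl⟩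
  have hx0 : 0 ≤ x := hxd ▸ pow_nonneg hp0 t
  rw [← hxd] at hx ⊢
  have hc : (1 : ℝ) / (32 * t) ≤ 1 / 32 := by
    apply one_div_le_one_div_of_le (by norm_num)
    linarith
  have hlog0 : 0 ≤ Real.log N := Real.log_nonneg (by linarith)
  have hlog : Real.log N ≤ 2 * N ^ ((1 : ℝ) / 2) := by
    have := Real.log_le_rpow_div hN0.le (show (0 : ℝ) < 1 / 2 by norm_num)
    linarith
  have hr0 : 0 < N ^ ((1 : ℝ) / 2) := Real.rpow_pos_of_pos hN0 _
  have hx1 : x ≤ N ^ (-((1 : ℝ) / 2)) := by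
    have h1 : N ^ (-((1 : ℝ) / 2)) * N = N ^ ((1 : ℝ) / 2) := by
      conv_lhs => rw [show N = N ^ (1 : ℝ) from (Real.rpow_one N).symm]
      rw [Real.rpow_one, ← Real.rpow_add_one hN0.ne']
      norm_num
    have h2 : x * N ≤ N ^ (-((1 : ℝ) / 2)) * N := by
      rw [h1]
      calc x * N ≤ 1 / (32 * t) * Real.log N := hx
        _ ≤ 1 / 32 * Real.log N := mul_le_mul_of_nonneg_right hc hlog0
        _ ≤ _ := by linarith
    exact le_of_mul_le_mul_right h2 hN0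
  have hx2 : x ≤ 1 / 2 := by
    have h2 : x * N ≤ 1 / 2 * N := by
      calc x * N ≤ 1 / (32 * t) * Real.log N := hx
        _ ≤ 1 / 32 * Real.log N := mul_le_mul_of_nonneg_right hc hlog0
        _ ≤ 1 / 32 * (N - 1) := by
          have := Real.log_le_sub_one_of_pos hN0
          linarith
        _ ≤ _ := by linarith
    exact le_of_mul_le_mul_right h2 hN0
  obtain ⟨m, hm⟩ : ∃ m : ℕ, m = ⌊N ^ ((1 : ℝ) / (8 * t))⌋₊ := ⟨_, rfl⟩
  rw [← hm]
  have hm1 : (m : ℝ) ≤ N ^ ((1 : ℝ) / (8 * t)) := hm ▸ Nat.floor_le (Real.rpow_nonneg hN0.le _)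
  have hm2 : N ^ ((1 : ℝ) / (8 * t)) - 1 ≤ (m : ℝ) := by
    have := Nat.lt_floor_add_one (N ^ ((1 : ℝ) / (8 * t)))
    rw [← hm] at this
    linarith
  refine ⟨?_, ?_⟩
  · have hp1 : p ≤ N ^ (-((1 : ℝ) / (2 * t))) := by
      have h1 : p = x ^ ((t : ℝ)⁻¹) := by
        rw [hxd, Real.pow_rpow_inv_natCast hp0 (by omega)]
      rw [h1]
      calc x ^ ((t : ℝ)⁻¹) ≤ (N ^ (-((1 : ℝ) / 2))) ^ ((t : ℝ)⁻¹) :=
            Real.rpow_le_rpow hx0 hx1 (by positivity)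
        _ = _ := by
            rw [← Real.rpow_mul hN0.le]
            congr 1
            field_simp
    have hm0 : (0 : ℝ) ≤ m := Nat.cast_nonneg m
    calc ((m : ℝ) * k) ^ 2 * p ≤ (N ^ ((1 : ℝ) / (8 * t)) * k) ^ 2 * N ^ (-((1 : ℝ) / (2 * t))) := by
          apply mul_le_mul _ hp1 hp0 (by positivity)
          apply pow_le_pow_left₀ (by positivity)
          exact mul_le_mul_of_nonneg_right hm1 (Nat.cast_nonneg k)
      _ = (k : ℝ) ^ 2 * (N ^ ((1 : ℝ) / (8 * t)) * N ^ ((1 : ℝ) / (8 * t))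
            * N ^ (-((1 : ℝ) / (2 * t)))) := by ring
      _ = (k : ℝ) ^ 2 * N ^ (-((1 : ℝ) / (4 * t))) := by
          rw [← Real.rpow_add hN0, ← Real.rpow_add hN0]
          congr 2
          field_simp
          norm_num
  · have hy : N ^ (-((1 : ℝ) / (16 * t))) ≤ (1 - x) ^ n := by
      calc N ^ (-((1 : ℝ) / (16 * t))) = Real.exp (Real.log N * (-((1 : ℝ) / (16 * t)))) :=
            Real.rpow_def_of_pos hN0 _
        _ ≤ Real.exp ((n : ℝ) * (-(2 * x))) := by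
            apply Real.exp_le_exp.mpr
            rw [← hN]
            have h1 : Real.log N * (-((1 : ℝ) / (16 * t)))
              = -(2 * (1 / (32 * t) * Real.log N)) := by field_simp; ring
            rw [h1]
            linarith
        _ = (Real.exp (-(2 * x))) ^ n := by rw [← Real.exp_nat_mul]
        _ ≤ (1 - x) ^ n := pow_le_pow_left₀ (Real.exp_pos _).le (one_sub_ge hx0 hx2) n
    obtain ⟨y, hyd⟩ : ∃ y : ℝ, y = (1 - x) ^ n := ⟨_, rfl⟩
    rw [← hyd] at hy ⊢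
    have hy1 : y ≤ 1 := by rw [hyd]; exact pow_le_one₀ (by linarith) (by linarith)
    have hy0 : 0 ≤ y := le_trans (Real.rpow_nonneg hN0.le _) hy
    calc (1 - y) ^ m ≤ (Real.exp (-y)) ^ m :=
          pow_le_pow_left₀ (by linarith) (Real.one_sub_le_exp_neg y) m
      _ = Real.exp ((m : ℝ) * (-y)) := by rw [← Real.exp_nat_mul]
      _ ≤ _ := by
          apply Real.exp_le_exp.mpr
          have h1 : (N ^ ((1 : ℝ) / (8 * t)) - 1) * N ^ (-((1 : ℝ) / (16 * t))) ≤ m * y := by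
            apply mul_le_mul hm2 hy (Real.rpow_nonneg hN0.le _) (Nat.cast_nonneg m)
          have h2 : N ^ ((1 : ℝ) / (8 * t)) * N ^ (-((1 : ℝ) / (16 * t)))
              = N ^ ((1 : ℝ) / (16 * t)) := by
            rw [← Real.rpow_add hN0]
            congr 1
            field_simp
            norm_num
          have h3 : N ^ (-((1 : ℝ) / (16 * t))) ≤ 1 :=
            Real.rpow_le_one_of_one_le_of_nonpos (by linarith) (by
              have : (0 : ℝ) ≤ 1 / (16 * t) := by positivity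
              linarith)
          rw [sub_mul, h2, one_mul] at h1
          linarith

end I

/-- **Sparse common neighbourhoods.** -/
lemma sparse_common (t k : ℕ) (ht : 1 ≤ t) (htk : t ≤ k) (p : ℕ → ℝ)
    (hp : ∀ n, 0 ≤ p n ∧ p n ≤ 1)
    (h : Tendsto (fun n : ℕ => (p n) ^ t * n / Real.log n) atTop (𝓝 0)) :
    Tendsto (fun n => gnp n (p n) (fun G => ∃ W U : Finset (Fin n), U ⊆ W ∧ U.card = t ∧
      W.card = k ∧ (∀ v ∈ W, ∀ w ∈ W, ¬ G.Adj v w) ∧ ∀ w, ∃ u ∈ U, ¬ G.Adj u w)) atTop (𝓝 1) := by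
  have ht' : (1 : ℝ) ≤ t := by exact_mod_cast ht
  have ht0 : (0 : ℝ) < t := by linarith
  have hcast : Tendsto (fun n : ℕ => (n : ℝ)) atTop atTop := tendsto_natCast_atTop_atTop
  have hT1 : Tendsto (fun n : ℕ => (k : ℝ) ^ 2 * (n : ℝ) ^ (-((1 : ℝ) / (4 * t)))) atTop (𝓝 0) := by
    have h1 := (tendsto_rpow_neg_atTop (show (0 : ℝ) < 1 / (4 * t) by positivity)).comp hcast
    have h2 := h1.const_mul ((k : ℝ) ^ 2)
    rw [mul_zero] at h2
    exact h2
  have hT2 : Tendsto (fun n : ℕ => Real.exp (-((n : ℝ) ^ ((1 : ℝ) / (16 * t)) - 1))) atTop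
      (𝓝 0) := by
    have h1 := (tendsto_rpow_atTop (show (0 : ℝ) < 1 / (16 * t) by positivity)).comp hcast
    have h2 : Tendsto (fun n : ℕ => (n : ℝ) ^ ((1 : ℝ) / (16 * t)) - 1) atTop atTop :=
      tendsto_atTop_add_const_right _ (-1) h1
    exact Real.tendsto_exp_neg_atTop_nhds_zero.comp h2
  have hlow : Tendsto (fun n : ℕ => 1 - (k : ℝ) ^ 2 * (n : ℝ) ^ (-((1 : ℝ) / (4 * t)))
      - Real.exp (-((n : ℝ) ^ ((1 : ℝ) / (16 * t)) - 1))) atTop (𝓝 1) := by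
    have := (tendsto_const_nhds (x := (1 : ℝ))).sub hT1 |>.sub hT2
    simpa using this
  refine tendsto_of_tendsto_of_tendsto_of_le_of_le' hlow tendsto_const_nhds ?_
    (Filter.Eventually.of_forall fun n => gnp_le_one (hp n).1 (hp n).2 _)
  have hev : ∀ᶠ n : ℕ in atTop, (p n) ^ t * n / Real.log n < 1 / (32 * t) :=
    h.eventually_lt_const (by positivity)
  filter_upwards [hev, eventually_ge_atTop (k ^ 2 + 2)] with n h1 h2
  have hn2 : 2 ≤ n := by omega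
  have hN2 : (2 : ℝ) ≤ n := by exact_mod_cast hn2
  have hlog : 0 < Real.log n := Real.log_pos (by linarith)
  have hx : (p n) ^ t * n ≤ (1 / (32 * t)) * Real.log n := by
    rw [div_lt_iff₀ hlog] at h1
    exact h1.le
  obtain ⟨hb1, hb2⟩ := I.real_bound (k := k) ht hn2 (hp n).1 hx
  have hmn : ⌊(n : ℝ) ^ ((1 : ℝ) / (8 * t))⌋₊ * k ≤ n := by
    have h3 : ((⌊(n : ℝ) ^ ((1 : ℝ) / (8 * t))⌋₊ : ℕ) : ℝ) ≤ (n : ℝ) ^ ((1 : ℝ) / 2) := by
      refine le_trans (Nat.floor_le (Real.rpow_nonneg (by linarith) _)) ?_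
      apply Real.rpow_le_rpow_of_exponent_le (by linarith)
      apply one_div_le_one_div_of_le (by norm_num)
      linarith
    have h4 : (k : ℝ) ≤ (n : ℝ) ^ ((1 : ℝ) / 2) := by
      rw [← Real.sqrt_eq_rpow]
      apply Real.le_sqrt_of_sq_le
      have : k ^ 2 ≤ n := by omega
      exact_mod_cast this
    have h5 : (((⌊(n : ℝ) ^ ((1 : ℝ) / (8 * t))⌋₊ * k : ℕ)) : ℝ) ≤ n := by
      rw [Nat.cast_mul]
      calc ((⌊(n : ℝ) ^ ((1 : ℝ) / (8 * t))⌋₊ : ℕ) : ℝ) * k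
          ≤ (n : ℝ) ^ ((1 : ℝ) / 2) * (n : ℝ) ^ ((1 : ℝ) / 2) :=
            mul_le_mul h3 h4 (Nat.cast_nonneg k) (Real.rpow_nonneg (by linarith) _)
        _ = n := by
            rw [← Real.rpow_add (by linarith)]
            norm_num
    exact_mod_cast h5
  have hfin := I.fin_bound ht htk hmn (hp n).1 (hp n).2
  linarith

end Pool.Agent.TH948.SH
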