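import Pool.Agent.TH948.SH.Base

set_option autoImplicit false

/-!
# Above `1/n` the chromatic number of `G(n,p)` is unbounded
-/

namespace Pool.Agent.TH948.SH

open Filter Topology Asymptotics
open scoped Classical

namespace Ax

/-- the ordered pairs with equal colours -/
noncomputable def eqp {n k : ℕ} (c : Fin n → Fin k) : Finset (Fin n × Fin n) :=
  Finset.univ.filter (fun q : Fin n × Fin n => c q.1 = c q.2)

/-- the increasing pairs with equal colours -/
noncomputable def inc {n k : ℕ} (c : Fin n → Fin k) : Finset (Fin n × Fin n) :=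
  Finset.univ.filter (fun q : Fin n × Fin n => q.1 < q.2 ∧ c q.1 = c q.2)

/-- the monochromatic edges -/
noncomputable def mono {n k : ℕ} (c : Fin n → Fin k) : Finset (Sym2 (Fin n)) :=
  (inc c).image (fun q => s(q.1, q.2))

lemma card_mono {n k : ℕ} (c : Fin n → Fin k) : (mono c).card = (inc c).card := by
  unfold mono
  apply Finset.card_image_of_injOn
  rintro ⟨a, b⟩ hab ⟨a', b'⟩ hab' h
  simp only [inc, Finset.coe_filter, Finset.mem_univ, true_and, Set.mem_ofPred_eq] at hab hab'
  simp only [Sym2.eq_iff] at h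
  rcases h with ⟨h1, h2⟩ | ⟨h1, h2⟩
  · rw [h1, h2]
  · exfalso
    rw [h1, h2] at hab
    exact absurd hab.1 (not_lt.2 hab'.1.le)

lemma card_eqp {n k : ℕ} (c : Fin n → Fin k) : (eqp c).card = 2 * (inc c).card + n := by
  have h1 : eqp c = (inc c ∪ (inc c).image Prod.swap) ∪
      (Finset.univ.image (fun x : Fin n => (x, x))) := by
    ext ⟨x, y⟩
    simp only [eqp, inc, Finset.mem_filter, Finset.mem_univ, true_and, Finset.mem_union,
      Finset.mem_image, Prod.exists, Prod.swap_prod_mk, Prod.mk.injEq]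
    constructor
    · intro h
      rcases lt_trichotomy x y with h2 | h2 | h2
      · exact Or.inl (Or.inl ⟨h2, h⟩)
      · exact Or.inr ⟨x, rfl, h2⟩
      · exact Or.inl (Or.inr ⟨y, x, ⟨h2, h.symm⟩, rfl, rfl⟩)
    · rintro ((⟨_, h⟩ | ⟨a, b, ⟨_, h⟩, rfl, rfl⟩) | ⟨a, rfl, rfl⟩)
      · exact h
      · exact h.symm
      · rfl
  rw [h1, Finset.card_union_of_disjoint, Finset.card_union_of_disjoint,
    Finset.card_image_of_injective _ Prod.swap_injective, Finset.card_image_of_injective,
    Finset.card_univ, Fintype.card_fin]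
  · ring
  · intro x y h
    exact (Prod.mk.inj h).1
  · rw [Finset.disjoint_left]
    rintro ⟨x, y⟩ h2 h3
    simp only [inc, Finset.mem_filter, Finset.mem_univ, true_and, 
      Finset.mem_image, Prod.exists, Prod.swap_prod_mk, Prod.mk.injEq] at h2 h3
    obtain ⟨a, b, ⟨h4, _⟩, rfl, rfl⟩ := h3
    exact absurd h4 (not_lt.2 h2.1.le)
  · rw [Finset.disjoint_left]
    rintro ⟨x, y⟩ h2 h3
    simp only [inc, Finset.mem_filter, Finset.mem_univ, true_and, Finset.mem_union,
      Finset.mem_image, Prod.exists, Prod.swap_prod_mk, Prod.mk.injEq] at h2 h3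
    obtain ⟨a, rfl, rfl⟩ := h3
    rcases h2 with ⟨h4, _⟩ | ⟨a', b', ⟨h4, _⟩, h5, h6⟩
    · exact lt_irrefl _ h4
    · rw [h5, h6] at h4
      exact lt_irrefl _ h4

lemma eqp_large {n k : ℕ} (c : Fin n → Fin k) : (n : ℝ) ^ 2 ≤ k * ((eqp c).card : ℝ) := by
  set a : Fin k → ℝ := fun i => ∑ x, if c x = i then (1 : ℝ) else 0 with ha
  have h1 : ∑ i, a i = n := by
    rw [ha, Finset.sum_comm]
    simp
  have h2 : ((eqp c).card : ℝ) = ∑ i, a i ^ 2 := by
    have h3 : ∀ i, a i ^ 2 = ∑ x, ∑ y, (if c x = i then (1 : ℝ) else 0) * (if c y = i then 1 else 0) := by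
      intro i
      rw [ha, sq, Finset.sum_mul_sum]
    rw [Finset.sum_congr rfl fun i _ => h3 i, Finset.sum_comm]
    unfold eqp
    rw [Finset.card_filter, Nat.cast_sum, Fintype.sum_prod_type]
    refine Finset.sum_congr rfl fun x _ => ?_
    rw [Finset.sum_comm]
    refine Finset.sum_congr rfl fun y _ => ?_
    rw [Finset.sum_eq_single (c x)]
    · by_cases h : c x = c y
      · simp [h]
      · simp [h, Ne.symm h]
    · intro i _ hi
      simp [Ne.symm hi]
    · simp
  have h4 := sq_sum_le_card_mul_sum_sq (s := (Finset.univ : Finset (Fin k))) (f := a)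
  rw [h1, Finset.card_univ, Fintype.card_fin] at h4
  rw [h2]
  exact h4

lemma bound (n k : ℕ) (hk : 1 ≤ k) (p : ℝ) (hp0 : 0 ≤ p) (hp1 : p ≤ 1) :
    gnp n p (fun G => G.Colorable k) ≤
      (k : ℝ) ^ n * Real.exp (-(p * (((n : ℝ) ^ 2 / k - n) / 2))) := by
  have h1 : gnp n p (fun G => G.Colorable k) ≤
      gnp n p (fun G => ∃ c ∈ (Finset.univ : Finset (Fin n → Fin k)),
        ∀ e ∈ mono c, e ∉ G.edgeSet) := by
    refine gnp_imp hp0 hp1 ?_
    rintro G ⟨c⟩
    refine ⟨fun x => c x, Finset.mem_univ _, ?_⟩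
    intro e he h
    simp only [mono, inc, Finset.mem_image, Finset.mem_filter, Finset.mem_univ, true_and,
      Prod.exists] at he
    obtain ⟨x, y, ⟨_, hxy⟩, rfl⟩ := he
    rw [SimpleGraph.mem_edgeSet] at h
    exact c.valid h hxy
  refine h1.trans ((gnp_union hp0 hp1 _ _).trans ?_)
  have h2 : ∀ c : Fin n → Fin k, gnp n p (fun G => ∀ e ∈ mono c, e ∉ G.edgeSet) ≤
      Real.exp (-(p * (((n : ℝ) ^ 2 / k - n) / 2))) := by
    intro c
    rw [gnp_absent]
    · have h3 : (1 - p) ^ (mono c).card ≤ Real.exp (-p) ^ (mono c).card := by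
        apply pow_le_pow_left₀ (by linarith)
        have := Real.add_one_le_exp (-p)
        linarith
      refine h3.trans ?_
      rw [← Real.exp_nat_mul]
      apply Real.exp_le_exp.2
      have h4 := eqp_large c
      have hk0 : (0 : ℝ) < k := by exact_mod_cast hk
      rw [card_eqp, ← card_mono] at h4
      push_cast at h4
      have h5 : (n : ℝ) ^ 2 / k ≤ 2 * ((mono c).card : ℝ) + n := by
        rw [div_le_iff₀ hk0]
        linarith
      have h6 : ((n : ℝ) ^ 2 / k - n) / 2 ≤ (mono c).card := by linarith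
      have h7 := mul_le_mul_of_nonneg_left h6 hp0
      linarith
    · intro e he
      simp only [mono, inc, Finset.mem_image, Finset.mem_filter, Finset.mem_univ, true_and,
        Prod.exists] at he
      obtain ⟨x, y, ⟨hxy, _⟩, rfl⟩ := he
      rw [Sym2.mk_isDiag_iff]
      exact hxy.ne
  refine (Finset.sum_le_sum fun c _ => h2 c).trans ?_
  rw [Finset.sum_const, nsmul_eq_mul, Finset.card_univ, Fintype.card_fun, Fintype.card_fin,
    Fintype.card_fin]
  push_cast
  exact le_rfl

end Ax

/-- above `1/n` the chromatic number is unbounded -/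
lemma not_colorable (k : ℕ) (p : ℕ → ℝ) (hp : ∀ n, 0 ≤ p n ∧ p n ≤ 1)
    (h : Tendsto (fun n : ℕ => p n * n) atTop atTop) :
    Tendsto (fun n => gnp n (p n) (fun G => G.Colorable k)) atTop (𝓝 0) := by
  -- it is enough to bound the probability by `exp (-n)`
  have hlim : Tendsto (fun n : ℕ => Real.exp (-(n : ℝ))) atTop (𝓝 0) :=
    Real.tendsto_exp_neg_atTop_nhds_zero.comp tendsto_natCast_atTop_atTop
  refine tendsto_of_tendsto_of_tendsto_of_le_of_le' tendsto_const_nhds hlim
    (Eventually.of_forall fun n => gnp_nonneg (hp n).1 (hp n).2 _) ?_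
  rcases Nat.eq_zero_or_pos k with rfl | hk
  · filter_upwards [eventually_ge_atTop 1] with n hn
    have h0 : gnp n (p n) (fun G => G.Colorable 0) = 0 := by
      unfold gnp
      refine Finset.sum_eq_zero fun G _ => ?_
      rw [if_neg]
      rintro ⟨c⟩
      exact (c ⟨0, hn⟩).elim0
    rw [h0]
    exact (Real.exp_pos _).le
  · have hk0 : (0 : ℝ) < k := by exact_mod_cast hk
    filter_upwards [h.eventually_ge_atTop (2 * k * (Real.log k + 1 / 2 + 1))] with n hn
    refine (Ax.bound n k hk (p n) (hp n).1 (hp n).2).trans ?_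
    have h1 : (k : ℝ) ^ n = Real.exp (n * Real.log k) := by
      rw [Real.exp_nat_mul, Real.exp_log hk0]
    rw [h1, ← Real.exp_add]
    apply Real.exp_le_exp.2
    have hn0 : (0 : ℝ) ≤ n := Nat.cast_nonneg n
    have h2 : Real.log k + 1 / 2 + 1 ≤ p n * n / (2 * k) := by
      rw [le_div_iff₀ (by positivity)]
      linarith
    have h3 : (n : ℝ) * (Real.log k + 1 / 2 + 1) ≤ n * (p n * n / (2 * k)) :=
      mul_le_mul_of_nonneg_left h2 hn0
    have h4 : p n * (((n : ℝ) ^ 2 / k - n) / 2) = n * (p n * n / (2 * k)) - p n * n / 2 := by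
      field_simp
    have h5 : p n * n ≤ n := by
      have := mul_le_mul_of_nonneg_right (hp n).2 hn0
      linarith
    rw [h4]
    linarith

end Pool.Agent.TH948.SH
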