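import Pool.Agent.TH948.SH.Base

set_option autoImplicit false

/-!
# The random graph is connected above `log n / n`
-/

namespace Pool.Agent.TH948.SH

open Filter Topology Asymptotics
open scoped Classical

namespace B_

/-- the pairs between `S` and its complement -/
noncomputable def cut {n : ℕ} (S : Finset (Fin n)) : Finset (Sym2 (Fin n)) :=
  (S ×ˢ Sᶜ).image fun q => s(q.1, q.2)

lemma cut_diag {n : ℕ} (S : Finset (Fin n)) : ∀ e ∈ cut S, ¬ e.IsDiag := by
  intro e he
  rw [cut, Finset.mem_image] at he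
  obtain ⟨⟨x, y⟩, hq, rfl⟩ := he
  rw [Finset.mem_product, Finset.mem_compl] at hq
  rw [Sym2.mk_isDiag_iff]
  intro h
  exact hq.2 (h ▸ hq.1)

lemma cut_card {n : ℕ} (S : Finset (Fin n)) : (cut S).card = S.card * (n - S.card) := by
  rw [cut, Finset.card_image_of_injOn, Finset.card_product, Finset.card_compl, Fintype.card_fin]
  rintro ⟨x, y⟩ h ⟨x', y'⟩ h' he
  rw [Finset.mem_coe, Finset.mem_product, Finset.mem_compl] at h h'
  rcases Sym2.eq_iff.1 he with ⟨h1, h2⟩ | ⟨h1, h2⟩
  · exact Prod.ext h1 h2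
  · exact absurd (h1 ▸ h.1) h'.2

lemma exists_cut {n : ℕ} (hn : 1 ≤ n) (G : SimpleGraph (Fin n)) (h : ¬ G.Connected) :
    ∃ S ∈ (Finset.univ : Finset (Finset (Fin n))).filter
      (fun S => S.Nonempty ∧ 2 * S.card ≤ n), ∀ e ∈ cut S, e ∉ G.edgeSet := by
  have : Nonempty (Fin n) := ⟨⟨0, by omega⟩⟩
  rw [SimpleGraph.connected_iff] at h
  have h1 : ¬ G.Preconnected := fun hp => h ⟨hp, this⟩
  unfold SimpleGraph.Preconnected at h1
  push Not at h1
  obtain ⟨u, v, huv⟩ := h1
  obtain ⟨C, hC⟩ : ∃ C : Finset (Fin n), C = Finset.univ.filter (fun w => G.Reachable u w) :=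
    ⟨_, rfl⟩
  have hmem : ∀ w, w ∈ C ↔ G.Reachable u w := by
    intro w
    rw [hC, Finset.mem_filter]
    simp
  have hno : ∀ x ∈ C, ∀ y, y ∉ C → ¬ G.Adj x y := by
    intro x hx y hy hxy
    exact hy ((hmem y).2 (((hmem x).1 hx).trans hxy.reachable))
  have hCn : C.Nonempty := ⟨u, (hmem u).2 (SimpleGraph.Reachable.refl u)⟩
  have hCc : Cᶜ.Nonempty := ⟨v, by rw [Finset.mem_compl, hmem]; exact huv⟩
  have hcard : C.card + Cᶜ.card = n := by
    rw [Finset.card_add_card_compl, Fintype.card_fin]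
  have hcut : ∀ S : Finset (Fin n), (∀ x ∈ S, ∀ y, y ∉ S → ¬ G.Adj x y) →
      ∀ e ∈ cut S, e ∉ G.edgeSet := by
    intro S hS e he
    rw [cut, Finset.mem_image] at he
    obtain ⟨⟨x, y⟩, hq, rfl⟩ := he
    rw [Finset.mem_product, Finset.mem_compl] at hq
    rw [SimpleGraph.mem_edgeSet]
    exact hS x hq.1 y hq.2
  by_cases h2 : 2 * C.card ≤ n
  · refine ⟨C, ?_, hcut C hno⟩
    rw [Finset.mem_filter]
    exact ⟨Finset.mem_univ _, hCn, h2⟩
  · refine ⟨Cᶜ, ?_, hcut Cᶜ ?_⟩
    · rw [Finset.mem_filter]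
      exact ⟨Finset.mem_univ _, hCc, by omega⟩
    · intro x hx y hy hxy
      rw [Finset.mem_compl] at hx hy
      rw [not_not] at hy
      exact hno y hy x hx hxy.symm

lemma sum_card {n : ℕ} (y : ℝ) :
    ∑ S : Finset (Fin n), y ^ S.card = (y + 1) ^ n := by
  have h := Finset.sum_pow_mul_eq_add_pow y 1 (Finset.univ : Finset (Fin n))
  rw [Finset.powerset_univ, Finset.card_univ, Fintype.card_fin] at h
  rw [← h]
  exact Finset.sum_congr rfl fun S _ => by rw [one_pow, mul_one]

lemma bound {n : ℕ} (hn : 1 ≤ n) {p : ℝ} (hp0 : 0 ≤ p) (hp1 : p ≤ 1) :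
    gnp n p (fun G => ¬ G.Connected) ≤ Real.exp (n * Real.exp (-(p * n / 2))) - 1 := by
  obtain ⟨y, hy⟩ : ∃ y : ℝ, y = Real.exp (-(p * n / 2)) := ⟨_, rfl⟩
  have hy0 : 0 ≤ y := by rw [hy]; exact (Real.exp_pos _).le
  obtain ⟨F, hF⟩ : ∃ F : Finset (Finset (Fin n)), F = (Finset.univ : Finset (Finset (Fin n))).filter
      (fun S => S.Nonempty ∧ 2 * S.card ≤ n) := ⟨_, rfl⟩
  calc gnp n p (fun G => ¬ G.Connected)
      ≤ gnp n p (fun G => ∃ S ∈ F, ∀ e ∈ cut S, e ∉ G.edgeSet) := by
        refine gnp_imp hp0 hp1 fun G hG => ?_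
        rw [hF]
        exact exists_cut hn G hG
    _ ≤ ∑ S ∈ F, gnp n p (fun G => ∀ e ∈ cut S, e ∉ G.edgeSet) :=
        gnp_union hp0 hp1 F fun S G => ∀ e ∈ cut S, e ∉ G.edgeSet
    _ ≤ ∑ S ∈ F, y ^ S.card := by
        refine Finset.sum_le_sum fun S hS => ?_
        rw [hF, Finset.mem_filter] at hS
        rw [gnp_absent (cut S) (cut_diag S), cut_card, hy, ← Real.exp_nat_mul]
        have h1 : (1 - p) ^ (S.card * (n - S.card)) ≤
            Real.exp (-p) ^ (S.card * (n - S.card)) := by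
          refine pow_le_pow_left₀ (by linarith) ?_ _
          have := Real.add_one_le_exp (-p)
          linarith
        refine h1.trans ?_
        rw [← Real.exp_nat_mul, Real.exp_le_exp]
        have h2 : ((n - S.card : ℕ) : ℝ) ≥ n / 2 := by
          have h3 : S.card ≤ n := by omega
          rw [Nat.cast_sub h3]
          have h4 : (2 : ℝ) * S.card ≤ n := by exact_mod_cast hS.2.2
          linarith
        push_cast
        have h5 : 0 ≤ p * (S.card : ℝ) := by positivity
        nlinarith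
    _ ≤ ∑ S ∈ (Finset.univ : Finset (Finset (Fin n))).erase ∅, y ^ S.card := by
        refine Finset.sum_le_sum_of_subset_of_nonneg ?_ fun S _ _ => by positivity
        intro S hS
        rw [hF, Finset.mem_filter] at hS
        rw [Finset.mem_erase]
        exact ⟨hS.2.1.ne_empty, Finset.mem_univ _⟩
    _ = (y + 1) ^ n - 1 := by
        rw [← sum_card (n := n) y, ← Finset.add_sum_erase _ _ (Finset.mem_univ (∅ : Finset (Fin n)))]
        simp
    _ ≤ Real.exp (n * Real.exp (-(p * n / 2))) - 1 := by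
        rw [← hy, Real.exp_nat_mul]
        have := pow_le_pow_left₀ (by linarith) (Real.add_one_le_exp y) n
        linarith

end B_

/-- above `log n / n` the graph is connected -/
lemma connected_whp (p : ℕ → ℝ) (hp : ∀ n, 0 ≤ p n ∧ p n ≤ 1)
    (h : Tendsto (fun n : ℕ => p n * n / Real.log n) atTop atTop) :
    Tendsto (fun n => gnp n (p n) (fun G => G.Connected)) atTop (𝓝 1) := by
  have h0 : Tendsto (fun n => gnp n (p n) (fun G => ¬ G.Connected)) atTop (𝓝 0) := by
    have hlim : Tendsto (fun n : ℕ => Real.exp ((n : ℝ)⁻¹) - 1) atTop (𝓝 0) := by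
      have h1 : Tendsto (fun n : ℕ => Real.exp ((n : ℝ)⁻¹)) atTop (𝓝 (Real.exp 0)) :=
        (Real.continuous_exp.tendsto 0).comp tendsto_inv_atTop_nhds_zero_nat
      have h2 := h1.sub_const 1
      rwa [Real.exp_zero, sub_self] at h2
    refine squeeze_zero' (Eventually.of_forall fun n => gnp_nonneg (hp n).1 (hp n).2 _) ?_ hlim
    filter_upwards [h.eventually_ge_atTop 4, eventually_ge_atTop 2] with n h1 h2
    have hn : (2 : ℝ) ≤ n := by exact_mod_cast h2
    have hlog : 0 < Real.log n := Real.log_pos (by linarith)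
    rw [le_div_iff₀ hlog] at h1
    refine (B_.bound (by omega) (hp n).1 (hp n).2).trans ?_
    have h3 : (n : ℝ) * Real.exp (-(p n * n / 2)) ≤ (n : ℝ)⁻¹ := by
      have h4 : Real.exp (-(p n * n / 2)) ≤ (n : ℝ)⁻¹ * (n : ℝ)⁻¹ := by
        have h5 : (n : ℝ)⁻¹ = Real.exp (-Real.log n) := by
          rw [Real.exp_neg, Real.exp_log (by linarith)]
        rw [h5, ← Real.exp_add, Real.exp_le_exp]
        linarith
      calc (n : ℝ) * Real.exp (-(p n * n / 2)) ≤ n * ((n : ℝ)⁻¹ * (n : ℝ)⁻¹) :=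
            mul_le_mul_of_nonneg_left h4 (by positivity)
        _ = (n : ℝ)⁻¹ := by
            field_simp
    have := Real.exp_le_exp.2 h3
    linarith
  have h1 : (fun n => gnp n (p n) (fun G => G.Connected)) =
      fun n => 1 - gnp n (p n) (fun G => ¬ G.Connected) := by
    funext n
    rw [gnp_not]
    ring
  rw [h1]
  have := h0.const_sub 1
  rwa [sub_zero] at this

end Pool.Agent.TH948.SH
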