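import Pool.Agent.TH948.SH.Defs
import Pool.Agent.TH965.Final

set_option autoImplicit false
set_option linter.unusedSectionVars false

/-!
# Elementary probability in `G(n,p)`
-/

namespace Pool.Agent.TH948.SH

open Filter Topology Asymptotics
open scoped Classical
open Pool.Agent.TH965.Spread Pool.Agent.TH965.Emb

section exsl

variable {X : Type*} [DecidableEq X]

lemma exs_congr (s : Finset X) (p : ℝ) {f g : Finset X → ℝ} (h : ∀ W, W ⊆ s → f W = g W) :
    exs s p f = exs s p g := by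
  unfold exs
  apply Finset.sum_congr rfl
  intro W hW
  rw [h W (Finset.mem_powerset.mp hW)]

lemma exs_split (a b : Finset X) (hab : Disjoint a b) (p : ℝ) (f g : Finset X → ℝ) :
    exs (a ∪ b) p (fun W => f (W ∩ a) * g (W ∩ b)) = exs a p f * exs b p g := by
  induction b using Finset.induction_on generalizing g with
  | empty =>
    rw [Finset.union_empty, exs_empty]
    rw [mul_comm, ← exs_mul_left]
    apply exs_congr
    intro W hW
    rw [Finset.inter_empty, Finset.inter_eq_left.mpr hW, mul_comm]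
  | insert x b hx ih =>
    have hxa : x ∉ a := fun h => (Finset.disjoint_left.mp hab) h (Finset.mem_insert_self x b)
    have hab' : Disjoint a b := hab.mono_right (Finset.subset_insert x b)
    rw [Finset.union_insert, exs_insert _ x (by simp [hxa, hx]), exs_insert b x hx]
    have e1 : exs (a ∪ b) p (fun W => f (W ∩ a) * g (W ∩ insert x b))
        = exs (a ∪ b) p (fun W => f (W ∩ a) * g (W ∩ b)) := by
      apply exs_congr
      intro W hW
      have hxW : x ∉ W := fun h => by
        rcases Finset.mem_union.mp (hW h) with h | h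
        · exact hxa h
        · exact hx h
      congr 2
      ext y
      simp only [Finset.mem_inter, Finset.mem_insert]
      constructor
      · rintro ⟨h1, h2 | h2⟩
        · exact absurd (h2 ▸ h1) hxW
        · exact ⟨h1, h2⟩
      · rintro ⟨h1, h2⟩
        exact ⟨h1, Or.inr h2⟩
    have e2 : exs (a ∪ b) p (fun W => f (insert x W ∩ a) * g (insert x W ∩ insert x b))
        = exs (a ∪ b) p (fun W => f (W ∩ a) * (fun Y => g (insert x Y)) (W ∩ b)) := by
      apply exs_congr
      intro W hW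
      rw [Finset.insert_inter_of_notMem hxa, ← Finset.insert_inter_distrib]
    rw [e1, e2, ih hab' g, ih hab' (fun Y => g (insert x Y))]
    ring

lemma exs_prod {ι : Type*} (B : Finset ι) (p : ℝ) (T : ι → Finset X) (g : ι → Finset X → ℝ) :
    ∀ s : Finset X, (∀ i ∈ B, T i ⊆ s) → (∀ i ∈ B, ∀ j ∈ B, i ≠ j → Disjoint (T i) (T j)) →
    exs s p (fun W => ∏ i ∈ B, g i (W ∩ T i)) = ∏ i ∈ B, exs (T i) p (g i) := by
  induction B using Finset.induction_on with
  | empty =>
    intro s _ _
    simp only [Finset.prod_empty]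
    exact exs_const s p 1
  | insert i B hi ih =>
    intro s hs hd
    rw [Finset.prod_insert hi]
    have hTi : T i ⊆ s := hs i (Finset.mem_insert_self i B)
    have hU : T i ∪ (s \ T i) = s := Finset.union_sdiff_of_subset hTi
    have hsub : ∀ j ∈ B, T j ⊆ s \ T i := by
      intro j hj
      apply Finset.subset_sdiff.mpr
      refine ⟨hs j (Finset.mem_insert_of_mem hj), ?_⟩
      exact hd j (Finset.mem_insert_of_mem hj) i (Finset.mem_insert_self i B)
        (fun h => hi (h ▸ hj))
    have h1 := exs_split (T i) (s \ T i) Finset.disjoint_sdiff p (g i)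
      (fun W => ∏ j ∈ B, g j (W ∩ T j))
    rw [hU] at h1
    rw [ih (s \ T i) hsub (fun a ha b hb hab => hd a (Finset.mem_insert_of_mem ha) b
      (Finset.mem_insert_of_mem hb) hab)] at h1
    rw [← h1]
    apply exs_congr
    intro W hW
    rw [Finset.prod_insert hi]
    congr 1
    apply Finset.prod_congr rfl
    intro j hj
    congr 1
    ext y
    simp only [Finset.mem_inter, Finset.mem_sdiff]
    constructor
    · rintro ⟨h2, h3⟩
      exact ⟨⟨h2, Finset.mem_sdiff.mp (hsub j hj h3)⟩, h3⟩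
    · rintro ⟨⟨h2, _⟩, h3⟩
      exact ⟨h2, h3⟩

lemma exs_sub (T : Finset X) (p : ℝ) :
    exs T p (fun W => if T ⊆ W then 1 else 0) = p ^ T.card := by
  unfold exs
  rw [Finset.sum_eq_single_of_mem T (Finset.mem_powerset.mpr (Finset.Subset.refl T))]
  · simp
  · intro W hW hne
    have : ¬ T ⊆ W := fun h => hne (Finset.Subset.antisymm (Finset.mem_powerset.mp hW) h)
    beta_reduce
    rw [if_neg this, mul_zero]

lemma exs_dis (T : Finset X) (p : ℝ) :
    exs T p (fun W => if Disjoint T W then 1 else 0) = (1 - p) ^ T.card := by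
  unfold exs
  rw [Finset.sum_eq_single_of_mem ∅ (Finset.empty_mem_powerset T)]
  · simp
  · intro W hW hne
    have : ¬ Disjoint T W := fun h => hne (by
      rw [← Finset.inter_eq_right.mpr (Finset.mem_powerset.mp hW)]
      exact Finset.disjoint_iff_inter_eq_empty.mp h)
    beta_reduce
    rw [if_neg this, mul_zero]

end exsl

section base

variable {n : ℕ} {p : ℝ}

lemma gnp_eq (n : ℕ) (p : ℝ) (P : SimpleGraph (Fin n) → Prop) :
    gnp n p P = exs (eF (⊤ : SimpleGraph (Fin n))) p
      (fun W => if P (SimpleGraph.fromEdgeSet (W : Set (Sym2 (Fin n)))) then 1 else 0) :=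
  Pool.Agent.TH965.gnp_eq_exs n p P

lemma w_nonneg (hp0 : 0 ≤ p) (hp1 : p ≤ 1) (a b : ℕ) : 0 ≤ p ^ a * (1 - p) ^ b := by
  have : 0 ≤ 1 - p := by linarith
  positivity

lemma gnp_nonneg (hp0 : 0 ≤ p) (hp1 : p ≤ 1) (P : SimpleGraph (Fin n) → Prop) :
    0 ≤ gnp n p P := by
  unfold gnp
  apply Finset.sum_nonneg
  intro G _
  split_ifs
  · exact w_nonneg hp0 hp1 _ _
  · exact le_refl 0

lemma gnp_true : gnp n p (fun _ => True) = 1 := by
  rw [gnp_eq]
  simp only [if_true]
  exact exs_const _ p 1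

lemma gnp_not (P : SimpleGraph (Fin n) → Prop) :
    gnp n p (fun G => ¬ P G) = 1 - gnp n p P := by
  have h : gnp n p (fun G => ¬ P G) + gnp n p P = 1 := by
    rw [← gnp_true (n := n) (p := p)]
    unfold gnp
    rw [← Finset.sum_add_distrib]
    apply Finset.sum_congr rfl
    intro G _
    by_cases h : P G <;> simp [h]
  linarith

lemma gnp_imp (hp0 : 0 ≤ p) (hp1 : p ≤ 1) {P Q : SimpleGraph (Fin n) → Prop}
    (h : ∀ G, P G → Q G) : gnp n p P ≤ gnp n p Q := by
  unfold gnp
  apply Finset.sum_le_sum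
  intro G _
  by_cases h1 : P G
  · rw [if_pos h1, if_pos (h G h1)]
  · rw [if_neg h1]
    split_ifs
    · exact w_nonneg hp0 hp1 _ _
    · exact le_refl 0

lemma gnp_le_one (hp0 : 0 ≤ p) (hp1 : p ≤ 1) (P : SimpleGraph (Fin n) → Prop) :
    gnp n p P ≤ 1 := by
  rw [← gnp_true (n := n) (p := p)]
  exact gnp_imp hp0 hp1 (fun _ _ => trivial)

/-- union bound -/
lemma gnp_union (hp0 : 0 ≤ p) (hp1 : p ≤ 1) {ι : Type*} (s : Finset ι)
    (P : ι → SimpleGraph (Fin n) → Prop) :
    gnp n p (fun G => ∃ i ∈ s, P i G) ≤ ∑ i ∈ s, gnp n p (P i) := by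
  unfold gnp
  rw [Finset.sum_comm]
  apply Finset.sum_le_sum
  intro G _
  by_cases h : ∃ i ∈ s, P i G
  · rw [if_pos h]
    obtain ⟨i, hi, hPi⟩ := h
    refine le_trans ?_ (Finset.single_le_sum (f := fun i => if P i G then
      p ^ G.edgeSet.ncard * (1 - p) ^ (n.choose 2 - G.edgeSet.ncard) else 0) ?_ hi)
    · simp only [if_pos hPi]; exact le_refl _
    · intro j _
      show 0 ≤ if P j G then _ else _
      split_ifs
      · exact w_nonneg hp0 hp1 _ _
      · exact le_refl 0
  · rw [if_neg h]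
    apply Finset.sum_nonneg
    intro j _
    split_ifs
    · exact w_nonneg hp0 hp1 _ _
    · exact le_refl 0

/-- decreasing properties become less likely -/
lemma gnp_anti {p' : ℝ} (hp0 : 0 ≤ p) (hpp : p ≤ p') (hp1 : p' ≤ 1)
    (P : SimpleGraph (Fin n) → Prop) (hP : ∀ G G' : SimpleGraph (Fin n), G ≤ G' → P G' → P G) :
    gnp n p' P ≤ gnp n p P := by
  have h : gnp n p (fun G => ¬ P G) ≤ gnp n p' (fun G => ¬ P G) :=
    Pool.Agent.TH965.gnp_mono n hp0 hpp hp1 (fun G => ¬ P G)
      (fun G G' hG h h' => h (hP G G' hG h'))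
  rw [gnp_not, gnp_not] at h
  linarith

lemma mem_top_eF {e : Sym2 (Fin n)} : e ∈ eF (⊤ : SimpleGraph (Fin n)) ↔ ¬ e.IsDiag := by
  rw [mem_eF, SimpleGraph.edgeSet_top]
  rfl

lemma mem_from {W : Finset (Sym2 (Fin n))} {e : Sym2 (Fin n)} (he : ¬ e.IsDiag) :
    e ∈ (SimpleGraph.fromEdgeSet (W : Set (Sym2 (Fin n)))).edgeSet ↔ e ∈ W := by
  rw [SimpleGraph.edgeSet_fromEdgeSet, Set.mem_sdiff, Finset.mem_coe]
  exact ⟨fun h => h.1, fun h => ⟨h, he⟩⟩

/-- disjoint blocks: no block is completely present -/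
lemma gnp_blocks_present {ι : Type*} (B : Finset ι) (T : ι → Finset (Sym2 (Fin n)))
    (hT : ∀ i ∈ B, ∀ e ∈ T i, ¬ e.IsDiag)
    (hd : ∀ i ∈ B, ∀ j ∈ B, i ≠ j → Disjoint (T i) (T j)) :
    gnp n p (fun G => ∀ i ∈ B, ¬ ∀ e ∈ T i, e ∈ G.edgeSet)
      = ∏ i ∈ B, (1 - p ^ (T i).card) := by
  have hs : ∀ i ∈ B, T i ⊆ eF (⊤ : SimpleGraph (Fin n)) := fun i hi e he =>
    mem_top_eF.mpr (hT i hi e he)
  have h1 : ∀ i ∈ B, exs (T i) p (fun W => 1 + (-1) * (if T i ⊆ W then 1 else 0))
      = 1 - p ^ (T i).card := by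
    intro i _
    rw [exs_add, exs_const, exs_mul_left, exs_sub]; ring
  rw [gnp_eq, ← Finset.prod_congr rfl h1, ← exs_prod B p T _ _ hs hd]
  apply exs_congr
  intro W _
  by_cases h : ∀ i ∈ B, ¬ ∀ e ∈ T i, e ∈
      (SimpleGraph.fromEdgeSet (W : Set (Sym2 (Fin n)))).edgeSet
  · rw [if_pos h]
    symm
    apply Finset.prod_eq_one
    intro i hi
    have : ¬ T i ⊆ W ∩ T i := by
      intro h2
      apply h i hi
      intro e he
      rw [mem_from (hT i hi e he)]
      exact (Finset.mem_inter.mp (h2 he)).1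
    rw [if_neg this]; ring
  · rw [if_neg h]
    push Not at h
    obtain ⟨i, hi, h2⟩ := h
    symm
    apply Finset.prod_eq_zero hi
    have : T i ⊆ W ∩ T i := by
      intro e he
      rw [Finset.mem_inter]
      exact ⟨(mem_from (hT i hi e he)).mp (h2 e he), he⟩
    rw [if_pos this]; ring

/-- disjoint blocks: no block is completely absent -/
lemma gnp_blocks_absent {ι : Type*} (B : Finset ι) (T : ι → Finset (Sym2 (Fin n)))
    (hT : ∀ i ∈ B, ∀ e ∈ T i, ¬ e.IsDiag)
    (hd : ∀ i ∈ B, ∀ j ∈ B, i ≠ j → Disjoint (T i) (T j)) :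
    gnp n p (fun G => ∀ i ∈ B, ¬ ∀ e ∈ T i, e ∉ G.edgeSet)
      = ∏ i ∈ B, (1 - (1 - p) ^ (T i).card) := by
  have hs : ∀ i ∈ B, T i ⊆ eF (⊤ : SimpleGraph (Fin n)) := fun i hi e he =>
    mem_top_eF.mpr (hT i hi e he)
  have h1 : ∀ i ∈ B, exs (T i) p (fun W => 1 + (-1) * (if Disjoint (T i) W then 1 else 0))
      = 1 - (1 - p) ^ (T i).card := by
    intro i _
    rw [exs_add, exs_const, exs_mul_left, exs_dis]; ring
  rw [gnp_eq, ← Finset.prod_congr rfl h1, ← exs_prod B p T _ _ hs hd]
  apply exs_congr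
  intro W _
  by_cases h : ∀ i ∈ B, ¬ ∀ e ∈ T i, e ∉
      (SimpleGraph.fromEdgeSet (W : Set (Sym2 (Fin n)))).edgeSet
  · rw [if_pos h]
    symm
    apply Finset.prod_eq_one
    intro i hi
    have : ¬ Disjoint (T i) (W ∩ T i) := by
      intro h2
      apply h i hi
      intro e he h3
      rw [mem_from (hT i hi e he)] at h3
      exact (Finset.disjoint_left.mp h2) he (Finset.mem_inter.mpr ⟨h3, he⟩)
    rw [if_neg this]; ring
  · rw [if_neg h]
    push Not at h
    obtain ⟨i, hi, h2⟩ := h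
    symm
    apply Finset.prod_eq_zero hi
    have : Disjoint (T i) (W ∩ T i) := by
      rw [Finset.disjoint_left]
      intro e he h3
      exact h2 e he ((mem_from (hT i hi e he)).mpr (Finset.mem_inter.mp h3).1)
    rw [if_pos this]; ring

/-- all edges in `T` are present -/
lemma gnp_present (T : Finset (Sym2 (Fin n))) (hT : ∀ e ∈ T, ¬ e.IsDiag) :
    gnp n p (fun G => ∀ e ∈ T, e ∈ G.edgeSet) = p ^ T.card := by
  have h := gnp_blocks_present (n := n) (p := p) ({()} : Finset Unit) (fun _ => T)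
    (fun _ _ => hT) (fun i _ j _ hij => absurd (Subsingleton.elim i j) hij)
  simp only [Finset.mem_singleton, Finset.prod_singleton, forall_const] at h
  rw [gnp_not] at h
  linarith

/-- all edges in `T` are absent -/
lemma gnp_absent (T : Finset (Sym2 (Fin n))) (hT : ∀ e ∈ T, ¬ e.IsDiag) :
    gnp n p (fun G => ∀ e ∈ T, e ∉ G.edgeSet) = (1 - p) ^ T.card := by
  have h := gnp_blocks_absent (n := n) (p := p) ({()} : Finset Unit) (fun _ => T)
    (fun _ _ => hT) (fun i _ j _ hij => absurd (Subsingleton.elim i j) hij)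
  simp only [Finset.mem_singleton, Finset.prod_singleton, forall_const] at h
  rw [gnp_not] at h
  linarith

end base

end Pool.Agent.TH948.SH
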