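import Pool.Agent.TH948.SH.Base

set_option autoImplicit false

/-!
# Isolated vertices below `log n / n` (written by helper731 for helper948, job 5601)
-/

namespace Pool.Agent.TH948.SH

open Filter Topology Asymptotics
open scoped Classical

lemma C_fin (n k a : ℕ) (p : ℝ) (hp0 : 0 ≤ p) (hp1 : p ≤ 1) (hka : k * a ≤ n) :
    gnp n p (fun G => ¬ ∃ s : Finset (Fin n), s.card = k ∧ ∀ v ∈ s, ∀ w, ¬ G.Adj v w) ≤
      (k : ℝ) * (1 - (1 - p) ^ n) ^ a + ((k : ℝ) * a) ^ 2 * p := by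
  obtain ⟨A, hA⟩ : ∃ A : Finset (Fin n),
      A = Finset.univ.filter (fun v : Fin n => v.val < k * a) := ⟨_, rfl⟩
  obtain ⟨Bl, hBl⟩ : ∃ Bl : ℕ → Finset (Fin n), Bl = fun i =>
      Finset.univ.filter (fun v : Fin n => i * a ≤ v.val ∧ v.val < (i + 1) * a) := ⟨_, rfl⟩
  obtain ⟨T, hT⟩ : ∃ T : Fin n → Finset (Sym2 (Fin n)), T = fun v =>
      (Finset.univ.filter (fun w : Fin n => k * a ≤ w.val)).image (fun w => s(v, w)) := ⟨_, rfl⟩
  have hAm : ∀ v, v ∈ A ↔ v.val < k * a := by intro v; rw [hA]; simp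
  have hBm : ∀ i v, v ∈ Bl i ↔ i * a ≤ v.val ∧ v.val < (i + 1) * a := by
    intro i v; rw [hBl]; simp
  have hTm : ∀ v e, e ∈ T v ↔ ∃ w : Fin n, k * a ≤ w.val ∧ s(v, w) = e := by
    intro v e; rw [hT]; simp
  have hBA : ∀ i < k, ∀ v ∈ Bl i, v.val < k * a := by
    intro i hi v hv
    have h1 := ((hBm i v).1 hv).2
    have h2 : (i + 1) * a ≤ k * a := Nat.mul_le_mul_right a hi
    omega
  obtain ⟨E, hE⟩ : ∃ E : ℕ → SimpleGraph (Fin n) → Prop, E = fun i G =>
      if i = k then ∃ q ∈ (A ×ˢ A).filter (fun q => q.1 ≠ q.2), G.Adj q.1 q.2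
      else ∀ v ∈ Bl i, ¬ ∀ e ∈ T v, e ∉ G.edgeSet := ⟨_, rfl⟩
  have hEk : E k = fun G => ∃ q ∈ (A ×ˢ A).filter (fun q => q.1 ≠ q.2), G.Adj q.1 q.2 := by
    funext G; rw [hE]; simp only [if_true]
  have hEi : ∀ i < k, E i = fun G => ∀ v ∈ Bl i, ¬ ∀ e ∈ T v, e ∉ G.edgeSet := by
    intro i hi
    funext G; rw [hE]; simp only [if_neg (ne_of_lt hi)]
  have h1 : ∀ G : SimpleGraph (Fin n),
      (¬ ∃ s : Finset (Fin n), s.card = k ∧ ∀ v ∈ s, ∀ w, ¬ G.Adj v w) →
      ∃ i ∈ Finset.range (k + 1), E i G := by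
    intro G hG
    by_contra hcon
    apply hG
    have hk : ¬ ∃ q ∈ (A ×ˢ A).filter (fun q => q.1 ≠ q.2), G.Adj q.1 q.2 := by
      intro hq
      exact hcon ⟨k, Finset.mem_range.2 (Nat.lt_succ_self k), by rw [hEk]; exact hq⟩
    have hi : ∀ i : Fin k, ∃ v ∈ Bl i, ∀ e ∈ T v, e ∉ G.edgeSet := by
      intro i
      by_contra hc
      refine hcon ⟨i, Finset.mem_range.2 (Nat.lt_succ_of_lt i.2), ?_⟩
      rw [hEi i i.2]
      intro v hv hall
      exact hc ⟨v, hv, hall⟩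
    choose f hf1 hf2 using hi
    have hinj : Function.Injective f := by
      intro i j hij
      have h3 := (hBm i _).1 (hf1 i)
      have h4 := (hBm j _).1 (hf1 j)
      rw [← hij] at h4
      rcases lt_trichotomy (i : ℕ) (j : ℕ) with hlt | heq | hgt
      · have : ((i : ℕ) + 1) * a ≤ j * a := Nat.mul_le_mul_right a hlt
        omega
      · exact Fin.ext heq
      · have : ((j : ℕ) + 1) * a ≤ i * a := Nat.mul_le_mul_right a hgt
        omega
    refine ⟨Finset.univ.image f, ?_, ?_⟩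
    · rw [Finset.card_image_of_injective _ hinj, Finset.card_univ, Fintype.card_fin]
    · intro v hv w hvw
      obtain ⟨i, -, rfl⟩ := Finset.mem_image.1 hv
      have hvA := hBA i i.2 _ (hf1 i)
      by_cases hw : w.val < k * a
      · exact hk ⟨(f i, w), Finset.mem_filter.2 ⟨Finset.mem_product.2
          ⟨(hAm _).2 hvA, (hAm _).2 hw⟩, hvw.ne⟩, hvw⟩
      · exact hf2 i s(f i, w) ((hTm _ _).2 ⟨w, by omega, rfl⟩)
          ((SimpleGraph.mem_edgeSet G).2 hvw)
  have h2 : gnp n p (fun G => ¬ ∃ s : Finset (Fin n), s.card = k ∧ ∀ v ∈ s, ∀ w, ¬ G.Adj v w) ≤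
      ∑ i ∈ Finset.range (k + 1), gnp n p (E i) :=
    (gnp_imp hp0 hp1 h1).trans (gnp_union hp0 hp1 (Finset.range (k + 1)) E)
  rw [Finset.sum_range_succ] at h2
  have hq0 : 0 ≤ 1 - p := by linarith
  have hq1 : 1 - p ≤ 1 := by linarith
  refine h2.trans (add_le_add ?_ ?_)
  · refine (Finset.sum_le_card_nsmul _ _ ((1 - (1 - p) ^ n) ^ a) fun i hi => ?_).trans (le_of_eq ?_)
    · have hi' := Finset.mem_range.1 hi
      have hc : (Bl i).card = a := by
        have h3 : (Bl i).map Fin.valEmbedding = Finset.Ico (i * a) ((i + 1) * a) := by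
          ext x
          rw [Finset.mem_map, Finset.mem_Ico]
          constructor
          · rintro ⟨v, hv, rfl⟩
            exact (hBm i v).1 hv
          · intro hx
            have h2 : (i + 1) * a ≤ k * a := Nat.mul_le_mul_right a hi'
            exact ⟨⟨x, by omega⟩, (hBm i _).2 hx, rfl⟩
        have h4 := congrArg Finset.card h3
        rw [Finset.card_map, Nat.card_Ico] at h4
        rw [h4, Nat.add_mul, one_mul]
        omega
      rw [hEi i hi', gnp_blocks_absent (Bl i) T ?_ ?_]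
      · calc ∏ v ∈ Bl i, (1 - (1 - p) ^ (T v).card) ≤ ∏ v ∈ Bl i, (1 - (1 - p) ^ n) := by
              apply Finset.prod_le_prod
              · intro v _
                rw [sub_nonneg]
                exact pow_le_one₀ hq0 hq1
              · intro v _
                apply sub_le_sub_left
                apply pow_le_pow_of_le_one hq0 hq1
                rw [hT]
                refine Finset.card_image_le.trans ((Finset.card_filter_le _ _).trans ?_)
                rw [Finset.card_univ, Fintype.card_fin]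
          _ = (1 - (1 - p) ^ n) ^ a := by rw [Finset.prod_const, hc]
      · intro v hv e he
        obtain ⟨w, hw, rfl⟩ := (hTm v e).1 he
        have := hBA i hi' v hv
        rw [Sym2.mk_isDiag_iff]
        rintro rfl
        omega
      · intro u hu v hv huv
        rw [Finset.disjoint_left]
        intro e he he'
        obtain ⟨w, hw, rfl⟩ := (hTm u e).1 he
        obtain ⟨w', hw', h5⟩ := (hTm v _).1 he'
        have h6 := hBA i hi' u hu
        have h7 := hBA i hi' v hv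
        rw [Sym2.eq_iff] at h5
        rcases h5 with ⟨h8, _⟩ | ⟨h8, _⟩
        · exact huv h8.symm
        · rw [h8] at h7
          omega
    · rw [Finset.card_range, nsmul_eq_mul]
  · rw [hEk]
    refine (gnp_union hp0 hp1 _ (fun (q : Fin n × Fin n) G => G.Adj q.1 q.2)).trans ?_
    have h3 : ∀ q ∈ (A ×ˢ A).filter (fun q => q.1 ≠ q.2),
        gnp n p (fun G => G.Adj q.1 q.2) ≤ p := by
      intro q hq
      have h4 := gnp_present (n := n) (p := p) {s(q.1, q.2)} (by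
        intro e he
        rw [Finset.mem_singleton] at he
        rw [he, Sym2.mk_isDiag_iff]
        exact (Finset.mem_filter.1 hq).2)
      rw [Finset.card_singleton, pow_one] at h4
      have h5 : (fun G : SimpleGraph (Fin n) => ∀ e ∈ ({s(q.1, q.2)} : Finset (Sym2 (Fin n))),
          e ∈ G.edgeSet) = fun G => G.Adj q.1 q.2 := by
        funext G
        simp
      rw [h5] at h4
      exact h4.le
    refine (Finset.sum_le_card_nsmul _ _ p h3).trans ?_
    rw [nsmul_eq_mul]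
    apply mul_le_mul_of_nonneg_right _ hp0
    have hcA : A.card ≤ k * a := by
      have h4 : A.map Fin.valEmbedding ⊆ Finset.range (k * a) := by
        intro x hx
        obtain ⟨v, hv, rfl⟩ := Finset.mem_map.1 hx
        exact Finset.mem_range.2 ((hAm v).1 hv)
      have h5 := Finset.card_le_card h4
      rwa [Finset.card_map, Finset.card_range] at h5
    have h6 : ((A ×ˢ A).filter (fun q => q.1 ≠ q.2)).card ≤ (k * a) ^ 2 := by
      refine (Finset.card_filter_le _ _).trans ?_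
      rw [Finset.card_product, sq]
      exact Nat.mul_le_mul hcA hcA
    have h7 : ((((A ×ˢ A).filter (fun q => q.1 ≠ q.2)).card : ℕ) : ℝ) ≤ (((k * a) ^ 2 : ℕ) : ℝ) := by
      exact_mod_cast h6
    refine h7.trans (le_of_eq ?_)
    push_cast
    ring

lemma C_asym1 (p : ℕ → ℝ) (hp : ∀ n, 0 ≤ p n ∧ p n ≤ 1)
    (h : Tendsto (fun n : ℕ => p n * n / Real.log n) atTop (𝓝 0)) :
    Tendsto (fun n : ℕ => (1 - (1 - p n) ^ n) ^ ⌊(n : ℝ) ^ (1 / 3 : ℝ)⌋₊) atTop (𝓝 0) := by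
  have hx : Tendsto (fun n : ℕ => (n : ℝ) ^ (1 / 6 : ℝ)) atTop atTop :=
    (tendsto_rpow_atTop (by norm_num)).comp tendsto_natCast_atTop_atTop
  have hlim : Tendsto (fun n : ℕ => Real.exp (-((n : ℝ) ^ (1 / 6 : ℝ) - 1))) atTop (𝓝 0) := by
    apply Real.tendsto_exp_neg_atTop_nhds_zero.comp
    exact tendsto_atTop_add_const_right _ _ hx
  refine squeeze_zero' (Filter.Eventually.of_forall fun n => ?_) ?_ hlim
  · apply pow_nonneg
    rw [sub_nonneg]
    exact pow_le_one₀ (by linarith [(hp n).2]) (by linarith [(hp n).1])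
  · have h1 : ∀ᶠ n : ℕ in atTop, p n * n / Real.log n < 1 / 12 :=
      h.eventually (gt_mem_nhds (by norm_num))
    filter_upwards [h1, eventually_ge_atTop 3] with n hn hn3
    have hn1 : (3 : ℝ) ≤ n := by exact_mod_cast hn3
    have hn0 : (0 : ℝ) < n := by linarith
    have hlog : 0 < Real.log n := Real.log_pos (by linarith)
    obtain ⟨hp0, hp1⟩ := hp n
    have h2 : p n * n ≤ Real.log n / 12 := by
      rw [div_lt_iff₀ hlog] at hn
      linarith
    have h3 : Real.log n ≤ n := by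
      have := Real.log_le_sub_one_of_pos hn0
      linarith
    have h4 : p n ≤ 1 / 2 := by
      by_contra hcon
      push Not at hcon
      nlinarith
    have h5 : Real.exp (-(2 * p n)) ≤ 1 - p n := by
      rw [Real.exp_neg]
      have h6 : 1 + 2 * p n ≤ Real.exp (2 * p n) := by
        have := Real.add_one_le_exp (2 * p n)
        linarith
      have h7 : (Real.exp (2 * p n))⁻¹ ≤ (1 + 2 * p n)⁻¹ := by
        apply inv_anti₀ (by linarith) h6
      refine h7.trans ?_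
      rw [inv_eq_one_div, div_le_iff₀ (by linarith)]
      nlinarith
    obtain ⟨x, hxd⟩ : ∃ x : ℝ, x = (n : ℝ) ^ (1 / 6 : ℝ) := ⟨_, rfl⟩
    have hx1 : 1 ≤ x := by
      rw [hxd]
      exact Real.one_le_rpow (by linarith) (by norm_num)
    have hx0 : 0 < x := by linarith
    have h8 : x⁻¹ ≤ (1 - p n) ^ n := by
      calc x⁻¹ = Real.exp (-(Real.log n / 6)) := by
            rw [hxd, Real.rpow_def_of_pos hn0, ← Real.exp_neg]
            congr 1
            ring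
        _ ≤ Real.exp (-(2 * p n)) ^ n := by
            rw [← Real.exp_nat_mul]
            apply Real.exp_le_exp.2
            nlinarith
        _ ≤ _ := pow_le_pow_left₀ (Real.exp_pos _).le h5 n
    have h9 : x ^ 2 - 1 ≤ (⌊(n : ℝ) ^ (1 / 3 : ℝ)⌋₊ : ℝ) := by
      have h10 := Nat.lt_floor_add_one ((n : ℝ) ^ (1 / 3 : ℝ))
      have h11 : x ^ 2 = (n : ℝ) ^ (1 / 3 : ℝ) := by
        rw [hxd, ← Real.rpow_natCast, ← Real.rpow_mul hn0.le]
        norm_num
      linarith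
    have h12 : x - 1 ≤ (⌊(n : ℝ) ^ (1 / 3 : ℝ)⌋₊ : ℝ) * (1 - p n) ^ n := by
      calc x - 1 ≤ (x ^ 2 - 1) * x⁻¹ := by
            rw [← div_eq_mul_inv, le_div_iff₀ hx0]
            nlinarith
        _ ≤ (⌊(n : ℝ) ^ (1 / 3 : ℝ)⌋₊ : ℝ) * (1 - p n) ^ n := by
            apply mul_le_mul h9 h8 (by positivity)
            positivity
    have h13 : (0 : ℝ) ≤ 1 - (1 - p n) ^ n := by
      rw [sub_nonneg]
      exact pow_le_one₀ (by linarith) (by linarith)
    calc (1 - (1 - p n) ^ n) ^ ⌊(n : ℝ) ^ (1 / 3 : ℝ)⌋₊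
        ≤ Real.exp (-((1 - p n) ^ n)) ^ ⌊(n : ℝ) ^ (1 / 3 : ℝ)⌋₊ :=
          pow_le_pow_left₀ h13 (Real.one_sub_le_exp_neg _) _
      _ = Real.exp (-((⌊(n : ℝ) ^ (1 / 3 : ℝ)⌋₊ : ℝ) * (1 - p n) ^ n)) := by
          rw [← Real.exp_nat_mul]
          congr 1
          ring
      _ ≤ Real.exp (-((n : ℝ) ^ (1 / 6 : ℝ) - 1)) := by
          apply Real.exp_le_exp.2
          rw [← hxd]
          linarith

lemma C_asym2 (p : ℕ → ℝ) (hp : ∀ n, 0 ≤ p n ∧ p n ≤ 1)
    (h : Tendsto (fun n : ℕ => p n * n / Real.log n) atTop (𝓝 0)) :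
    Tendsto (fun n : ℕ => ((⌊(n : ℝ) ^ (1 / 3 : ℝ)⌋₊ : ℝ)) ^ 2 * p n) atTop (𝓝 0) := by
  have h1 : Tendsto (fun n : ℕ => Real.log n / (n : ℝ) ^ (1 / 3 : ℝ)) atTop (𝓝 0) :=
    ((isLittleO_log_rpow_atTop (by norm_num : (0 : ℝ) < 1 / 3)).tendsto_div_nhds_zero).comp
      tendsto_natCast_atTop_atTop
  have h2 := h.mul h1
  rw [zero_mul] at h2
  refine squeeze_zero' (Filter.Eventually.of_forall fun n => ?_) ?_ h2
  · exact mul_nonneg (by positivity) (hp n).1
  · filter_upwards [eventually_ge_atTop 3] with n hn3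
    have hn1 : (3 : ℝ) ≤ n := by exact_mod_cast hn3
    have hn0 : (0 : ℝ) < n := by linarith
    have hlog : 0 < Real.log n := Real.log_pos (by linarith)
    have hy : 0 < (n : ℝ) ^ (1 / 3 : ℝ) := Real.rpow_pos_of_pos hn0 _
    have hy3 : ((n : ℝ) ^ (1 / 3 : ℝ)) ^ 3 = n := by
      rw [← Real.rpow_natCast, ← Real.rpow_mul hn0.le]
      norm_num
    have h3 : (⌊(n : ℝ) ^ (1 / 3 : ℝ)⌋₊ : ℝ) ≤ (n : ℝ) ^ (1 / 3 : ℝ) := Nat.floor_le hy.le
    calc (⌊(n : ℝ) ^ (1 / 3 : ℝ)⌋₊ : ℝ) ^ 2 * p n ≤ ((n : ℝ) ^ (1 / 3 : ℝ)) ^ 2 * p n := by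
          apply mul_le_mul_of_nonneg_right _ (hp n).1
          exact pow_le_pow_left₀ (by positivity) h3 2
      _ = p n * ((n : ℝ) ^ (1 / 3 : ℝ)) ^ 3 / Real.log n *
            (Real.log n / (n : ℝ) ^ (1 / 3 : ℝ)) := by
          field_simp
      _ = p n * n / Real.log n * (Real.log n / (n : ℝ) ^ (1 / 3 : ℝ)) := by rw [hy3]

/-- below `log n / n` there are many isolated vertices -/
lemma isolated_whp (k : ℕ) (p : ℕ → ℝ) (hp : ∀ n, 0 ≤ p n ∧ p n ≤ 1)
    (h : Tendsto (fun n : ℕ => p n * n / Real.log n) atTop (𝓝 0)) :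
    Tendsto (fun n => gnp n (p n) (fun G => ∃ s : Finset (Fin n), s.card = k ∧
      ∀ v ∈ s, ∀ w, ¬ G.Adj v w)) atTop (𝓝 1) := by
  have h1 : Tendsto (fun n : ℕ => (k : ℝ) * (1 - (1 - p n) ^ n) ^ ⌊(n : ℝ) ^ (1 / 3 : ℝ)⌋₊ +
      ((k : ℝ) * (⌊(n : ℝ) ^ (1 / 3 : ℝ)⌋₊ : ℕ)) ^ 2 * p n) atTop (𝓝 0) := by
    have h2 := ((C_asym1 p hp h).const_mul (k : ℝ)).add ((C_asym2 p hp h).const_mul ((k : ℝ) ^ 2))
    rw [mul_zero, mul_zero, add_zero] at h2
    refine h2.congr fun n => ?_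
    ring
  have h3 : Tendsto (fun n : ℕ => 1 - ((k : ℝ) * (1 - (1 - p n) ^ n) ^ ⌊(n : ℝ) ^ (1 / 3 : ℝ)⌋₊ +
      ((k : ℝ) * (⌊(n : ℝ) ^ (1 / 3 : ℝ)⌋₊ : ℕ)) ^ 2 * p n)) atTop (𝓝 1) := by
    have := h1.const_sub 1
    rwa [sub_zero] at this
  have hk : ∀ᶠ n : ℕ in atTop, k * ⌊(n : ℝ) ^ (1 / 3 : ℝ)⌋₊ ≤ n := by
    have hx : Tendsto (fun n : ℕ => (n : ℝ) ^ (2 / 3 : ℝ)) atTop atTop :=
      (tendsto_rpow_atTop (by norm_num)).comp tendsto_natCast_atTop_atTop
    filter_upwards [hx.eventually_ge_atTop (k : ℝ), eventually_ge_atTop 1] with n hn hn1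
    have hn0 : (0 : ℝ) < n := by exact_mod_cast hn1
    have hy : 0 < (n : ℝ) ^ (1 / 3 : ℝ) := Real.rpow_pos_of_pos hn0 _
    have h4 : (⌊(n : ℝ) ^ (1 / 3 : ℝ)⌋₊ : ℝ) ≤ (n : ℝ) ^ (1 / 3 : ℝ) := Nat.floor_le hy.le
    have h5 : (n : ℝ) ^ (2 / 3 : ℝ) * (n : ℝ) ^ (1 / 3 : ℝ) = n := by
      rw [← Real.rpow_add hn0]
      norm_num
    have h6 : (k : ℝ) * ⌊(n : ℝ) ^ (1 / 3 : ℝ)⌋₊ ≤ n := by
      calc (k : ℝ) * ⌊(n : ℝ) ^ (1 / 3 : ℝ)⌋₊ ≤ (n : ℝ) ^ (2 / 3 : ℝ) * (n : ℝ) ^ (1 / 3 : ℝ) :=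
            mul_le_mul hn h4 (by positivity) (by positivity)
        _ = n := h5
    exact_mod_cast h6
  refine tendsto_of_tendsto_of_tendsto_of_le_of_le' h3 tendsto_const_nhds ?_ ?_
  · filter_upwards [hk] with n hn
    have h4 := C_fin n k _ (p n) (hp n).1 (hp n).2 hn
    rw [gnp_not] at h4
    linarith
  · exact Filter.Eventually.of_forall fun n => gnp_le_one (hp n).1 (hp n).2 _

end Pool.Agent.TH948.SH
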