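import Pool.Agent.TH948.SH.Base

set_option autoImplicit false

/-!
# Exposure of the edges at a set of vertices: definitions
-/

namespace Pool.Agent.TH948.SH

open scoped Classical

/-- the vertices outside `C` with a neighbour in `C` -/
noncomputable def outN {n : ℕ} (G : SimpleGraph (Fin n)) (C : Finset (Fin n)) : Finset (Fin n) :=
  Finset.univ.filter (fun w => w ∉ C ∧ ∃ u ∈ C, G.Adj u w)

/-- the edges of `G` with an end in `A` -/
def meet {n : ℕ} (A : Finset (Fin n)) (G : SimpleGraph (Fin n)) : SimpleGraph (Fin n) where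
  Adj u v := G.Adj u v ∧ (u ∈ A ∨ v ∈ A)
  symm := ⟨fun _ _ h => ⟨h.1.symm, h.2.symm⟩⟩
  loopless := ⟨fun _ h => G.loopless.irrefl _ h.1⟩

/-- the edges of `G` with no end in `A` -/
def off {n : ℕ} (A : Finset (Fin n)) (G : SimpleGraph (Fin n)) : SimpleGraph (Fin n) where
  Adj u v := G.Adj u v ∧ u ∉ A ∧ v ∉ A
  symm := ⟨fun _ _ h => ⟨h.1.symm, h.2.2, h.2.1⟩⟩
  loopless := ⟨fun _ h => G.loopless.irrefl _ h.1⟩

end Pool.Agent.TH948.SH
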