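import Pool.Agent.TH948.SH.Lim
import Pool.Agent.TH948.SH.Defs2

set_option autoImplicit false

/-!
# Every small set has a common neighbour
-/

namespace Pool.Agent.TH948.SH

open Filter Topology Asymptotics
open scoped Classical

private lemma H2_card (n k : ℕ) :
    (Finset.univ.filter (fun U : Finset (Fin n) => U.card ≤ k)).card ≤ (n + 1) ^ k := by
  have h1 : (Finset.univ.filter (fun U : Finset (Fin n) => U.card ≤ k)) ⊆
      (Finset.univ : Finset (Fin k → Option (Fin n))).image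
        (fun f => Finset.univ.filter (fun u => ∃ i, f i = some u)) := by
    intro U hU
    rw [Finset.mem_filter] at hU
    rw [Finset.mem_image]
    refine ⟨fun i => U.toList[i.val]?, Finset.mem_univ _, ?_⟩
    ext u
    rw [Finset.mem_filter]
    constructor
    · rintro ⟨-, i, hi⟩
      rw [← Finset.mem_toList]
      exact List.mem_of_getElem? hi
    · intro hu
      refine ⟨Finset.mem_univ _, ?_⟩
      rw [← Finset.mem_toList, List.mem_iff_getElem?] at hu
      obtain ⟨i, hi⟩ := hu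
      have hl : i < U.toList.length := by
        rw [List.getElem?_eq_some_iff] at hi
        exact hi.1
      rw [Finset.length_toList] at hl
      exact ⟨⟨i, lt_of_lt_of_le hl hU.2⟩, hi⟩
  refine (Finset.card_le_card h1).trans (Finset.card_image_le.trans ?_)
  rw [Finset.card_univ, Fintype.card_fun, Fintype.card_option, Fintype.card_fin, Fintype.card_fin]

private lemma H2_one {n : ℕ} {q : ℝ} (hq0 : 0 ≤ q) (hq1 : q ≤ 1) (k : ℕ)
    (U : Finset (Fin n)) (hU : U.card ≤ k) :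
    gnp n q (fun G => ∀ w ∈ Finset.univ \ U, ¬ ∀ e ∈ U.image (fun u => s(u, w)), e ∈ G.edgeSet) ≤
      (1 - q ^ k) ^ (n - k) := by
  have hqk0 : 0 ≤ q ^ k := pow_nonneg hq0 k
  have hqk1 : q ^ k ≤ 1 := pow_le_one₀ hq0 hq1
  rw [gnp_blocks_present]
  · calc ∏ w ∈ Finset.univ \ U, (1 - q ^ (U.image (fun u => s(u, w))).card)
        ≤ ∏ _w ∈ Finset.univ \ U, (1 - q ^ k) := by
          refine Finset.prod_le_prod (fun w _ => ?_) (fun w _ => ?_)
          · exact sub_nonneg.2 (pow_le_one₀ hq0 hq1)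
          · exact sub_le_sub_left (pow_le_pow_of_le_one hq0 hq1
              (Finset.card_image_le.trans hU)) 1
      _ = (1 - q ^ k) ^ (n - U.card) := by
          rw [Finset.prod_const, Finset.card_univ_sdiff, Fintype.card_fin]
      _ ≤ (1 - q ^ k) ^ (n - k) :=
          pow_le_pow_of_le_one (by linarith) (by linarith) (by omega)
  · intro w hw e he
    rw [Finset.mem_image] at he
    obtain ⟨u, hu, rfl⟩ := he
    rw [Sym2.mk_isDiag_iff]
    rintro rfl
    exact (Finset.mem_sdiff.1 hw).2 hu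
  · intro w hw w' hw' hne
    rw [Finset.disjoint_left]
    intro e he he'
    rw [Finset.mem_image] at he he'
    obtain ⟨u, hu, rfl⟩ := he
    obtain ⟨u', hu', h⟩ := he'
    rw [Sym2.eq_iff] at h
    rcases h with ⟨-, h⟩ | ⟨h1, -⟩
    · exact hne h.symm
    · subst h1
      exact (Finset.mem_sdiff.1 hw).2 hu'

private lemma H2_bound {n : ℕ} {q : ℝ} (hq0 : 0 ≤ q) (hq1 : q ≤ 1) (k : ℕ) :
    gnp n q (fun G => ∃ U : Finset (Fin n), U.card ≤ k ∧ ∀ w, ∃ u ∈ U, ¬ G.Adj u w) ≤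
      ((n : ℝ) + 1) ^ k * (1 - q ^ k) ^ (n - k) := by
  have hqk0 : 0 ≤ q ^ k := pow_nonneg hq0 k
  have hqk1 : q ^ k ≤ 1 := pow_le_one₀ hq0 hq1
  have h1 := gnp_imp hq0 hq1 (P := fun G => ∃ U : Finset (Fin n), U.card ≤ k ∧
      ∀ w, ∃ u ∈ U, ¬ G.Adj u w)
    (Q := fun G => ∃ U ∈ Finset.univ.filter (fun U : Finset (Fin n) => U.card ≤ k),
      ∀ w ∈ Finset.univ \ U, ¬ ∀ e ∈ U.image (fun u => s(u, w)), e ∈ G.edgeSet) (by
    rintro G ⟨U, hU, h⟩
    refine ⟨U, Finset.mem_filter.2 ⟨Finset.mem_univ _, hU⟩, fun w _ h2 => ?_⟩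
    obtain ⟨u, hu, h3⟩ := h w
    exact h3 ((SimpleGraph.mem_edgeSet G).1 (h2 _ (Finset.mem_image_of_mem _ hu))))
  refine h1.trans ((gnp_union hq0 hq1 _ _).trans ?_)
  have h2 := Finset.sum_le_card_nsmul (Finset.univ.filter (fun U : Finset (Fin n) => U.card ≤ k))
    (fun U => gnp n q (fun G => ∀ w ∈ Finset.univ \ U,
      ¬ ∀ e ∈ U.image (fun u => s(u, w)), e ∈ G.edgeSet)) ((1 - q ^ k) ^ (n - k))
    (fun U hU => H2_one hq0 hq1 k U (Finset.mem_filter.1 hU).2)
  refine h2.trans ?_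
  rw [nsmul_eq_mul]
  refine mul_le_mul_of_nonneg_right ?_ (pow_nonneg (by linarith) _)
  exact_mod_cast H2_card n k

lemma common_nonempty (k : ℕ) (p : ℕ → ℝ) (hp : ∀ n, 0 ≤ p n ∧ p n ≤ 1)
    (h : Tendsto (fun n : ℕ => (p n) ^ k * n / Real.log n) atTop atTop) :
    Tendsto (fun n => gnp n (p n) (fun G => ∃ U : Finset (Fin n), U.card ≤ k ∧
      ∀ w, ∃ u ∈ U, ¬ G.Adj u w)) atTop (𝓝 0) := by
  have hlim : Tendsto (fun n : ℕ => ((n : ℝ))⁻¹) atTop (𝓝 0) :=
    tendsto_inv_atTop_zero.comp tendsto_natCast_atTop_atTop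
  refine tendsto_of_tendsto_of_tendsto_of_le_of_le' tendsto_const_nhds hlim
    (Eventually.of_forall fun n => gnp_nonneg (hp n).1 (hp n).2 _) ?_
  filter_upwards [h.eventually_ge_atTop (4 * k + 2), eventually_ge_atTop (2 * k),
    eventually_ge_atTop 2] with n h1 h2 h3
  refine (H2_bound (hp n).1 (hp n).2 k).trans ?_
  set q := p n with hq
  have hq0 : 0 ≤ q := (hp n).1
  have hq1 : q ≤ 1 := (hp n).2
  have hqk0 : 0 ≤ q ^ k := pow_nonneg hq0 k
  have hqk1 : q ^ k ≤ 1 := pow_le_one₀ hq0 hq1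
  have hn2 : (2 : ℝ) ≤ n := by exact_mod_cast h3
  have hn0 : (0 : ℝ) < n := by linarith
  have hL : 0 < Real.log n := Real.log_pos (by linarith)
  rw [le_div_iff₀ hL] at h1
  have e1 : ((n : ℝ) + 1) ^ k ≤ Real.exp (2 * k * Real.log n) := by
    have e2 : (n : ℝ) + 1 ≤ Real.exp (2 * Real.log n) := by
      have : Real.exp (2 * Real.log n) = (n : ℝ) ^ 2 := by
        rw [two_mul, Real.exp_add, Real.exp_log hn0]
        ring
      rw [this]
      nlinarith
    calc ((n : ℝ) + 1) ^ k ≤ (Real.exp (2 * Real.log n)) ^ k :=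
          pow_le_pow_left₀ (by linarith) e2 k
      _ = Real.exp (2 * k * Real.log n) := by
          rw [← Real.exp_nat_mul]
          congr 1
          ring
  have hkn : k ≤ n := by omega
  have e3 : (1 - q ^ k) ^ (n - k) ≤ Real.exp (-((2 * k + 1) * Real.log n)) := by
    calc (1 - q ^ k) ^ (n - k) ≤ (Real.exp (-q ^ k)) ^ (n - k) :=
          pow_le_pow_left₀ (by linarith) (by
            have := Real.add_one_le_exp (-q ^ k)
            linarith) _
      _ = Real.exp (((n - k : ℕ) : ℝ) * (-q ^ k)) := by rw [← Real.exp_nat_mul]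
      _ ≤ Real.exp (-((2 * k + 1) * Real.log n)) := by
          rw [Real.exp_le_exp, Nat.cast_sub hkn]
          have h4 : (2 : ℝ) * k ≤ n := by exact_mod_cast h2
          nlinarith
  have e4 : 0 ≤ (1 - q ^ k) ^ (n - k) := pow_nonneg (by linarith) _
  calc ((n : ℝ) + 1) ^ k * (1 - q ^ k) ^ (n - k)
      ≤ Real.exp (2 * k * Real.log n) * Real.exp (-((2 * k + 1) * Real.log n)) :=
        mul_le_mul e1 e3 e4 (Real.exp_pos _).le
    _ = ((n : ℝ))⁻¹ := by
        rw [← Real.exp_add, ← Real.exp_log hn0, ← Real.exp_neg, Real.log_exp]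
        congr 1
        ring

end Pool.Agent.TH948.SH
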