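import Pool.Agent.TH948.SH.Defs

set_option autoImplicit false

/-!
# A surjective homomorphism from a set without common neighbours
-/

namespace Pool.Agent.TH948.SH

open scoped Classical

lemma onto_of_common {V : Type} [Fintype V] {R : V → V → Prop} (hR : ∀ x y, R x y → R y x)
    (Y : Finset V) (κ : V → V) (h1 : ∀ y ∈ Y, κ y ∉ Y) (h2 : ∀ y ∈ Y, ∀ x, x ≠ y → R (κ y) x)
    {n : ℕ} {G : SimpleGraph (Fin n)} (W U : Finset (Fin n)) (hUW : U ⊆ W)
    (hU : U.card = Y.card) (hW : W.card = Fintype.card V)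
    (hind : ∀ v ∈ W, ∀ w ∈ W, ¬ G.Adj v w) (hcom : ∀ w, ∃ u ∈ U, ¬ G.Adj u w) : Onto R G := by
  have hc : (W \ U).card = Yᶜ.card := by
    rw [Finset.card_sdiff_of_subset hUW, Finset.card_compl, hU, hW]
  let e1 := Finset.equivOfCardEq hU
  let e2 := Finset.equivOfCardEq hc
  choose g hg1 hg2 using hcom
  let f : Fin n → V := fun w => if h : w ∈ U then (e1 ⟨w, h⟩ : V) else
    if h' : w ∈ W then (e2 ⟨w, Finset.mem_sdiff.mpr ⟨h', h⟩⟩ : V) else κ (e1 ⟨g w, hg1 w⟩ : V)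
  have fU : ∀ w (h : w ∈ U), f w = (e1 ⟨w, h⟩ : V) := fun w h => dif_pos h
  have fW : ∀ w (h : w ∉ U) (h' : w ∈ W), f w = (e2 ⟨w, Finset.mem_sdiff.mpr ⟨h', h⟩⟩ : V) :=
    fun w h h' => by
      show (if h : w ∈ U then (e1 ⟨w, h⟩ : V) else _) = _
      rw [dif_neg h, dif_pos h']
  have fO : ∀ w, w ∉ W → f w = κ (e1 ⟨g w, hg1 w⟩ : V) := fun w h' => by
    show (if h : w ∈ U then (e1 ⟨w, h⟩ : V) else _) = _
    rw [dif_neg (fun h => h' (hUW h)), dif_neg h']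
  have key : ∀ u v, v ∉ W → G.Adj u v → R (f v) (f u) := by
    intro u v hv huv
    rw [fO v hv]
    apply h2 _ (e1 ⟨g v, hg1 v⟩).2
    by_cases hu : u ∈ U
    · rw [fU u hu]
      intro h
      have h3 := e1.injective (Subtype.ext h)
      have h4 : u = g v := congrArg Subtype.val h3
      exact hg2 v (h4 ▸ huv)
    · by_cases hu' : u ∈ W
      · rw [fW u hu hu']
        intro h
        have h3 := (e2 ⟨u, Finset.mem_sdiff.mpr ⟨hu', hu⟩⟩).2
        rw [h] at h3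
        exact (Finset.mem_compl.mp h3) (e1 ⟨g v, hg1 v⟩).2
      · rw [fO u hu']
        intro h
        have h3 := h1 _ (e1 ⟨g u, hg1 u⟩).2
        rw [h] at h3
        exact h3 (e1 ⟨g v, hg1 v⟩).2
  refine ⟨f, ?_, ?_⟩
  · intro y
    by_cases hy : y ∈ Y
    · refine ⟨(e1.symm ⟨y, hy⟩ : Fin n), ?_⟩
      rw [fU _ (e1.symm ⟨y, hy⟩).2]
      have : (⟨(e1.symm ⟨y, hy⟩ : Fin n), (e1.symm ⟨y, hy⟩).2⟩ : {x // x ∈ U}) = e1.symm ⟨y, hy⟩ := rfl
      rw [this, Equiv.apply_symm_apply]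
    · have hy' : y ∈ Yᶜ := Finset.mem_compl.mpr hy
      have h3 := Finset.mem_sdiff.mp (e2.symm ⟨y, hy'⟩).2
      refine ⟨(e2.symm ⟨y, hy'⟩ : Fin n), ?_⟩
      rw [fW _ h3.2 h3.1]
      have : (⟨(e2.symm ⟨y, hy'⟩ : Fin n), Finset.mem_sdiff.mpr ⟨h3.1, h3.2⟩⟩ : {x // x ∈ W \ U})
        = e2.symm ⟨y, hy'⟩ := rfl
      rw [this, Equiv.apply_symm_apply]
  · intro u v huv
    by_cases hv : v ∈ W
    · by_cases hu : u ∈ W
      · exact absurd huv (hind u hu v hv)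
      · exact key v u hu huv.symm
    · exact hR _ _ (key u v hv huv)

end Pool.Agent.TH948.SH
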