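import Pool.Agent.TH948.SH.Lim
import Pool.Agent.TH948.SH.H2
import Pool.Agent.TH948.SH.I
import Pool.Agent.TH948.SH.J

set_option autoImplicit false
set_option linter.unusedSectionVars false

/-!
# Thresholds `(log n / n)^(1/t)`
-/

namespace Pool.Agent.TH948.SH

open Filter Topology Asymptotics
open scoped Classical

variable {V : Type} [Fintype V] {R : V → V → Prop}

lemma common_of_onto' {Y : Finset V} (hY : ∀ x, ∃ y ∈ Y, ¬ R y x)
    {n : ℕ} {G : SimpleGraph (Fin n)} (h : Onto R G) :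
    ∃ U : Finset (Fin n), U.card ≤ Y.card ∧ ∀ w, ∃ u ∈ U, ¬ G.Adj u w := by
  obtain ⟨f, hf, hh⟩ := h
  choose v hv using hf
  refine ⟨Y.image v, Finset.card_image_le, fun w => ?_⟩
  obtain ⟨y, hy, hyw⟩ := hY (f w)
  refine ⟨v y, Finset.mem_image_of_mem _ hy, fun hadj => ?_⟩
  have h1 := hh _ _ hadj
  rw [hv] at h1
  exact hyw h1

lemma pow_eq (t : ℕ) (ht : 1 ≤ t) (p : ℕ → ℝ) : ∀ᶠ n : ℕ in atTop,
    (p n / (Real.log n / (n : ℝ)) ^ (1 / (t : ℝ))) ^ t = (p n) ^ t * n / Real.log n := by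
  filter_upwards [eventually_ge_atTop 2] with n hn
  have h2 : (2 : ℝ) ≤ n := by exact_mod_cast hn
  have h3 : 0 < Real.log n / (n : ℝ) := div_pos (Real.log_pos (by linarith)) (by positivity)
  rw [div_pow, ← Real.rpow_natCast ((Real.log n / (n : ℝ)) ^ (1 / (t : ℝ))) t,
    ← Real.rpow_mul h3.le, one_div_mul_cancel (by positivity), Real.rpow_one,
    div_div_eq_mul_div]

/-- the upper bound -/
theorem common_upper {Y : Finset V} (hYc : 1 ≤ Y.card) (hY : ∀ x, ∃ y ∈ Y, ¬ R y x)
    (p : ℕ → ℝ) (hp : ∀ n, 0 ≤ p n ∧ p n ≤ 1)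
    (h : (fun n : ℕ => (Real.log n / (n : ℝ)) ^ (1 / (Y.card : ℝ))) =o[atTop] p) :
    Tendsto (fun n => gnp n (p n) (fun G => Onto R G)) atTop (𝓝 0) := by
  have h0 : ∀ᶠ n : ℕ in atTop, 0 < (Real.log n / (n : ℝ)) ^ (1 / (Y.card : ℝ)) := by
    filter_upwards [eventually_ge_atTop 2] with n hn
    have h2 : (2 : ℝ) ≤ n := by exact_mod_cast hn
    exact Real.rpow_pos_of_pos (div_pos (Real.log_pos (by linarith)) (by positivity)) _
  have h1 := (tendsto_pow_atTop (α := ℝ) (n := Y.card) (by omega)).comp (div_atTop_of_o hp h0 h)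
  have h2 := h1.congr' (pow_eq Y.card hYc p)
  refine tendsto_zero_of_imp hp (common_nonempty Y.card p hp h2) ?_
  filter_upwards with n G hG
  exact common_of_onto' hY hG

theorem common_threshold (hR : ∀ x y, R x y → R y x) {Y : Finset V} (hYc : 1 ≤ Y.card)
    (hY : ∀ x, ∃ y ∈ Y, ¬ R y x) {κ : V → V} (h1 : ∀ y ∈ Y, κ y ∉ Y)
    (h2 : ∀ y ∈ Y, ∀ x, x ≠ y → R (κ y) x) :
    IsThreshold (fun _ G => Onto R G)
      (fun n => (Real.log n / (n : ℝ)) ^ (1 / (Y.card : ℝ))) := by
  intro p hp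
  refine ⟨fun h => ?_, common_upper hYc hY p hp⟩
  have h3 := h.tendsto_div_nhds_zero.pow Y.card
  rw [zero_pow (by omega)] at h3
  have h4 := h3.congr' (pow_eq Y.card hYc p)
  refine tendsto_one_of_imp hp (sparse_common Y.card (Fintype.card V) hYc
    (Finset.card_le_univ _) p hp h4) ?_
  filter_upwards with n G hG
  obtain ⟨W, U, h5, h6, h7, h8, h9⟩ := hG
  exact onto_of_common hR Y κ h1 h2 W U h5 h6 h7 h8 h9

/-- for every `t` the value `(log n / n)^(1/t)` is a threshold -/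
theorem exists_target (t : ℕ) (ht : 1 ≤ t) : ∃ R : Fin t × Bool → Fin t × Bool → Prop,
    (∀ x y, R x y → R y x) ∧ IsThreshold (fun _ G => Onto R G)
      (fun n => (Real.log n / (n : ℝ)) ^ (1 / (t : ℝ))) := by
  refine ⟨fun x y => (x.2 = true ∧ y.2 = true) ∨ (x.2 ≠ y.2 ∧ x.1 ≠ y.1), ?_, ?_⟩
  · rintro x y (⟨h1, h2⟩ | ⟨h1, h2⟩)
    · exact Or.inl ⟨h2, h1⟩
    · exact Or.inr ⟨h1.symm, h2.symm⟩
  · set Y : Finset (Fin t × Bool) := Finset.univ.image (fun i : Fin t => (i, false)) with hYdef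
    have hcard : Y.card = t := by
      rw [hYdef, Finset.card_image_of_injective _ (fun a b h => (Prod.ext_iff.mp h).1)]
      simp
    have hmem : ∀ z : Fin t × Bool, z ∈ Y ↔ z.2 = false := by
      intro z
      rw [hYdef, Finset.mem_image]
      constructor
      · rintro ⟨i, _, rfl⟩; rfl
      · intro h
        exact ⟨z.1, Finset.mem_univ _, Prod.ext rfl h.symm⟩
    have h := common_threshold (V := Fin t × Bool)
      (R := fun x y => (x.2 = true ∧ y.2 = true) ∨ (x.2 ≠ y.2 ∧ x.1 ≠ y.1))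
      (by
        rintro x y (⟨h1, h2⟩ | ⟨h1, h2⟩)
        · exact Or.inl ⟨h2, h1⟩
        · exact Or.inr ⟨h1.symm, h2.symm⟩)
      (Y := Y) (by omega)
      (by
        intro x
        refine ⟨(x.1, false), (hmem _).mpr rfl, ?_⟩
        rintro (⟨h1, _⟩ | ⟨_, h2⟩)
        · exact absurd h1 (by simp)
        · exact h2 rfl)
      (κ := fun y => (y.1, true))
      (by
        intro y _ h
        have := (hmem _).mp h
        simp at this)
      (by
        intro y hy x hx
        have hy' := (hmem y).mp hy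
        by_cases hx2 : x.2 = true
        · exact Or.inl ⟨rfl, hx2⟩
        · right
          have hx2' : x.2 = false := by simpa using hx2
          refine ⟨?_, ?_⟩
          · show true ≠ x.2
            rw [hx2']; simp
          · intro h
            apply hx
            exact Prod.ext h.symm (by rw [hx2', hy']))
    rwa [hcard] at h

end Pool.Agent.TH948.SH
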