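import Pool.Agent.TH948.SH.Expo

set_option autoImplicit false

/-!
# The outer neighbourhood of a set is rarely independent (helper150)
-/

namespace Pool.Agent.TH948.SH

open Filter Topology Asymptotics
open scoped Classical

private lemma k2_outN {n : ℕ} (G : SimpleGraph (Fin n)) (C : Finset (Fin n)) :
    outN (meet C G) C = outN G C := by
  ext w
  simp only [outN, Finset.mem_filter, Finset.mem_univ, true_and]
  constructor
  · rintro ⟨hw, u, hu, h⟩
    exact ⟨hw, u, hu, h.1⟩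
  · rintro ⟨hw, u, hu, h⟩
    exact ⟨hw, u, hu, h, Or.inl hu⟩

private lemma k2_fixed {n : ℕ} {p : ℝ} (hp0 : 0 ≤ p) (hp1 : p ≤ 1) (D : Finset (Fin n)) (m : ℕ)
    (hm : m ≤ D.card) :
    gnp n p (fun G => ∀ x ∈ D, ∀ y ∈ D, ¬ G.Adj x y) ≤ (1 - p) ^ (m.choose 2) := by
  have hT : ∀ e ∈ (D.sym2.filter fun e => ¬ e.IsDiag), ¬ e.IsDiag := by
    intro e he
    exact (Finset.mem_filter.mp he).2
  have hcard : (D.sym2.filter fun e => ¬ e.IsDiag).card = D.card.choose 2 := by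
    have h1 := Sym2.card_image_offDiag D
    rw [← h1]
    congr 1
    ext e
    simp only [Finset.mem_filter, Finset.mem_image, Finset.mem_offDiag]
    induction e using Sym2.ind with
    | _ a b =>
      simp only [Finset.mk_mem_sym2_iff, Sym2.mk_isDiag_iff]
      constructor
      · rintro ⟨⟨ha, hb⟩, hab⟩
        exact ⟨(a, b), ⟨ha, hb, hab⟩, rfl⟩
      · rintro ⟨⟨c, d⟩, ⟨hc, hd, hcd⟩, he⟩
        rcases Sym2.eq_iff.1 he with ⟨rfl, rfl⟩ | ⟨rfl, rfl⟩
        · exact ⟨⟨hc, hd⟩, hcd⟩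
        · exact ⟨⟨hd, hc⟩, fun h => hcd h.symm⟩
  have h2 := gnp_absent (n := n) (p := p) (D.sym2.filter fun e => ¬ e.IsDiag) hT
  rw [hcard] at h2
  have h3 : gnp n p (fun G => ∀ x ∈ D, ∀ y ∈ D, ¬ G.Adj x y) ≤ (1 - p) ^ (D.card.choose 2) := by
    rw [← h2]
    apply gnp_imp hp0 hp1
    intro G hG e he
    induction e using Sym2.ind with
    | _ a b =>
      rw [Finset.mem_filter, Finset.mk_mem_sym2_iff] at he
      rw [SimpleGraph.mem_edgeSet]
      exact hG a he.1.1 b he.1.2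
  refine h3.trans (pow_le_pow_of_le_one (by linarith) (by linarith) ?_)
  exact Nat.choose_le_choose 2 hm

lemma outN_indep {n : ℕ} {p : ℝ} (hp0 : 0 ≤ p) (hp1 : p ≤ 1) (C : Finset (Fin n)) (m : ℕ) :
    gnp n p (fun G => m ≤ (outN G C).card ∧ ∀ x ∈ outN G C, ∀ y ∈ outN G C, ¬ G.Adj x y)
      ≤ (1 - p) ^ (m.choose 2) := by
  have h := exposure hp0 hp1 C ((1 - p) ^ (m.choose 2))
    (fun H X => m ≤ (outN H C).card ∧ ∀ x ∈ outN H C, ∀ y ∈ outN H C, ¬ X.Adj x y) ?_
  · refine le_trans (gnp_imp hp0 hp1 ?_) h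
    rintro G ⟨h1, h2⟩
    rw [k2_outN]
    refine ⟨h1, fun x hx y hy hxy => h2 x hx y hy hxy.1⟩
  · intro H
    by_cases hm : m ≤ (outN H C).card
    · refine le_trans (gnp_imp hp0 hp1 ?_) (k2_fixed hp0 hp1 (outN H C) m hm)
      rintro G ⟨_, h2⟩ x hx y hy hxy
      refine h2 x hx y hy ⟨hxy, ?_, ?_⟩
      · exact (Finset.mem_filter.mp hx).2.1
      · exact (Finset.mem_filter.mp hy).2.1
    · have : gnp n p (fun G => m ≤ (outN H C).card ∧
          ∀ x ∈ outN H C, ∀ y ∈ outN H C, ¬ (off C G).Adj x y) = 0 := by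
        unfold gnp
        apply Finset.sum_eq_zero
        intro G _
        rw [if_neg (fun h => hm h.1)]
      rw [this]
      exact pow_nonneg (by linarith) _

end Pool.Agent.TH948.SH
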