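import Pool.Agent.TH948.SH.Base

set_option autoImplicit false
set_option linter.unusedSectionVars false

/-!
# Limits of probabilities
-/

namespace Pool.Agent.TH948.SH

open Filter Topology Asymptotics
open scoped Classical

variable {p : ℕ → ℝ}

lemma tendsto_one_of_imp (hp : ∀ n, 0 ≤ p n ∧ p n ≤ 1)
    {P Q : ∀ n : ℕ, SimpleGraph (Fin n) → Prop}
    (hP : Tendsto (fun n => gnp n (p n) (P n)) atTop (𝓝 1))
    (h : ∀ᶠ n in atTop, ∀ G, P n G → Q n G) :
    Tendsto (fun n => gnp n (p n) (Q n)) atTop (𝓝 1) := by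
  refine tendsto_of_tendsto_of_tendsto_of_le_of_le' hP tendsto_const_nhds ?_ ?_
  · filter_upwards [h] with n hn
    exact gnp_imp (hp n).1 (hp n).2 hn
  · exact Eventually.of_forall (fun n => gnp_le_one (hp n).1 (hp n).2 _)

lemma tendsto_zero_of_imp (hp : ∀ n, 0 ≤ p n ∧ p n ≤ 1)
    {P Q : ∀ n : ℕ, SimpleGraph (Fin n) → Prop}
    (hP : Tendsto (fun n => gnp n (p n) (P n)) atTop (𝓝 0))
    (h : ∀ᶠ n in atTop, ∀ G, Q n G → P n G) :
    Tendsto (fun n => gnp n (p n) (Q n)) atTop (𝓝 0) := by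
  refine tendsto_of_tendsto_of_tendsto_of_le_of_le' tendsto_const_nhds hP ?_ ?_
  · exact Eventually.of_forall (fun n => gnp_nonneg (hp n).1 (hp n).2 _)
  · filter_upwards [h] with n hn
    exact gnp_imp (hp n).1 (hp n).2 hn

lemma tendsto_not {P : ∀ n : ℕ, SimpleGraph (Fin n) → Prop}
    (hP : Tendsto (fun n => gnp n (p n) (P n)) atTop (𝓝 1)) :
    Tendsto (fun n => gnp n (p n) (fun G => ¬ P n G)) atTop (𝓝 0) := by
  simp only [gnp_not]
  have := hP.const_sub 1
  rwa [sub_self] at this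

lemma tendsto_not' {P : ∀ n : ℕ, SimpleGraph (Fin n) → Prop}
    (hP : Tendsto (fun n => gnp n (p n) (P n)) atTop (𝓝 0)) :
    Tendsto (fun n => gnp n (p n) (fun G => ¬ P n G)) atTop (𝓝 1) := by
  simp only [gnp_not]
  have := hP.const_sub 1
  rwa [sub_zero] at this

lemma gnp_or {n : ℕ} {q : ℝ} (hp0 : 0 ≤ q) (hp1 : q ≤ 1) (P Q : SimpleGraph (Fin n) → Prop) :
    gnp n q (fun G => P G ∨ Q G) ≤ gnp n q P + gnp n q Q := by
  have h := gnp_union hp0 hp1 (Finset.univ : Finset Bool) (fun b => if b then P else Q)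
  simp only [Fintype.sum_bool, if_true, Bool.false_eq_true, if_false] at h
  refine le_trans (gnp_imp hp0 hp1 ?_) h
  rintro G (h1 | h1)
  · exact ⟨true, Finset.mem_univ _, by simpa using h1⟩
  · exact ⟨false, Finset.mem_univ _, by simpa using h1⟩

lemma tendsto_one_and (hp : ∀ n, 0 ≤ p n ∧ p n ≤ 1)
    {P Q : ∀ n : ℕ, SimpleGraph (Fin n) → Prop}
    (hP : Tendsto (fun n => gnp n (p n) (P n)) atTop (𝓝 1))
    (hQ : Tendsto (fun n => gnp n (p n) (Q n)) atTop (𝓝 1)) :
    Tendsto (fun n => gnp n (p n) (fun G => P n G ∧ Q n G)) atTop (𝓝 1) := by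
  have h1 := (tendsto_not hP).add (tendsto_not hQ)
  rw [add_zero] at h1
  have h2 := h1.const_sub 1
  rw [sub_zero] at h2
  refine tendsto_of_tendsto_of_tendsto_of_le_of_le' h2 tendsto_const_nhds ?_ ?_
  · filter_upwards with n
    have h3 := gnp_or (hp n).1 (hp n).2 (fun G => ¬ P n G) (fun G => ¬ Q n G)
    have h4 : gnp n (p n) (fun G => ¬ (P n G ∧ Q n G))
        ≤ gnp n (p n) (fun G => ¬ P n G ∨ ¬ Q n G) :=
      gnp_imp (hp n).1 (hp n).2 (fun G h => not_and_or.mp h)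
    rw [gnp_not] at h4
    linarith
  · exact Eventually.of_forall (fun n => gnp_le_one (hp n).1 (hp n).2 _)

lemma div_atTop_of_o {q : ℕ → ℝ} (hp : ∀ n, 0 ≤ p n ∧ p n ≤ 1) (hq : ∀ᶠ n in atTop, 0 < q n)
    (h : q =o[atTop] p) : Tendsto (fun n => p n / q n) atTop atTop := by
  have h1 : Tendsto (fun n => q n / p n) atTop (𝓝 0) := h.tendsto_div_nhds_zero
  have h2 : ∀ᶠ n in atTop, 0 < q n / p n := by
    filter_upwards [hq, h.def (show (0:ℝ) < 1 by norm_num)] with n hn hb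
    rw [one_mul, Real.norm_eq_abs, Real.norm_eq_abs, abs_of_pos hn, abs_of_nonneg (hp n).1] at hb
    exact div_pos hn (lt_of_lt_of_le hn hb)
  have h3 : Tendsto (fun n => q n / p n) atTop (𝓝[>] 0) :=
    tendsto_nhdsWithin_iff.mpr ⟨h1, h2⟩
  have h4 := h3.inv_tendsto_nhdsGT_zero
  refine h4.congr (fun n => ?_)
  simp [Pi.inv_apply, inv_div]

/-- `k` fixed vertices are independent when `p → 0` -/
lemma indep_whp (k : ℕ) (hp : ∀ n, 0 ≤ p n ∧ p n ≤ 1) (h : Tendsto p atTop (𝓝 0)) :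
    Tendsto (fun n => gnp n (p n) (fun G => ∃ s : Finset (Fin n), s.card = k ∧
      ∀ v ∈ s, ∀ w ∈ s, ¬ G.Adj v w)) atTop (𝓝 1) := by
  -- the bad event
  have key : ∀ n : ℕ, k ≤ n → 1 - (k : ℝ) ^ 2 * p n ≤
      gnp n (p n) (fun G => ∃ s : Finset (Fin n), s.card = k ∧
        ∀ v ∈ s, ∀ w ∈ s, ¬ G.Adj v w) := by
    intro n hn
    obtain ⟨s, hs⟩ : ∃ s : Finset (Fin n), s.card = k := by
      obtain ⟨s, _, hs⟩ := Finset.exists_subset_card_eq (s := (Finset.univ : Finset (Fin n)))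
        (n := k) (by simpa using hn)
      exact ⟨s, hs⟩
    have h1 : gnp n (p n) (fun G => ∃ e ∈ s.offDiag, G.Adj e.1 e.2)
        ≤ ∑ e ∈ s.offDiag, gnp n (p n) (fun G => G.Adj e.1 e.2) :=
      gnp_union (hp n).1 (hp n).2 s.offDiag (fun e G => G.Adj e.1 e.2)
    have h2 : ∀ e ∈ s.offDiag, gnp n (p n) (fun G => G.Adj e.1 e.2) = p n := by
      intro e he
      have h3 := gnp_present (n := n) (p := p n) {s(e.1, e.2)} (by
        intro e' he'
        rw [Finset.mem_singleton] at he'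
        rw [he', Sym2.mk_isDiag_iff]
        exact (Finset.mem_offDiag.mp he).2.2)
      simp only [Finset.mem_singleton, forall_eq, SimpleGraph.mem_edgeSet,
        Finset.card_singleton, pow_one] at h3
      exact h3
    rw [Finset.sum_congr rfl h2, Finset.sum_const, nsmul_eq_mul] at h1
    have h4 : ((s.offDiag.card : ℕ) : ℝ) ≤ (k : ℝ) ^ 2 := by
      rw [Finset.offDiag_card, hs]
      have : k * k - k ≤ k ^ 2 := by rw [pow_two]; omega
      exact_mod_cast this
    have h5 : 1 - gnp n (p n) (fun G => ∃ e ∈ s.offDiag, G.Adj e.1 e.2) ≤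
        gnp n (p n) (fun G => ∃ s : Finset (Fin n), s.card = k ∧
        ∀ v ∈ s, ∀ w ∈ s, ¬ G.Adj v w) := by
      rw [← gnp_not]
      apply gnp_imp (hp n).1 (hp n).2
      intro G hG
      refine ⟨s, hs, fun v hv w hw hvw => hG ⟨(v, w), ?_, hvw⟩⟩
      rw [Finset.mem_offDiag]
      exact ⟨hv, hw, hvw.ne⟩
    have h6 := mul_le_mul_of_nonneg_right h4 (hp n).1
    linarith
  have h1 : Tendsto (fun n => 1 - (k : ℝ) ^ 2 * p n) atTop (𝓝 1) := by
    have := (h.const_mul ((k : ℝ) ^ 2)).const_sub 1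
    simpa using this
  refine tendsto_of_tendsto_of_tendsto_of_le_of_le' h1 tendsto_const_nhds ?_ ?_
  · filter_upwards [eventually_ge_atTop k] with n hn using key n hn
  · exact Eventually.of_forall (fun n => gnp_le_one (hp n).1 (hp n).2 _)

/-- the probability of the empty graph -/
lemma gnp_bot (n : ℕ) (q : ℝ) : gnp n q (fun G => G = ⊥) = (1 - q) ^ (n.choose 2) := by
  have h := gnp_absent (n := n) (p := q)
    (Pool.Agent.TH965.Emb.eF (⊤ : SimpleGraph (Fin n))) (fun e he => mem_top_eF.mp he)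
  rw [Pool.Agent.TH965.eF_top_card] at h
  rw [← h]
  congr 1
  ext G
  constructor
  · rintro rfl e _
    simp
  · intro hG
    ext u v
    constructor
    · intro huv
      have := hG s(u, v) (mem_top_eF.mpr (by rw [Sym2.mk_isDiag_iff]; exact huv.ne))
      exact absurd ((SimpleGraph.mem_edgeSet G).mpr huv) this
    · intro h; exact absurd h (by simp)

lemma bot_one (hp : ∀ n, 0 ≤ p n ∧ p n ≤ 1)
    (h : Tendsto (fun n : ℕ => p n * (n : ℝ) ^ 2) atTop (𝓝 0)) :
    Tendsto (fun n => gnp n (p n) (fun G => G = ⊥)) atTop (𝓝 1) := by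
  simp only [gnp_bot]
  have h1 : Tendsto (fun n : ℕ => 1 - p n * (n : ℝ) ^ 2) atTop (𝓝 1) := by
    simpa using h.const_sub 1
  refine tendsto_of_tendsto_of_tendsto_of_le_of_le h1 tendsto_const_nhds ?_ ?_
  · intro n
    have h2 := one_add_mul_le_pow (a := -(p n)) (by linarith [(hp n).2]) (n.choose 2)
    have h3 : ((n.choose 2 : ℕ) : ℝ) ≤ (n : ℝ) ^ 2 := by
      exact_mod_cast Nat.choose_le_pow n 2
    have h4 := mul_le_mul_of_nonneg_right h3 (hp n).1
    have h5 : (1 + -(p n)) = 1 - p n := by ring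
    rw [h5] at h2
    show 1 - p n * (n : ℝ) ^ 2 ≤ (1 - p n) ^ (n.choose 2)
    linarith
  · intro n
    apply pow_le_one₀ (by linarith [(hp n).2]) (by linarith [(hp n).1])

lemma bot_zero (hp : ∀ n, 0 ≤ p n ∧ p n ≤ 1)
    (h : Tendsto (fun n : ℕ => p n * (n : ℝ) ^ 2) atTop atTop) :
    Tendsto (fun n => gnp n (p n) (fun G => G = ⊥)) atTop (𝓝 0) := by
  simp only [gnp_bot]
  have h1 : Tendsto (fun n : ℕ => Real.exp (-(p n * (n : ℝ) ^ 2 * (1 / 4)))) atTop (𝓝 0) := by
    apply Real.tendsto_exp_neg_atTop_nhds_zero.comp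
    exact h.atTop_mul_const (by norm_num)
  refine tendsto_of_tendsto_of_tendsto_of_le_of_le' tendsto_const_nhds h1 ?_ ?_
  · exact Eventually.of_forall (fun n => pow_nonneg (by linarith [(hp n).2]) _)
  · filter_upwards [eventually_ge_atTop 2] with n hn
    have h2 : (1 - p n) ≤ Real.exp (-(p n)) := by
      have := Real.add_one_le_exp (-(p n)); linarith
    have h3 : (1 - p n) ^ (n.choose 2) ≤ (Real.exp (-(p n))) ^ (n.choose 2) :=
      pow_le_pow_left₀ (by linarith [(hp n).2]) h2 _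
    rw [← Real.exp_nat_mul] at h3
    refine h3.trans (Real.exp_le_exp.mpr ?_)
    have h4 : (n : ℝ) ^ 2 * (1 / 4) ≤ ((n.choose 2 : ℕ) : ℝ) := by
      rw [Nat.cast_choose_two]
      have : (2 : ℝ) ≤ n := by exact_mod_cast hn
      nlinarith
    have h5 := mul_le_mul_of_nonneg_right h4 (hp n).1
    linarith

end Pool.Agent.TH948.SH
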