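import Pool.Agent.TH948.SH.K1
import Pool.Agent.TH948.SH.K2
import Pool.Agent.TH948.SH.Lim

set_option autoImplicit false

/-!
# No small set has an independent outer neighbourhood above the threshold (helper150)
-/

namespace Pool.Agent.TH948.SH

namespace K5b

open Filter Topology Asymptotics
open scoped Classical

/-- the deterministic part -/
lemma det {n : ℕ} (p : ℝ) (G : SimpleGraph (Fin n)) (C : Finset (Fin n)) (hC : C.Nonempty)
    (h2 : 2 * C.card ≤ n) (hI : ∀ x ∈ outN G C, ∀ y ∈ outN G C, ¬ G.Adj x y) :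
    ((∃ s : Finset (Fin n), (n : ℝ) / 4 ≤ s.card ∧ ∀ x ∈ s, ∀ y ∈ s, ¬ G.Adj x y) ∨
      (∃ C A : Finset (Fin n), 8 ≤ p * C.card ∧ (n : ℝ) / 4 ≤ A.card ∧ Disjoint C A ∧
        ∀ x ∈ C, ∀ y ∈ A, ¬ G.Adj x y)) ∨
    (∃ C ∈ (Finset.univ.filter fun C : Finset (Fin n) =>
        C.Nonempty ∧ 2 * C.card ≤ n ∧ p * C.card < 8),
      ((outN G C).card : ℝ) ≤ n * p * C.card / 100 ∨
      (⌈(n * p * C.card / 100 : ℝ)⌉₊ ≤ (outN G C).card ∧
        ∀ x ∈ outN G C, ∀ y ∈ outN G C, ¬ G.Adj x y)) := by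
  by_cases h8 : 8 ≤ p * C.card
  · left
    by_cases h4 : (n : ℝ) / 4 ≤ (outN G C).card
    · exact Or.inl ⟨outN G C, h4, hI⟩
    · right
      push Not at h4
      refine ⟨C, (C ∪ outN G C)ᶜ, h8, ?_, ?_, ?_⟩
      · have e1 : (C ∪ outN G C).card ≤ C.card + (outN G C).card := Finset.card_union_le _ _
        have e2 : ((C ∪ outN G C)ᶜ).card + (C ∪ outN G C).card = n := by
          rw [add_comm, Finset.card_add_card_compl, Fintype.card_fin]
        have e1' : ((C ∪ outN G C).card : ℝ) ≤ C.card + (outN G C).card := by exact_mod_cast e1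
        have e2' : (((C ∪ outN G C)ᶜ).card : ℝ) + (C ∪ outN G C).card = n := by exact_mod_cast e2
        have h2' : (2 : ℝ) * C.card ≤ n := by exact_mod_cast h2
        linarith
      · rw [Finset.disjoint_left]
        intro x hx hx'
        rw [Finset.mem_compl] at hx'
        exact hx' (Finset.mem_union_left _ hx)
      · intro x hx y hy hxy
        rw [Finset.mem_compl, Finset.mem_union] at hy
        push Not at hy
        exact hy.2 (Finset.mem_filter.mpr ⟨Finset.mem_univ y, hy.1, x, hx, hxy⟩)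
  · right
    push Not at h8
    refine ⟨C, Finset.mem_filter.mpr ⟨Finset.mem_univ _, hC, h2, h8⟩, ?_⟩
    by_cases h : ((outN G C).card : ℝ) ≤ n * p * C.card / 100
    · exact Or.inl h
    · right
      push Not at h
      exact ⟨Nat.ceil_le.mpr h.le, hI⟩

lemma pow_le_exp {p : ℝ} (hp1 : p ≤ 1) (k : ℕ) : (1 - p) ^ k ≤ Real.exp (-(p * k)) := by
  have h1 : 1 - p ≤ Real.exp (-p) := by
    have := Real.add_one_le_exp (-p)
    linarith
  calc (1 - p) ^ k ≤ Real.exp (-p) ^ k := pow_le_pow_left₀ (by linarith) h1 k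
    _ = Real.exp (-(p * k)) := by
      rw [← Real.exp_nat_mul]
      congr 1
      ring

lemma one_sub_pow_ge {p : ℝ} (hp0 : 0 ≤ p) (hp1 : p ≤ 1) (s : ℕ) (h : p * s ≤ 8) :
    p * s / 9 ≤ 1 - (1 - p) ^ s := by
  have h1 := pow_le_exp hp1 s
  have hy : 0 ≤ p * s := by positivity
  have h2 : Real.exp (-(p * s)) ≤ 1 / (1 + p * s) := by
    rw [Real.exp_neg, ← one_div]
    apply one_div_le_one_div_of_le (by linarith)
    have := Real.add_one_le_exp (p * s)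
    linarith
  have h3 : p * s / 9 ≤ 1 - 1 / (1 + p * s) := by
    have e : 1 - 1 / (1 + p * s) = p * s / (1 + p * s) := by field_simp; ring
    rw [e]
    exact div_le_div_of_nonneg_left hy (by linarith) (by linarith)
  linarith

lemma bound1 {n : ℕ} {p : ℝ} (hp0 : 0 ≤ p) (hp1 : p ≤ 1) (s : ℕ) (h2 : 2 * s ≤ n)
    (h : p * s ≤ 8) :
    Real.exp (n * p * s / 100 - ((n : ℝ) - s) * (1 - (1 - p) ^ s) / 2) ≤
      Real.exp (-((n * p / 60) * s)) := by
  apply Real.exp_le_exp.mpr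
  have h3 := one_sub_pow_ge hp0 hp1 s h
  have h2' : (2 : ℝ) * s ≤ n := by exact_mod_cast h2
  have h4 : (n : ℝ) / 2 * (p * s / 9) ≤ ((n : ℝ) - s) * (1 - (1 - p) ^ s) :=
    mul_le_mul (by linarith) h3 (by positivity) (by
      have : (0 : ℝ) ≤ s := Nat.cast_nonneg s
      linarith)
  have h5 : 0 ≤ (n : ℝ) * p * s := by positivity
  have e1 : (n : ℝ) / 2 * (p * s / 9) = n * p * s / 18 := by ring
  have e2 : (n * p / 60 : ℝ) * s = n * p * s / 60 := by ring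
  rw [e1] at h4
  rw [e2]
  linarith

lemma bound2 {n : ℕ} {p : ℝ} (hp0 : 0 ≤ p) (hp1 : p ≤ 1) (s : ℕ) (hs : 1 ≤ s)
    (h : 100 < (n : ℝ) * p) :
    (1 - p) ^ ((⌈(n * p * s / 100 : ℝ)⌉₊).choose 2) ≤
      Real.exp (-((p ^ 3 * (n : ℝ) ^ 2 / 40000) * s)) := by
  refine (pow_le_exp hp1 _).trans (Real.exp_le_exp.mpr ?_)
  obtain ⟨M, hM⟩ : ∃ M, M = ⌈(n * p * s / 100 : ℝ)⌉₊ := ⟨_, rfl⟩
  rw [← hM]
  have hs' : (1 : ℝ) ≤ s := by exact_mod_cast hs
  have h1 : (n * p * s / 100 : ℝ) ≤ M := by rw [hM]; exact Nat.le_ceil _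
  have h2 : (1 : ℝ) < n * p * s / 100 := by
    have : (n : ℝ) * p * 1 ≤ n * p * s := mul_le_mul_of_nonneg_left hs' (by linarith)
    linarith
  have hM2 : 2 ≤ M := by
    have : (1 : ℝ) < M := lt_of_lt_of_le h2 h1
    have : 1 < M := by exact_mod_cast this
    omega
  have hM2' : (2 : ℝ) ≤ M := by exact_mod_cast hM2
  rw [Nat.cast_choose_two]
  have h3 : (M : ℝ) ^ 2 / 4 ≤ (M : ℝ) * (M - 1) / 2 := by nlinarith
  have h4 : (n * p * s / 100 : ℝ) ^ 2 ≤ (M : ℝ) ^ 2 := pow_le_pow_left₀ (by linarith) h1 2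
  have h5 : (n * p / 100 : ℝ) ^ 2 * s ≤ (n * p * s / 100 : ℝ) ^ 2 := by
    have e : (n * p * s / 100 : ℝ) ^ 2 = (n * p / 100 : ℝ) ^ 2 * (s * s) := by ring
    rw [e]
    apply mul_le_mul_of_nonneg_left _ (sq_nonneg _)
    nlinarith
  have h6 : p * ((n * p / 100 : ℝ) ^ 2 * s / 4) ≤ p * ((M : ℝ) * (M - 1) / 2) :=
    mul_le_mul_of_nonneg_left (by linarith) hp0
  have e : p * ((n * p / 100 : ℝ) ^ 2 * s / 4) = (p ^ 3 * (n : ℝ) ^ 2 / 40000) * s := by ring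
  rw [e] at h6
  linarith

lemma exp_le_pow {n : ℕ} (hn : 1 ≤ n) {c : ℝ} (hc : 2 * Real.log n ≤ c) (s : ℕ) :
    Real.exp (-(c * s)) ≤ (((n : ℝ)⁻¹) ^ 2) ^ s := by
  have hn0 : (0 : ℝ) < n := by exact_mod_cast hn
  have e1 : ((n : ℝ)⁻¹) = Real.exp (-Real.log n) := by rw [Real.exp_neg, Real.exp_log hn0]
  rw [e1, ← Real.exp_nat_mul, ← Real.exp_nat_mul]
  apply Real.exp_le_exp.mpr
  have hs : (0 : ℝ) ≤ s := Nat.cast_nonneg s
  have := mul_le_mul_of_nonneg_right hc hs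
  push_cast
  linarith

lemma sum_le {n : ℕ} (hn : 1 ≤ n) (F : Finset (Finset (Fin n))) (hF : ∀ C ∈ F, C.Nonempty) :
    ∑ C ∈ F, (((n : ℝ)⁻¹) ^ 2) ^ C.card ≤ Real.exp (n : ℝ)⁻¹ - 1 := by
  have hn0 : (0 : ℝ) < n := by exact_mod_cast hn
  have hx : (0 : ℝ) ≤ ((n : ℝ)⁻¹) ^ 2 := by positivity
  have h1 : ∑ C ∈ F, (((n : ℝ)⁻¹) ^ 2) ^ C.card ≤
      ∑ C ∈ (Finset.univ : Finset (Finset (Fin n))).erase ∅, (((n : ℝ)⁻¹) ^ 2) ^ C.card := by
    apply Finset.sum_le_sum_of_subset_of_nonneg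
    · intro C hC
      exact Finset.mem_erase.mpr ⟨(hF C hC).ne_empty, Finset.mem_univ C⟩
    · intro C _ _
      positivity
  have h2 : ∑ C : Finset (Fin n), (((n : ℝ)⁻¹) ^ 2) ^ C.card = (((n : ℝ)⁻¹) ^ 2 + 1) ^ n := by
    have := Fintype.sum_pow_mul_eq_add_pow (Fin n) (((n : ℝ)⁻¹) ^ 2) 1
    simpa using this
  have h3 : ∑ C ∈ (Finset.univ : Finset (Finset (Fin n))).erase ∅, (((n : ℝ)⁻¹) ^ 2) ^ C.card + 1 =
      (((n : ℝ)⁻¹) ^ 2 + 1) ^ n := by
    rw [← h2, ← Finset.sum_erase_add _ _ (Finset.mem_univ (∅ : Finset (Fin n)))]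
    simp
  have h4 : (((n : ℝ)⁻¹) ^ 2 + 1) ^ n ≤ Real.exp (n : ℝ)⁻¹ := by
    calc (((n : ℝ)⁻¹) ^ 2 + 1) ^ n ≤ (Real.exp (((n : ℝ)⁻¹) ^ 2)) ^ n :=
          pow_le_pow_left₀ (by linarith) (Real.add_one_le_exp _) n
      _ = Real.exp (n : ℝ)⁻¹ := by
        rw [← Real.exp_nat_mul]
        congr 1
        field_simp
  linarith

lemma pn_log {p : ℕ → ℝ} (hp : ∀ n, 0 ≤ p n ∧ p n ≤ 1)
    (h : Tendsto (fun n : ℕ => (p n) ^ 3 * (n : ℝ) ^ 2 / Real.log n) atTop atTop) :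
    Tendsto (fun n : ℕ => p n * n / Real.log n) atTop atTop := by
  rw [tendsto_atTop]
  intro b
  have hl := tendsto_natCast_atTop_atTop.eventually
    ((Real.isLittleO_pow_log_id_atTop (n := 2)).def one_pos)
  filter_upwards [h.eventually_ge_atTop ((max b 1) ^ 3), hl, eventually_ge_atTop 3] with n h1 h2 h3
  have hn : (3 : ℝ) ≤ n := by exact_mod_cast h3
  have hlog : 0 < Real.log n := Real.log_pos (by linarith)
  have hb : (1 : ℝ) ≤ max b 1 := le_max_right _ _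
  rw [le_div_iff₀ hlog] at h1 ⊢
  have h2' : Real.log n ^ 2 ≤ n := by
    simpa [abs_of_nonneg (sq_nonneg (Real.log n))] using h2
  have h4 : (max b 1 * Real.log n) ^ 3 ≤ (p n * n) ^ 3 := by
    calc (max b 1 * Real.log n) ^ 3 = (Real.log n ^ 2) * ((max b 1) ^ 3 * Real.log n) := by ring
      _ ≤ (n : ℝ) * ((p n) ^ 3 * (n : ℝ) ^ 2) := mul_le_mul h2' h1 (by positivity) (by positivity)
      _ = (p n * n) ^ 3 := by ring
  have h5 : max b 1 * Real.log n ≤ p n * n := by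
    refine le_of_pow_le_pow_left₀ (by norm_num : (3 : ℕ) ≠ 0) ?_ h4
    exact mul_nonneg (hp n).1 (by linarith)
  have h6 : b * Real.log n ≤ max b 1 * Real.log n :=
    mul_le_mul_of_nonneg_right (le_max_left _ _) hlog.le
  linarith

end K5b

open Filter Topology Asymptotics K5b
open scoped Classical

/-- `no_stable_cut` from the statements of `no_big_indep` and `no_hole` (file K3) -/
lemma K5b.main
    (no_big_indep : ∀ (p : ℕ → ℝ), (∀ n, 0 ≤ p n ∧ p n ≤ 1) →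
      Tendsto (fun n : ℕ => p n * n) atTop atTop →
      Tendsto (fun n => gnp n (p n) (fun G => ∃ s : Finset (Fin n), (n : ℝ) / 4 ≤ s.card ∧
        ∀ x ∈ s, ∀ y ∈ s, ¬ G.Adj x y)) atTop (𝓝 0))
    (no_hole : ∀ (p : ℕ → ℝ), (∀ n, 0 ≤ p n ∧ p n ≤ 1) →
      Tendsto (fun n : ℕ => p n * n / Real.log n) atTop atTop →
      Tendsto (fun n => gnp n (p n) (fun G => ∃ C A : Finset (Fin n), 8 ≤ p n * C.card ∧
        (n : ℝ) / 4 ≤ A.card ∧ Disjoint C A ∧ ∀ x ∈ C, ∀ y ∈ A, ¬ G.Adj x y)) atTop (𝓝 0))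
    (p : ℕ → ℝ) (hp : ∀ n, 0 ≤ p n ∧ p n ≤ 1)
    (h : Tendsto (fun n : ℕ => (p n) ^ 3 * (n : ℝ) ^ 2 / Real.log n) atTop atTop) :
    Tendsto (fun n => gnp n (p n) (fun G => ∃ C : Finset (Fin n), C.Nonempty ∧ 2 * C.card ≤ n ∧
      ∀ x ∈ outN G C, ∀ y ∈ outN G C, ¬ G.Adj x y)) atTop (𝓝 0) := by
  have hpl := pn_log hp h
  have hlogt : Tendsto (fun n : ℕ => Real.log n) atTop atTop :=
    Real.tendsto_log_atTop.comp tendsto_natCast_atTop_atTop
  have hpn : Tendsto (fun n : ℕ => p n * n) atTop atTop := by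
    have h1 := hpl.atTop_mul_atTop₀ hlogt
    refine h1.congr' ?_
    filter_upwards [eventually_ge_atTop 3] with n hn
    have hn' : (3 : ℝ) ≤ n := by exact_mod_cast hn
    have hlog : 0 < Real.log n := Real.log_pos (by linarith)
    field_simp
  have hE1 := no_big_indep p hp hpn
  have hE2 := no_hole p hp hpl
  have hE3 : Tendsto (fun n : ℕ => 2 * (Real.exp (n : ℝ)⁻¹ - 1)) atTop (𝓝 0) := by
    have h1 : Tendsto (fun n : ℕ => ((n : ℝ))⁻¹) atTop (𝓝 0) :=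
      tendsto_inv_atTop_zero.comp tendsto_natCast_atTop_atTop
    have h2 : Tendsto (fun n : ℕ => Real.exp (n : ℝ)⁻¹) atTop (𝓝 (Real.exp 0)) :=
      (Real.continuous_exp.tendsto 0).comp h1
    have h3 := (h2.sub_const 1).const_mul 2
    simpa using h3
  have hsum := (hE1.add hE2).add hE3
  simp only [add_zero] at hsum
  refine tendsto_of_tendsto_of_tendsto_of_le_of_le' tendsto_const_nhds hsum
    (Eventually.of_forall fun n => gnp_nonneg (hp n).1 (hp n).2 _) ?_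
  filter_upwards [h.eventually_ge_atTop 80000, hpl.eventually_ge_atTop 120,
    hpn.eventually_gt_atTop 100, eventually_ge_atTop 3] with n g1 g2 g3 g4
  have hn' : (3 : ℝ) ≤ n := by exact_mod_cast g4
  have hn1 : 1 ≤ n := by omega
  have hlog : 0 < Real.log n := Real.log_pos (by linarith)
  rw [le_div_iff₀ hlog] at g1 g2
  obtain ⟨hp0, hp1⟩ := hp n
  refine (gnp_imp hp0 hp1 (Q := fun G =>
    ((∃ s : Finset (Fin n), (n : ℝ) / 4 ≤ s.card ∧ ∀ x ∈ s, ∀ y ∈ s, ¬ G.Adj x y) ∨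
      (∃ C A : Finset (Fin n), 8 ≤ p n * C.card ∧ (n : ℝ) / 4 ≤ A.card ∧ Disjoint C A ∧
        ∀ x ∈ C, ∀ y ∈ A, ¬ G.Adj x y)) ∨
    (∃ C ∈ (Finset.univ.filter fun C : Finset (Fin n) =>
        C.Nonempty ∧ 2 * C.card ≤ n ∧ p n * C.card < 8),
      ((outN G C).card : ℝ) ≤ n * p n * C.card / 100 ∨
      (⌈(n * p n * C.card / 100 : ℝ)⌉₊ ≤ (outN G C).card ∧
        ∀ x ∈ outN G C, ∀ y ∈ outN G C, ¬ G.Adj x y))) ?_).trans ?_
  · rintro G ⟨C, h1, h2, h3⟩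
    exact det (p n) G C h1 h2 h3
  refine (gnp_or hp0 hp1 _ _).trans (add_le_add (gnp_or hp0 hp1 _ _) ?_)
  refine (gnp_union hp0 hp1 _ _).trans ?_
  refine le_trans (Finset.sum_le_sum (g := fun C => 2 * (((n : ℝ)⁻¹) ^ 2) ^ C.card) ?_) ?_
  · intro C hC
    rw [Finset.mem_filter] at hC
    obtain ⟨_, hC1, hC2, hC3⟩ := hC
    have hs : 1 ≤ C.card := hC1.card_pos
    refine (gnp_or hp0 hp1 _ _).trans ?_
    have b1 := (outN_small hp0 hp1 C (n * p n * C.card / 100)).trans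
      ((bound1 hp0 hp1 C.card hC2 hC3.le).trans
        (exp_le_pow hn1 (c := n * p n / 60) (by linarith) C.card))
    have b2 := (outN_indep hp0 hp1 C ⌈(n * p n * C.card / 100 : ℝ)⌉₊).trans
      ((bound2 hp0 hp1 C.card hs (by linarith)).trans
        (exp_le_pow hn1 (c := (p n) ^ 3 * (n : ℝ) ^ 2 / 40000) (by linarith) C.card))
    linarith
  · rw [← Finset.mul_sum]
    have := sum_le hn1 (Finset.univ.filter fun C : Finset (Fin n) =>
        C.Nonempty ∧ 2 * C.card ≤ n ∧ p n * C.card < 8) (fun C hC => (Finset.mem_filter.mp hC).2.1)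
    linarith

end Pool.Agent.TH948.SH
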