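import Pool.Agent.TH948.SH.K3b
import Pool.Agent.TH948.SH.K5b

set_option autoImplicit false

/-!
# `no_stable_cut` without hypotheses (helper150)
-/

namespace Pool.Agent.TH948.SH.K5c

open Filter Topology Asymptotics
open scoped Classical

lemma no_stable_cut (p : ℕ → ℝ) (hp : ∀ n, 0 ≤ p n ∧ p n ≤ 1)
    (h : Tendsto (fun n : ℕ => (p n) ^ 3 * (n : ℝ) ^ 2 / Real.log n) atTop atTop) :
    Tendsto (fun n => gnp n (p n) (fun G => ∃ C : Finset (Fin n), C.Nonempty ∧ 2 * C.card ≤ n ∧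
      ∀ x ∈ outN G C, ∀ y ∈ outN G C, ¬ G.Adj x y)) atTop (𝓝 0) :=
  K5b.main K3b.no_big_indep K3b.no_hole p hp h

end Pool.Agent.TH948.SH.K5c
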