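import Pool.Agent.TH948.SH.Defs2

set_option autoImplicit false
set_option linter.unusedSectionVars false

/-!
# Exposure of the edges at a set of vertices
-/

namespace Pool.Agent.TH948.SH

open scoped Classical
open Pool.Agent.TH965.Spread Pool.Agent.TH965.Emb

lemma exs_fubini {X : Type*} [DecidableEq X] (a b : Finset X) (hab : Disjoint a b) (p : ℝ)
    (F : Finset X → Finset X → ℝ) :
    exs (a ∪ b) p (fun W => F (W ∩ a) (W ∩ b)) = exs a p (fun Y => exs b p (fun Z => F Y Z)) := by
  induction b using Finset.induction_on generalizing F with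
  | empty =>
    rw [Finset.union_empty]
    apply exs_congr
    intro W hW
    rw [exs_empty, Finset.inter_empty, Finset.inter_eq_left.mpr hW]
  | insert x b hx ih =>
    have hxa : x ∉ a := fun h => (Finset.disjoint_left.mp hab) h (Finset.mem_insert_self x b)
    have hab' : Disjoint a b := hab.mono_right (Finset.subset_insert x b)
    rw [Finset.union_insert, exs_insert _ x (by simp [hxa, hx])]
    have e1 : exs (a ∪ b) p (fun W => F (W ∩ a) (W ∩ insert x b))
        = exs (a ∪ b) p (fun W => F (W ∩ a) (W ∩ b)) := by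
      apply exs_congr
      intro W hW
      have hxW : x ∉ W := fun h => by
        rcases Finset.mem_union.mp (hW h) with h | h
        · exact hxa h
        · exact hx h
      congr 1
      ext y
      simp only [Finset.mem_inter, Finset.mem_insert]
      constructor
      · rintro ⟨h1, h2 | h2⟩
        · exact absurd (h2 ▸ h1) hxW
        · exact ⟨h1, h2⟩
      · rintro ⟨h1, h2⟩
        exact ⟨h1, Or.inr h2⟩
    have e2 : exs (a ∪ b) p (fun W => F (insert x W ∩ a) (insert x W ∩ insert x b))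
        = exs (a ∪ b) p (fun W => (fun Y Z => F Y (insert x Z)) (W ∩ a) (W ∩ b)) := by
      apply exs_congr
      intro W hW
      rw [Finset.insert_inter_of_notMem hxa, ← Finset.insert_inter_distrib]
    rw [e1, e2, ih hab' F, ih hab' (fun Y Z => F Y (insert x Z))]
    have e3 : ∀ Y : Finset X, exs (insert x b) p (fun Z => F Y Z)
        = (1 - p) * exs b p (fun Z => F Y Z) + p * exs b p (fun Z => F Y (insert x Z)) :=
      fun Y => exs_insert b x hx p _
    simp only [e3]
    rw [exs_add, exs_mul_left, exs_mul_left]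

/-- exposing first the edges at `A`, then the other edges -/
lemma exposure {n : ℕ} {p : ℝ} (hp0 : 0 ≤ p) (hp1 : p ≤ 1) (A : Finset (Fin n)) (c : ℝ)
    (P : SimpleGraph (Fin n) → SimpleGraph (Fin n) → Prop)
    (h : ∀ H : SimpleGraph (Fin n), gnp n p (fun G => P H (off A G)) ≤ c) :
    gnp n p (fun G => P (meet A G) (off A G)) ≤ c := by
  set E := eF (⊤ : SimpleGraph (Fin n)) with hE
  set a := E.filter (fun e => ∃ v ∈ e, v ∈ A) with ha
  set b := E.filter (fun e => ¬ ∃ v ∈ e, v ∈ A) with hb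
  have hab : Disjoint a b := Finset.disjoint_filter_filter_not E E _
  have hU : a ∪ b = E := Finset.filter_union_filter_not_eq _ E
  let fr : Finset (Sym2 (Fin n)) → SimpleGraph (Fin n) := fun W =>
    SimpleGraph.fromEdgeSet (W : Set (Sym2 (Fin n)))
  have hadj : ∀ (W : Finset (Sym2 (Fin n))) (u v : Fin n), (fr W).Adj u v ↔ s(u, v) ∈ W ∧ u ≠ v :=
    fun W u v => by simp [fr, SimpleGraph.fromEdgeSet_adj]
  have hoff : ∀ W, off A (fr W) = fr (W ∩ b) := by
    intro W
    ext u v
    show ((fr W).Adj u v ∧ u ∉ A ∧ v ∉ A) ↔ _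
    rw [hadj, hadj, Finset.mem_inter, hb, Finset.mem_filter, hE, mem_top_eF, Sym2.mk_isDiag_iff]
    constructor
    · rintro ⟨⟨h1, h2⟩, h3, h4⟩
      refine ⟨⟨h1, h2, ?_⟩, h2⟩
      rintro ⟨w, hw, hwA⟩
      rcases Sym2.mem_iff.mp hw with rfl | rfl
      · exact h3 hwA
      · exact h4 hwA
    · rintro ⟨⟨h1, h2, h3⟩, h4⟩
      exact ⟨⟨h1, h2⟩, fun hu => h3 ⟨u, Sym2.mem_mk_left u v, hu⟩,
        fun hv => h3 ⟨v, Sym2.mem_mk_right u v, hv⟩⟩
  have hmeet : ∀ W, meet A (fr W) = fr (W ∩ a) := by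
    intro W
    ext u v
    show ((fr W).Adj u v ∧ (u ∈ A ∨ v ∈ A)) ↔ _
    rw [hadj, hadj, Finset.mem_inter, ha, Finset.mem_filter, hE, mem_top_eF, Sym2.mk_isDiag_iff]
    constructor
    · rintro ⟨⟨h1, h2⟩, h3⟩
      refine ⟨⟨h1, h2, ?_⟩, h2⟩
      rcases h3 with h3 | h3
      · exact ⟨u, Sym2.mem_mk_left u v, h3⟩
      · exact ⟨v, Sym2.mem_mk_right u v, h3⟩
    · rintro ⟨⟨h1, h2, w, hw, hwA⟩, _⟩
      refine ⟨⟨h1, h2⟩, ?_⟩
      rcases Sym2.mem_iff.mp hw with rfl | rfl
      · exact Or.inl hwA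
      · exact Or.inr hwA
  have h1 : gnp n p (fun G => P (meet A G) (off A G))
      = exs a p (fun Y => exs b p (fun Z => if P (fr Y) (fr Z) then 1 else 0)) := by
    rw [gnp_eq, ← hE, ← exs_fubini a b hab p (fun Y Z => if P (fr Y) (fr Z) then 1 else 0), hU]
    apply exs_congr
    intro W _
    show (if P (meet A (fr W)) (off A (fr W)) then (1 : ℝ) else 0) = _
    rw [hmeet, hoff]
  have h2 : ∀ Y, exs b p (fun Z => if P (fr Y) (fr Z) then (1 : ℝ) else 0)
      = gnp n p (fun G => P (fr Y) (off A G)) := by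
    intro Y
    have h3 := exs_split a b hab p (fun _ => (1 : ℝ)) (fun Z => if P (fr Y) (fr Z) then 1 else 0)
    rw [exs_const, one_mul, hU] at h3
    rw [← h3, gnp_eq, ← hE]
    apply exs_congr
    intro W _
    show _ = (if P (fr Y) (off A (fr W)) then (1 : ℝ) else 0)
    rw [hoff, one_mul]
  rw [h1, ← exs_const a p c]
  apply exs_mono _ hp0 hp1
  intro Y _
  rw [h2]
  exact h (fr Y)

end Pool.Agent.TH948.SH
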