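import Pool.Agent.TH948.SH.Defs2
import Pool.Agent.TH948.SH.Lim
import Pool.Agent.TH948.SH.Expo

set_option autoImplicit false
set_option linter.unusedSectionVars false

/-!
# A set of `k` vertices which is suitable for a surjective homomorphism
-/

namespace Pool.Agent.TH948.SH

open Filter Topology Asymptotics
open scoped Classical

/-- the graph at `A` is good -/
private def Good {n : ℕ} (A : Finset (Fin n)) (M : ℕ) (H : SimpleGraph (Fin n)) : Prop :=
  (∀ x ∈ A, ∀ y ∈ A, ¬ H.Adj x y) ∧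
  (∀ w, ∀ x ∈ A, ∀ y ∈ A, H.Adj x w → H.Adj y w → x = y) ∧
  (∀ x ∈ A, (Finset.univ.filter (fun w => H.Adj x w)).card < M)

/-- the wanted property -/
private def Wanted {n : ℕ} (k : ℕ) (G : SimpleGraph (Fin n)) (W : Finset (Fin n)) : Prop :=
  W.card = k ∧
      (∀ x ∈ W, ∀ y ∈ W, ¬ G.Adj x y) ∧
      (∀ w, ∀ x ∈ W, ∀ y ∈ W, G.Adj x w → G.Adj y w → x = y) ∧
      (∀ x ∈ outN G W, ∀ y ∈ outN G W, ¬ G.Adj x y)

private lemma mem_outN {n : ℕ} {G : SimpleGraph (Fin n)} {C : Finset (Fin n)} {w : Fin n} :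
    w ∈ outN G C ↔ w ∉ C ∧ ∃ u ∈ C, G.Adj u w := by
  unfold outN
  simp

private lemma det_part {n k M : ℕ} {A W : Finset (Fin n)} (hW : W ⊆ A) (hk : W.card = k)
    {G : SimpleGraph (Fin n)} (hg : Good A M (meet A G))
    (hj : ∀ x ∈ outN (meet A G) W, ∀ y ∈ outN (meet A G) W, ¬ (off A G).Adj x y) :
    Wanted k G W := by
  have h1 : ∀ x ∈ outN G W, x ∈ outN (meet A G) W ∧ x ∉ A := by
    intro x hx
    obtain ⟨hxW, u, hu, hux⟩ := mem_outN.1 hx
    refine ⟨mem_outN.2 ⟨hxW, u, hu, hux, Or.inl (hW hu)⟩, fun hxA => ?_⟩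
    exact hg.1 u (hW hu) x hxA ⟨hux, Or.inl (hW hu)⟩
  refine ⟨hk, fun x hx y hy hxy => ?_, fun w x hx y hy hxw hyw => ?_, fun x hx y hy hxy => ?_⟩
  · exact hg.1 x (hW hx) y (hW hy) ⟨hxy, Or.inl (hW hx)⟩
  · exact hg.2.1 w x (hW hx) y (hW hy) ⟨hxw, Or.inl (hW hx)⟩ ⟨hyw, Or.inl (hW hy)⟩
  · exact hj x (h1 x hx).1 y (h1 y hy).1 ⟨hxy, (h1 x hx).2, (h1 y hy).2⟩

/-- the pairs of a set -/
private noncomputable def prs {n : ℕ} (D : Finset (Fin n)) : Finset (Sym2 (Fin n)) :=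
  D.offDiag.image (fun e => s(e.1, e.2))

private lemma prs_card {n : ℕ} (D : Finset (Fin n)) : (prs D).card ≤ D.card ^ 2 := by
  unfold prs
  refine Finset.card_image_le.trans ?_
  rw [Finset.offDiag_card, pow_two]
  omega

private lemma prs_diag {n : ℕ} {D : Finset (Fin n)} {e : Sym2 (Fin n)} (he : e ∈ prs D) :
    ¬ e.IsDiag := by
  unfold prs at he
  obtain ⟨a, ha, rfl⟩ := Finset.mem_image.1 he
  rw [Sym2.mk_isDiag_iff]
  exact (Finset.mem_offDiag.1 ha).2.2

private lemma prs_disj {n : ℕ} {D E : Finset (Fin n)} (h : Disjoint D E) :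
    Disjoint (prs D) (prs E) := by
  rw [Finset.disjoint_left]
  intro e he he'
  unfold prs at he he'
  obtain ⟨a, ha, rfl⟩ := Finset.mem_image.1 he
  obtain ⟨b, hb, hab⟩ := Finset.mem_image.1 he'
  have ha' := Finset.mem_offDiag.1 ha
  have hb' := Finset.mem_offDiag.1 hb
  rcases Sym2.eq_iff.1 hab with ⟨h1, h2⟩ | ⟨h1, h2⟩
  · exact Finset.disjoint_left.1 h ha'.1 (h1 ▸ hb'.1)
  · exact Finset.disjoint_left.1 h ha'.1 (h2 ▸ hb'.2.1)

private lemma gnp_false (n : ℕ) (p : ℝ) : gnp n p (fun _ => False) = 0 := by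
  unfold gnp
  simp

private lemma outN_card {n k M : ℕ} {A W : Finset (Fin n)} (hW : W ⊆ A) (hk : W.card = k)
    {H : SimpleGraph (Fin n)} (hg : Good A M H) : (outN H W).card ≤ k * M := by
  have h1 : outN H W ⊆ W.biUnion (fun u => Finset.univ.filter (fun w => H.Adj u w)) := by
    intro w hw
    obtain ⟨_, u, hu, huw⟩ := mem_outN.1 hw
    exact Finset.mem_biUnion.2 ⟨u, hu, Finset.mem_filter.2 ⟨Finset.mem_univ _, huw⟩⟩
  refine (Finset.card_le_card h1).trans (Finset.card_biUnion_le.trans ?_)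
  refine (Finset.sum_le_sum (fun u hu => (hg.2.2 u (hW hu)).le)).trans ?_
  rw [Finset.sum_const, smul_eq_mul, hk]

private lemma cond_bound {n k m M : ℕ} {p : ℝ} (hp0 : 0 ≤ p) (hp1 : p ≤ 1) (A : Finset (Fin n))
    (W : Fin m → Finset (Fin n)) (hWA : ∀ j, W j ⊆ A) (hWk : ∀ j, (W j).card = k)
    (hWd : ∀ i j, i ≠ j → Disjoint (W i) (W j)) (H : SimpleGraph (Fin n)) :
    gnp n p (fun G => Good A M H ∧
      ∀ j, ∃ x ∈ outN H (W j), ∃ y ∈ outN H (W j), (off A G).Adj x y)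
      ≤ Real.exp (-(m * (1 - p) ^ ((k * M) ^ 2))) := by
  by_cases hH : Good A M H
  · have h1 : gnp n p (fun G => Good A M H ∧
        ∀ j, ∃ x ∈ outN H (W j), ∃ y ∈ outN H (W j), (off A G).Adj x y)
        ≤ gnp n p (fun G => ∀ j ∈ (Finset.univ : Finset (Fin m)),
          ¬ ∀ e ∈ prs (outN H (W j)), e ∉ G.edgeSet) := by
      refine gnp_imp hp0 hp1 ?_
      rintro G ⟨_, hG⟩ j _ hall
      obtain ⟨x, hx, y, hy, hxy⟩ := hG j
      refine hall s(x, y) ?_ ((SimpleGraph.mem_edgeSet G).2 hxy.1)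
      unfold prs
      exact Finset.mem_image.2 ⟨(x, y), Finset.mem_offDiag.2 ⟨hx, hy, hxy.1.ne⟩, rfl⟩
    refine h1.trans ?_
    rw [gnp_blocks_absent (n := n) (p := p) Finset.univ (fun j => prs (outN H (W j)))
      (fun j _ e he => prs_diag he) ?_]
    · have h2 : ∀ j ∈ (Finset.univ : Finset (Fin m)),
          1 - (1 - p) ^ (prs (outN H (W j))).card ≤ Real.exp (-((1 - p) ^ ((k * M) ^ 2))) := by
        intro j _
        have h3 : (prs (outN H (W j))).card ≤ (k * M) ^ 2 :=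
          (prs_card _).trans (Nat.pow_le_pow_left (outN_card (hWA j) (hWk j) hH) 2)
        have h4 : (1 - p) ^ ((k * M) ^ 2) ≤ (1 - p) ^ (prs (outN H (W j))).card :=
          pow_le_pow_of_le_one (by linarith) (by linarith) h3
        have h5 := Real.add_one_le_exp (-((1 - p) ^ ((k * M) ^ 2)))
        linarith
      have h0 : ∀ j ∈ (Finset.univ : Finset (Fin m)), 0 ≤ 1 - (1 - p) ^ (prs (outN H (W j))).card := by
        intro j _
        have := pow_le_one₀ (n := (prs (outN H (W j))).card) (show 0 ≤ 1 - p by linarith)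
          (show 1 - p ≤ 1 by linarith)
        linarith
      refine (Finset.prod_le_prod h0 h2).trans ?_
      rw [Finset.prod_const, Finset.card_univ, Fintype.card_fin, ← Real.exp_nat_mul]
      apply le_of_eq
      congr 1
      ring
    · intro i _ j _ hij
      apply prs_disj
      rw [Finset.disjoint_left]
      intro x hx hx'
      obtain ⟨_, u, hu, hux⟩ := mem_outN.1 hx
      obtain ⟨_, v, hv, hvx⟩ := mem_outN.1 hx'
      have huv := hH.2.1 x u (hWA i hu) v (hWA j hv) hux hvx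
      exact Finset.disjoint_left.1 (hWd i j hij) hu (huv ▸ hv)
  · have h1 : gnp n p (fun G => Good A M H ∧
        ∀ j, ∃ x ∈ outN H (W j), ∃ y ∈ outN H (W j), (off A G).Adj x y)
        ≤ gnp n p (fun _ => False) := gnp_imp hp0 hp1 (fun G hG => hH hG.1)
    rw [gnp_false] at h1
    exact h1.trans (Real.exp_pos _).le

private lemma adj_prob {n : ℕ} {p : ℝ} {x y : Fin n} (h : x ≠ y) :
    gnp n p (fun G => G.Adj x y) = p := by
  have h3 := gnp_present (n := n) (p := p) {s(x, y)} (by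
    intro e' he'
    rw [Finset.mem_singleton] at he'
    rw [he', Sym2.mk_isDiag_iff]
    exact h)
  simp only [Finset.mem_singleton, forall_eq, SimpleGraph.mem_edgeSet,
    Finset.card_singleton, pow_one] at h3
  exact h3

private lemma two_prob {n : ℕ} {p : ℝ} (hp0 : 0 ≤ p) (hp1 : p ≤ 1) {x y w : Fin n} (h : x ≠ y) :
    gnp n p (fun G => G.Adj x w ∧ G.Adj y w) ≤ p ^ 2 := by
  by_cases hx : x = w
  · have h1 : gnp n p (fun G => G.Adj x w ∧ G.Adj y w) ≤ gnp n p (fun _ => False) :=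
      gnp_imp hp0 hp1 (fun G hG => hG.1.ne hx)
    rw [gnp_false] at h1
    exact h1.trans (by positivity)
  · by_cases hy : y = w
    · have h1 : gnp n p (fun G => G.Adj x w ∧ G.Adj y w) ≤ gnp n p (fun _ => False) :=
        gnp_imp hp0 hp1 (fun G hG => hG.2.ne hy)
      rw [gnp_false] at h1
      exact h1.trans (by positivity)
    · have h3 := gnp_present (n := n) (p := p) {s(x, w), s(y, w)} (by
        intro e' he'
        rw [Finset.mem_insert, Finset.mem_singleton] at he'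
        rcases he' with he' | he'
        · rw [he', Sym2.mk_isDiag_iff]
          exact hx
        · rw [he', Sym2.mk_isDiag_iff]
          exact hy)
      have h4 : s(x, w) ≠ s(y, w) := by
        intro h5
        rcases Sym2.eq_iff.1 h5 with ⟨h6, _⟩ | ⟨h6, _⟩
        · exact h h6
        · exact hx h6
      rw [Finset.card_pair h4] at h3
      rw [← h3]
      refine gnp_imp hp0 hp1 ?_
      rintro G ⟨h6, h7⟩ e he
      rw [Finset.mem_insert, Finset.mem_singleton] at he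
      rcases he with he | he
      · rw [he]
        exact h6
      · rw [he]
        exact h7

private lemma star_prob {n : ℕ} {p : ℝ} (hp0 : 0 ≤ p) (hp1 : p ≤ 1) (x : Fin n)
    (S : Finset (Fin n)) :
    gnp n p (fun G => ∀ s ∈ S, G.Adj x s) ≤ p ^ S.card := by
  by_cases hx : x ∈ S
  · have h1 : gnp n p (fun G => ∀ s ∈ S, G.Adj x s) ≤ gnp n p (fun _ => False) :=
      gnp_imp hp0 hp1 (fun G hG => (hG x hx).ne rfl)
    rw [gnp_false] at h1
    exact h1.trans (by positivity)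
  · have h3 := gnp_present (n := n) (p := p) (S.image (fun s => s(x, s))) (by
      intro e' he'
      obtain ⟨s, hs, rfl⟩ := Finset.mem_image.1 he'
      rw [Sym2.mk_isDiag_iff]
      rintro rfl
      exact hx hs)
    have h4 : (S.image (fun s => s(x, s))).card = S.card := by
      apply Finset.card_image_of_injOn
      intro s hs t ht hst
      have hst' : s(x, s) = s(x, t) := hst
      rcases Sym2.eq_iff.1 hst' with ⟨_, h6⟩ | ⟨h6, h7⟩
      · exact h6
      · rw [h7, ← h6]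
    rw [h4] at h3
    rw [← h3]
    refine gnp_imp hp0 hp1 ?_
    intro G hG e he
    obtain ⟨s, hs, rfl⟩ := Finset.mem_image.1 he
    exact (SimpleGraph.mem_edgeSet G).2 (hG s hs)

private lemma good_bound {n M : ℕ} {p : ℝ} (hp0 : 0 ≤ p) (hp1 : p ≤ 1) (A : Finset (Fin n)) :
    gnp n p (fun G => ¬ Good A M (meet A G)) ≤
      (A.card : ℝ) ^ 2 * p + (n * (A.card : ℝ) ^ 2 * p ^ 2 +
        (A.card : ℝ) * ((n.choose M : ℕ) * p ^ M)) := by
  have hoff : ((A.offDiag.card : ℕ) : ℝ) ≤ (A.card : ℝ) ^ 2 := by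
    rw [Finset.offDiag_card]
    have : A.card * A.card - A.card ≤ A.card ^ 2 := by rw [pow_two]; omega
    exact_mod_cast this
  have h1 : gnp n p (fun G => ∃ e ∈ A.offDiag, G.Adj e.1 e.2) ≤ (A.card : ℝ) ^ 2 * p := by
    refine (gnp_union hp0 hp1 A.offDiag (fun e G => G.Adj e.1 e.2)).trans ?_
    rw [Finset.sum_congr rfl (fun e he => adj_prob (Finset.mem_offDiag.1 he).2.2), Finset.sum_const,
      nsmul_eq_mul]
    exact mul_le_mul_of_nonneg_right hoff hp0
  have h2 : gnp n p (fun G => ∃ t ∈ (Finset.univ : Finset (Fin n)) ×ˢ A.offDiag,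
      G.Adj t.2.1 t.1 ∧ G.Adj t.2.2 t.1) ≤ n * (A.card : ℝ) ^ 2 * p ^ 2 := by
    refine (gnp_union hp0 hp1 _ (fun (t : Fin n × (Fin n × Fin n)) G =>
      G.Adj t.2.1 t.1 ∧ G.Adj t.2.2 t.1)).trans ?_
    refine (Finset.sum_le_sum (fun t ht => two_prob hp0 hp1
      (Finset.mem_offDiag.1 (Finset.mem_product.1 ht).2).2.2)).trans ?_
    rw [Finset.sum_const, nsmul_eq_mul, Finset.card_product, Finset.card_univ, Fintype.card_fin]
    push_cast
    exact mul_le_mul_of_nonneg_right (mul_le_mul_of_nonneg_left hoff (Nat.cast_nonneg n))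
      (by positivity)
  have h3 : gnp n p (fun G => ∃ t ∈ A ×ˢ Finset.powersetCard M (Finset.univ : Finset (Fin n)),
      ∀ s ∈ t.2, G.Adj t.1 s) ≤ (A.card : ℝ) * ((n.choose M : ℕ) * p ^ M) := by
    refine (gnp_union hp0 hp1 _ (fun (t : Fin n × Finset (Fin n)) G =>
      ∀ s ∈ t.2, G.Adj t.1 s)).trans ?_
    refine (Finset.sum_le_sum (g := fun _ => p ^ M) (fun t ht => ?_)).trans ?_
    · have h4 := star_prob hp0 hp1 t.1 t.2
      rwa [(Finset.mem_powersetCard.1 (Finset.mem_product.1 ht).2).2] at h4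
    · rw [Finset.sum_const, nsmul_eq_mul, Finset.card_product, Finset.card_powersetCard,
        Finset.card_univ, Fintype.card_fin]
      push_cast
      rw [mul_assoc]
  have h4 : gnp n p (fun G => ¬ Good A M (meet A G)) ≤
      gnp n p (fun G => (∃ e ∈ A.offDiag, G.Adj e.1 e.2) ∨
        ((∃ t ∈ (Finset.univ : Finset (Fin n)) ×ˢ A.offDiag, G.Adj t.2.1 t.1 ∧ G.Adj t.2.2 t.1) ∨
        (∃ t ∈ A ×ˢ Finset.powersetCard M (Finset.univ : Finset (Fin n)),
          ∀ s ∈ t.2, G.Adj t.1 s))) := by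
    refine gnp_imp hp0 hp1 ?_
    intro G hG
    by_contra hcon
    rw [not_or, not_or] at hcon
    obtain ⟨c1, c2, c3⟩ := hcon
    apply hG
    refine ⟨fun x hx y hy hxy => c1 ⟨(x, y), Finset.mem_offDiag.2 ⟨hx, hy, hxy.1.ne⟩, hxy.1⟩,
      fun w x hx y hy hxw hyw => ?_, fun x hx => ?_⟩
    · by_contra hxy
      exact c2 ⟨(w, (x, y)), Finset.mem_product.2 ⟨Finset.mem_univ _,
        Finset.mem_offDiag.2 ⟨hx, hy, hxy⟩⟩, hxw.1, hyw.1⟩
    · by_contra hM
      rw [not_lt] at hM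
      obtain ⟨S, hS1, hS2⟩ := Finset.exists_subset_card_eq hM
      exact c3 ⟨(x, S), Finset.mem_product.2 ⟨hx, Finset.mem_powersetCard.2
        ⟨Finset.subset_univ _, hS2⟩⟩, fun s hs => ((Finset.mem_filter.1 (hS1 hs)).2).1⟩
  refine h4.trans ((gnp_or hp0 hp1 _ _).trans (add_le_add h1 ((gnp_or hp0 hp1 _ _).trans
    (add_le_add h2 h3))))

private lemma fin_bound {n k m M : ℕ} {p : ℝ} (hp0 : 0 ≤ p) (hp1 : p ≤ 1) (hkm : m * k ≤ n) :
    gnp n p (fun G => ¬ ∃ W : Finset (Fin n), Wanted k G W) ≤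
      (((m * k : ℕ) : ℝ) ^ 2 * p + (n * ((m * k : ℕ) : ℝ) ^ 2 * p ^ 2 +
        ((m * k : ℕ) : ℝ) * ((n.choose M : ℕ) * p ^ M))) +
      Real.exp (-(m * (1 - p) ^ ((k * M) ^ 2))) := by
  obtain ⟨e⟩ : Nonempty (Fin m × Fin k ↪ Fin n) := by
    apply Function.Embedding.nonempty_of_card_le
    rw [Fintype.card_prod, Fintype.card_fin, Fintype.card_fin, Fintype.card_fin]
    exact hkm
  set A : Finset (Fin n) := Finset.univ.map e with hA
  have hAc : A.card = m * k := by
    rw [hA, Finset.card_map, Finset.card_univ, Fintype.card_prod, Fintype.card_fin, Fintype.card_fin]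
  set W : Fin m → Finset (Fin n) := fun j => Finset.univ.image (fun i => e (j, i)) with hW
  have hWA : ∀ j, W j ⊆ A := by
    intro j x hx
    obtain ⟨i, _, rfl⟩ := Finset.mem_image.1 hx
    exact Finset.mem_map_of_mem e (Finset.mem_univ _)
  have hWk : ∀ j, (W j).card = k := by
    intro j
    rw [hW]
    simp only
    rw [Finset.card_image_of_injective, Finset.card_univ, Fintype.card_fin]
    intro i i' h
    exact (Prod.mk.inj (e.injective h)).2
  have hWd : ∀ i j, i ≠ j → Disjoint (W i) (W j) := by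
    intro i j hij
    rw [Finset.disjoint_left]
    intro x hx hx'
    obtain ⟨a, _, rfl⟩ := Finset.mem_image.1 hx
    obtain ⟨b, _, hb⟩ := Finset.mem_image.1 hx'
    exact hij (Prod.mk.inj (e.injective hb)).1.symm
  have h1 := exposure hp0 hp1 A (Real.exp (-(m * (1 - p) ^ ((k * M) ^ 2))))
    (fun H X => Good A M H ∧ ∀ j, ∃ x ∈ outN H (W j), ∃ y ∈ outN H (W j), X.Adj x y)
    (fun H => cond_bound hp0 hp1 A W hWA hWk hWd H)
  have h2 := good_bound (M := M) hp0 hp1 A
  rw [hAc] at h2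
  refine le_trans (gnp_imp hp0 hp1 ?_) ((gnp_or hp0 hp1 _ _).trans (add_le_add h2 h1))
  intro G hG
  by_cases hg : Good A M (meet A G)
  · right
    refine ⟨hg, fun j => ?_⟩
    by_contra hcon
    push Not at hcon
    exact hG ⟨W j, det_part (hWA j) (hWk j) hg hcon⟩
  · left
    exact hg

private lemma choose_bound {n M : ℕ} {p : ℝ} (hp0 : 0 ≤ p) :
    ((n.choose M : ℕ) : ℝ) * p ^ M ≤ Real.exp (3 * (n * p) - M) := by
  have hx : 0 ≤ (n : ℝ) * p := by positivity
  have h1 : ((n.choose M : ℕ) : ℝ) ≤ (n : ℝ) ^ M / (M.factorial : ℝ) := Nat.choose_le_pow_div M n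
  have h2 := Real.pow_div_factorial_le_exp (3 * (n * p)) (by positivity) M
  have hf : (0 : ℝ) < (M.factorial : ℝ) := by exact_mod_cast M.factorial_pos
  have h3 : Real.exp (M : ℝ) ≤ 3 ^ M := by
    have h4 : Real.exp (M : ℝ) = Real.exp 1 ^ M := by
      rw [← Real.exp_nat_mul, mul_one]
    rw [h4]
    refine pow_le_pow_left₀ (Real.exp_pos 1).le ?_ M
    have := Real.exp_one_lt_d9
    linarith
  have h5 : ((n.choose M : ℕ) : ℝ) * p ^ M ≤ (n * p) ^ M / (M.factorial : ℝ) := by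
    have := mul_le_mul_of_nonneg_right h1 (pow_nonneg hp0 M)
    refine this.trans (le_of_eq ?_)
    rw [mul_pow]
    ring
  refine h5.trans ?_
  rw [Real.exp_sub, le_div_iff₀ (Real.exp_pos _)]
  calc (n * p) ^ M / (M.factorial : ℝ) * Real.exp (M : ℝ)
      ≤ (n * p) ^ M / (M.factorial : ℝ) * 3 ^ M :=
        mul_le_mul_of_nonneg_left h3 (by positivity)
    _ = (3 * (n * p)) ^ M / (M.factorial : ℝ) := by
        rw [mul_pow 3 (n * p) M]
        ring
    _ ≤ _ := h2

private lemma one_sub_ge {p : ℝ} (hp0 : 0 ≤ p) (hp : p ≤ 1 / 2) : Real.exp (-(2 * p)) ≤ 1 - p := by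
  rw [Real.exp_neg, inv_le_comm₀ (Real.exp_pos _) (by linarith)]
  have h1 := Real.add_one_le_exp (2 * p)
  refine le_trans ?_ h1
  rw [inv_le_iff_one_le_mul₀ (by linarith)]
  nlinarith

private lemma exp_neg_le {y : ℝ} (hy : 0 < y) : Real.exp (-y) ≤ 1 / y := by
  rw [Real.exp_neg, ← one_div]
  apply one_div_le_one_div_of_le hy
  have := Real.add_one_le_exp y
  linarith

/-- the bound for one `n` -/
private lemma num_bound {n k : ℕ} {p T : ℝ} (hp0 : 0 ≤ p) (hp1 : p ≤ 1) (hT3 : 3 ≤ T)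
    (hTk : 36 * (k : ℝ) ^ 2 ≤ T) (hn : (n : ℝ) = T ^ 20) (hpT : p * T ^ 12 ≤ 1)
    (hlog : 36 * (k : ℝ) ^ 2 * (p ^ 3 * (n : ℝ) ^ 2) ≤ Real.log T / 2) :
    gnp n p (fun G => ¬ ∃ W : Finset (Fin n), Wanted k G W) ≤
      (8 * (k : ℝ) ^ 2 + 4 * k) / T + Real.exp (1 - Real.log T / 2) := by
  have hT0 : 0 < T := by linarith
  have hT1 : 1 ≤ T := by linarith
  have hk0 : (0 : ℝ) ≤ k := Nat.cast_nonneg k
  set m : ℕ := ⌈T⌉₊ with hm
  have hm1 : T ≤ m := Nat.le_ceil T
  have hm2 : (m : ℝ) ≤ 2 * T := by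
    have := Nat.ceil_lt_add_one hT0.le
    linarith
  set M : ℕ := ⌈3 * ((n : ℝ) * p)⌉₊ + m with hM
  have hx0 : 0 ≤ 3 * ((n : ℝ) * p) := by positivity
  have hM1 : 3 * ((n : ℝ) * p) + m ≤ M := by
    rw [hM]
    push_cast
    have := Nat.le_ceil (3 * ((n : ℝ) * p))
    linarith
  have hM2 : (M : ℝ) ≤ 3 * ((n : ℝ) * p) + 3 * T := by
    rw [hM]
    push_cast
    have := Nat.ceil_lt_add_one hx0
    linarith
  have hkk : (k : ℝ) ≤ 36 * (k : ℝ) ^ 2 := by
    rcases Nat.eq_zero_or_pos k with h | h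
    · rw [h]
      simp
    · have : (1 : ℝ) ≤ k := by exact_mod_cast h
      nlinarith
  have hkT : (k : ℝ) ≤ T := hkk.trans hTk
  have hkm : m * k ≤ n := by
    have h1 : ((m * k : ℕ) : ℝ) ≤ n := by
      push_cast
      rw [hn]
      have h2 : (m : ℝ) * k ≤ 2 * T * T := mul_le_mul hm2 hkT hk0 (by positivity)
      have h3 : 2 * T * T ≤ T ^ 3 := by nlinarith [sq_nonneg T]
      have h4 : T ^ 3 ≤ T ^ 20 := pow_le_pow_right₀ hT1 (by norm_num)
      linarith
    exact_mod_cast h1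
  have hb := fin_bound (M := M) hp0 hp1 hkm
  have hpow : ∀ j : ℕ, j ≤ 12 → p * T ^ j ≤ 1 := by
    intro j hj
    exact (mul_le_mul_of_nonneg_left (pow_le_pow_right₀ hT1 hj) hp0).trans hpT
  have hmk : ((m * k : ℕ) : ℝ) ^ 2 ≤ 4 * (k : ℝ) ^ 2 * T ^ 2 := by
    push_cast
    have h1 : (m : ℝ) * k ≤ 2 * T * k := mul_le_mul_of_nonneg_right hm2 hk0
    have h2 := pow_le_pow_left₀ (by positivity) h1 2
    refine h2.trans (le_of_eq ?_)
    ring
  have hb1 : ((m * k : ℕ) : ℝ) ^ 2 * p ≤ 4 * (k : ℝ) ^ 2 / T := by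
    rw [le_div_iff₀ hT0]
    have h1 := mul_le_mul_of_nonneg_right hmk (mul_nonneg hp0 hT0.le)
    have h2 := mul_le_mul_of_nonneg_left (hpow 3 (by norm_num)) (show 0 ≤ 4 * (k : ℝ) ^ 2 by positivity)
    nlinarith
  have hb2 : (n : ℝ) * ((m * k : ℕ) : ℝ) ^ 2 * p ^ 2 ≤ 4 * (k : ℝ) ^ 2 / T := by
    rw [le_div_iff₀ hT0]
    have h1 : (n : ℝ) * ((m * k : ℕ) : ℝ) ^ 2 * p ^ 2 ≤ T ^ 20 * (4 * (k : ℝ) ^ 2 * T ^ 2) * p ^ 2 := by
      rw [hn]
      exact mul_le_mul_of_nonneg_right (mul_le_mul_of_nonneg_left hmk (by positivity)) (by positivity)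
    have h2 : T ^ 20 * (4 * (k : ℝ) ^ 2 * T ^ 2) * p ^ 2 * T =
        4 * (k : ℝ) ^ 2 * ((p * T ^ 12) * (p * T ^ 11)) := by ring
    have h3 : (p * T ^ 12) * (p * T ^ 11) ≤ 1 * 1 :=
      mul_le_mul hpT (hpow 11 (by norm_num)) (by positivity) zero_le_one
    have h4 := mul_le_mul_of_nonneg_right h1 hT0.le
    have h5 := mul_le_mul_of_nonneg_left h3 (show 0 ≤ 4 * (k : ℝ) ^ 2 by positivity)
    linarith
  have hb3 : ((m * k : ℕ) : ℝ) * ((n.choose M : ℕ) * p ^ M) ≤ 4 * k / T := by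
    have h1 : ((n.choose M : ℕ) : ℝ) * p ^ M ≤ Real.exp (-T) := by
      refine (choose_bound hp0).trans (Real.exp_le_exp.2 ?_)
      linarith
    have h2 : Real.exp (-T) ≤ 2 / T ^ 2 := by
      rw [Real.exp_neg, inv_le_comm₀ (Real.exp_pos _) (by positivity)]
      have := Real.quadratic_le_exp_of_nonneg hT0.le
      rw [inv_div]
      linarith
    have h3 : ((m * k : ℕ) : ℝ) ≤ 2 * T * k := by
      push_cast
      exact mul_le_mul_of_nonneg_right hm2 hk0
    calc ((m * k : ℕ) : ℝ) * ((n.choose M : ℕ) * p ^ M) ≤ 2 * T * k * (2 / T ^ 2) :=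
          mul_le_mul h3 (h1.trans h2) (by positivity) (by positivity)
      _ = 4 * k / T := by
          field_simp
          ring
  have hp2 : p ≤ 1 / 2 := by
    have h1 := hpow 1 (by norm_num)
    rw [pow_one] at h1
    nlinarith
  have hb4 : Real.exp (-((m : ℝ) * (1 - p) ^ ((k * M) ^ 2))) ≤ Real.exp (1 - Real.log T / 2) := by
    have h1 : Real.exp (-(2 * p * ((k : ℝ) * M) ^ 2)) ≤ (1 - p) ^ ((k * M) ^ 2) := by
      have h2 := pow_le_pow_left₀ (Real.exp_pos _).le (one_sub_ge hp0 hp2) ((k * M) ^ 2)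
      rw [← Real.exp_nat_mul] at h2
      refine le_trans (le_of_eq ?_) h2
      congr 1
      push_cast
      ring
    have h3 : 2 * p * ((k : ℝ) * M) ^ 2 ≤ Real.log T / 2 + 1 := by
      have h4 : (M : ℝ) ^ 2 ≤ 18 * ((n : ℝ) * p) ^ 2 + 18 * T ^ 2 := by
        have h5 := pow_le_pow_left₀ (Nat.cast_nonneg M) hM2 2
        nlinarith [sq_nonneg ((n : ℝ) * p - T)]
      have h6 : 2 * p * ((k : ℝ) * M) ^ 2 ≤
          36 * (k : ℝ) ^ 2 * (p ^ 3 * (n : ℝ) ^ 2) + 36 * (k : ℝ) ^ 2 * (p * T ^ 2) := by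
        have h7 := mul_le_mul_of_nonneg_left h4 (show 0 ≤ 2 * p * (k : ℝ) ^ 2 by positivity)
        refine le_trans (le_of_eq ?_) (h7.trans (le_of_eq ?_))
        · ring
        · ring
      have h8 : 36 * (k : ℝ) ^ 2 * (p * T ^ 2) ≤ 1 := by
        have h9 : 36 * (k : ℝ) ^ 2 * (p * T ^ 2) ≤ T * (p * T ^ 2) :=
          mul_le_mul_of_nonneg_right hTk (by positivity)
        have h10 := hpow 3 (by norm_num)
        nlinarith
      linarith
    have h11 : Real.exp (Real.log T / 2 - 1) ≤ (m : ℝ) * (1 - p) ^ ((k * M) ^ 2) := by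
      have h12 : Real.exp (Real.log T / 2 - 1) = T * Real.exp (-(Real.log T / 2 + 1)) := by
        nth_rewrite 2 [← Real.exp_log hT0]
        rw [← Real.exp_add]
        congr 1
        ring
      rw [h12]
      refine mul_le_mul hm1 (le_trans (Real.exp_le_exp.2 (by linarith)) h1) (Real.exp_pos _).le
        (Nat.cast_nonneg m)
    refine (Real.exp_le_exp.2 (neg_le_neg h11)).trans ?_
    refine (exp_neg_le (Real.exp_pos _)).trans (le_of_eq ?_)
    rw [one_div, ← Real.exp_neg]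
    congr 1
    ring
  have hfin : 4 * (k : ℝ) ^ 2 / T + (4 * (k : ℝ) ^ 2 / T + 4 * k / T) =
      (8 * (k : ℝ) ^ 2 + 4 * k) / T := by ring
  rw [← hfin]
  exact hb.trans (add_le_add (add_le_add hb1 (add_le_add hb2 hb3)) hb4)

lemma special_set (k : ℕ) (p : ℕ → ℝ) (hp : ∀ n, 0 ≤ p n ∧ p n ≤ 1)
    (h : Tendsto (fun n : ℕ => (p n) ^ 3 * (n : ℝ) ^ 2 / Real.log n) atTop (𝓝 0)) :
    Tendsto (fun n => gnp n (p n) (fun G => ∃ W : Finset (Fin n), W.card = k ∧
      (∀ x ∈ W, ∀ y ∈ W, ¬ G.Adj x y) ∧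
      (∀ w, ∀ x ∈ W, ∀ y ∈ W, G.Adj x w → G.Adj y w → x = y) ∧
      (∀ x ∈ outN G W, ∀ y ∈ outN G W, ¬ G.Adj x y))) atTop (𝓝 1) := by
  set T : ℕ → ℝ := fun n => (n : ℝ) ^ (1 / 20 : ℝ) with hTdef
  have hT : Tendsto T atTop atTop :=
    (tendsto_rpow_atTop (show (0 : ℝ) < 1 / 20 by norm_num)).comp tendsto_natCast_atTop_atTop
  have hB : Tendsto (fun n => (8 * (k : ℝ) ^ 2 + 4 * k) / T n + Real.exp (1 - Real.log (T n) / 2))
      atTop (𝓝 0) := by
    have h1 : Tendsto (fun n => (8 * (k : ℝ) ^ 2 + 4 * k) / T n) atTop (𝓝 0) :=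
      hT.const_div_atTop _
    have h2 : Tendsto (fun n => Real.exp (1 - Real.log (T n) / 2)) atTop (𝓝 0) := by
      apply Real.tendsto_exp_atBot.comp
      have h3 : Tendsto (fun n => Real.log (T n) / 2) atTop atTop :=
        (Real.tendsto_log_atTop.comp hT).atTop_div_const (by norm_num)
      have h4 := tendsto_neg_atTop_atBot.comp h3
      refine (tendsto_atBot_add_const_left _ (1 : ℝ) h4).congr (fun n => ?_)
      simp only [Function.comp]
      ring
    simpa using h1.add h2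
  have hev : ∀ᶠ n in atTop, gnp n (p n) (fun G => ¬ ∃ W : Finset (Fin n), Wanted k G W) ≤
      (8 * (k : ℝ) ^ 2 + 4 * k) / T n + Real.exp (1 - Real.log (T n) / 2) := by
    have hε : (0 : ℝ) < 1 / (40 * (36 * (k : ℝ) ^ 2 + 1)) := by positivity
    filter_upwards [hT.eventually_ge_atTop 3, hT.eventually_ge_atTop (36 * (k : ℝ) ^ 2),
      h.eventually_le_const hε, h.eventually_le_const zero_lt_one, eventually_ge_atTop 2]
      with n h3 hk h4 h5 hn2
    have hn2' : (2 : ℝ) ≤ n := by exact_mod_cast hn2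
    have hn0 : (0 : ℝ) < n := by linarith
    have hnT : (n : ℝ) = T n ^ 20 := by
      rw [hTdef]
      simp only
      rw [← Real.rpow_natCast, ← Real.rpow_mul hn0.le]
      norm_num
    have hT0 : 0 < T n := by linarith
    have hlogn : Real.log n = 20 * Real.log (T n) := by
      rw [hnT, Real.log_pow]
      norm_num
    have hlT : 0 < Real.log (T n) := Real.log_pos (by linarith)
    have hln : 0 < Real.log n := by
      rw [hlogn]
      linarith
    have hp0 := (hp n).1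
    rw [div_le_iff₀ hln] at h4 h5
    refine num_bound hp0 (hp n).2 h3 hk hnT ?_ ?_
    · have h6 : Real.log (T n) ≤ T n := Real.log_le_self hT0.le
      have h7 : (p n) ^ 3 * (n : ℝ) ^ 2 ≤ T n ^ 4 := by
        rw [hlogn] at h5
        have h8 : (27 : ℝ) ≤ T n ^ 3 := by
          have := pow_le_pow_left₀ (by norm_num) h3 3
          norm_num at this
          exact this
        have h9 : T n ^ 4 = T n ^ 3 * T n := by ring
        rw [h9]
        nlinarith
      have h10 : (p n * T n ^ 12) ^ 3 ≤ 1 := by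
        have h11 : (p n * T n ^ 12) ^ 3 * T n ^ 4 = (p n) ^ 3 * (n : ℝ) ^ 2 := by
          rw [hnT]
          ring
        have h12 : 0 < T n ^ 4 := by positivity
        by_contra hcon
        rw [not_le] at hcon
        have := mul_lt_mul_of_pos_right hcon h12
        linarith
      exact (pow_le_one_iff_of_nonneg (by positivity) (by norm_num)).1 h10
    · rw [hlogn] at h4
      have h6 : 36 * (k : ℝ) ^ 2 * ((p n) ^ 3 * (n : ℝ) ^ 2) ≤
          36 * (k : ℝ) ^ 2 * (1 / (40 * (36 * (k : ℝ) ^ 2 + 1)) * (20 * Real.log (T n))) :=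
        mul_le_mul_of_nonneg_left h4 (by positivity)
      refine h6.trans ?_
      have h7 : 36 * (k : ℝ) ^ 2 * (1 / (40 * (36 * (k : ℝ) ^ 2 + 1)) * (20 * Real.log (T n))) =
          (36 * (k : ℝ) ^ 2 / (36 * (k : ℝ) ^ 2 + 1)) * (Real.log (T n) / 2) := by
        field_simp
        ring
      rw [h7]
      have h8 : 36 * (k : ℝ) ^ 2 / (36 * (k : ℝ) ^ 2 + 1) ≤ 1 := by
        rw [div_le_one (by positivity)]
        linarith
      nlinarith
  have hz : Tendsto (fun n => gnp n (p n) (fun G => ¬ ∃ W : Finset (Fin n), Wanted k G W))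
      atTop (𝓝 0) :=
    tendsto_of_tendsto_of_tendsto_of_le_of_le' tendsto_const_nhds hB
      (Eventually.of_forall (fun n => gnp_nonneg (hp n).1 (hp n).2 _)) hev
  have h1 := tendsto_not' hz
  simp only [not_not] at h1
  exact h1

end Pool.Agent.TH948.SH
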