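import Pool.Agent.TH948.SH.Lim
import Pool.Agent.TH948.SH.K5c
import Pool.Agent.TH948.SH.L

set_option autoImplicit false
set_option linter.unusedSectionVars false

/-!
# Targets with an independent cut and a looped vertex of eccentricity two
-/

namespace Pool.Agent.TH948.SH

open Filter Topology Asymptotics
open scoped Classical

variable {V : Type} [Fintype V] {R : V → V → Prop}

/-- an independent cut of the target gives one of the graph -/
lemma cut_of_onto (hR : ∀ x y, R x y → R y x) {X Y : Set V}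
    (hX : ∀ x ∈ X, ∀ y ∈ X, ¬ R x y) (hY : ∃ y, y ∈ Y)
    (hZ : ∃ z, z ∉ X ∧ z ∉ Y) (hcut : ∀ y ∈ Y, ∀ z, z ∉ X → z ∉ Y → ¬ R y z)
    {n : ℕ} {G : SimpleGraph (Fin n)} (h : Onto R G) :
    ∃ C : Finset (Fin n), C.Nonempty ∧ 2 * C.card ≤ n ∧
      ∀ x ∈ outN G C, ∀ y ∈ outN G C, ¬ G.Adj x y := by
  obtain ⟨f, hf, hh⟩ := h
  set C1 : Finset (Fin n) := Finset.univ.filter (fun v => f v ∈ Y) with hC1
  set C2 : Finset (Fin n) := Finset.univ.filter (fun v => f v ∉ X ∧ f v ∉ Y) with hC2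
  have hdis : Disjoint C1 C2 := by
    rw [Finset.disjoint_left]
    intro v h1 h2
    rw [hC1, Finset.mem_filter] at h1
    rw [hC2, Finset.mem_filter] at h2
    exact h2.2.2 h1.2
  have hcard : C1.card + C2.card ≤ n := by
    rw [← Finset.card_union_of_disjoint hdis]
    exact (Finset.card_le_univ _).trans (by simp)
  have ho : ∀ C : Finset (Fin n), (∀ w ∈ outN G C, f w ∈ X) →
      ∀ x ∈ outN G C, ∀ y ∈ outN G C, ¬ G.Adj x y :=
    fun C hC x hx y hy hxy => hX _ (hC x hx) _ (hC y hy) (hh x y hxy)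
  rcases le_total C1.card C2.card with hle | hle
  · refine ⟨C1, ?_, by omega, ho C1 ?_⟩
    · obtain ⟨y, hy⟩ := hY
      obtain ⟨v, hv⟩ := hf y
      exact ⟨v, by rw [hC1, Finset.mem_filter]; exact ⟨Finset.mem_univ _, hv ▸ hy⟩⟩
    · intro w hw
      rw [outN, Finset.mem_filter] at hw
      obtain ⟨_, hwC, u, hu, huw⟩ := hw
      rw [hC1, Finset.mem_filter] at hu hwC
      have hwY : f w ∉ Y := fun h => hwC ⟨Finset.mem_univ _, h⟩
      by_contra hwX
      exact hcut _ hu.2 _ hwX hwY (hh u w huw)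
  · refine ⟨C2, ?_, by omega, ho C2 ?_⟩
    · obtain ⟨z, hz⟩ := hZ
      obtain ⟨v, hv⟩ := hf z
      exact ⟨v, by rw [hC2, Finset.mem_filter]; exact ⟨Finset.mem_univ _, hv ▸ hz⟩⟩
    · intro w hw
      rw [outN, Finset.mem_filter] at hw
      obtain ⟨_, hwC, u, hu, huw⟩ := hw
      rw [hC2, Finset.mem_filter] at hu hwC
      by_contra hwX
      have hwY : f w ∈ Y := by
        by_contra hwY
        exact hwC ⟨Finset.mem_univ _, hwX, hwY⟩
      exact hcut _ hwY _ hu.2.1 hu.2.2 (hR _ _ (hh u w huw))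

/-- the map from a special set -/
lemma onto_of_special (hR : ∀ x y, R x y → R y x) {l : V} (hl : R l l)
    (hecc : ∀ x, ∃ y, R l y ∧ R y x) {n : ℕ} {G : SimpleGraph (Fin n)}
    (W : Finset (Fin n)) (hW : W.card = Fintype.card V)
    (hind : ∀ x ∈ W, ∀ y ∈ W, ¬ G.Adj x y)
    (huniq : ∀ w, ∀ x ∈ W, ∀ y ∈ W, G.Adj x w → G.Adj y w → x = y)
    (hout : ∀ x ∈ outN G W, ∀ y ∈ outN G W, ¬ G.Adj x y) : Onto R G := by
  choose b hb1 hb2 using hecc
  have e : W ≃ V := Fintype.equivOfCardEq (by simpa using hW)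
  set f : Fin n → V := fun w => if h : w ∈ W then e ⟨w, h⟩ else
    if h' : ∃ v : W, G.Adj v.1 w then b (e h'.choose) else l with hf
  have f1 : ∀ w (h : w ∈ W), f w = e ⟨w, h⟩ := fun w h => by simp only [hf, h, dif_pos]
  have f2 : ∀ w, w ∉ W → ∀ v : W, G.Adj v.1 w → f w = b (e v) := by
    intro w hw v hv
    have h' : ∃ v : W, G.Adj v.1 w := ⟨v, hv⟩
    have h3 : h'.choose = v := by
      apply Subtype.ext
      exact huniq w _ h'.choose.2 _ v.2 h'.choose_spec hv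
    simp only [hf, hw, dif_neg, not_false_iff, h', dif_pos]
    rw [← h3]
  have f3 : ∀ w, w ∉ W → (¬ ∃ v : W, G.Adj v.1 w) → f w = l := by
    intro w hw h'
    simp only [hf, hw, dif_neg, not_false_iff, h']
  have key : ∀ u v, G.Adj u v → u ∈ W → R (f u) (f v) := by
    intro u v huv hu
    have hv : v ∉ W := fun hv => hind u hu v hv huv
    rw [f1 u hu, f2 v hv ⟨u, hu⟩ huv]
    exact hR _ _ (hb2 _)
  refine ⟨f, ?_, ?_⟩
  · intro x
    refine ⟨(e.symm x).1, ?_⟩
    rw [f1 _ (e.symm x).2]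
    simp
  · intro u v huv
    by_cases hu : u ∈ W
    · exact key u v huv hu
    by_cases hv : v ∈ W
    · exact hR _ _ (key v u huv.symm hv)
    by_cases hu' : ∃ w : W, G.Adj w.1 u
    · obtain ⟨w, hw⟩ := hu'
      by_cases hv' : ∃ w : W, G.Adj w.1 v
      · obtain ⟨w', hw'⟩ := hv'
        exfalso
        refine hout u ?_ v ?_ huv
        · rw [outN, Finset.mem_filter]
          exact ⟨Finset.mem_univ _, hu, w.1, w.2, hw⟩
        · rw [outN, Finset.mem_filter]
          exact ⟨Finset.mem_univ _, hv, w'.1, w'.2, hw'⟩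
      · rw [f2 u hu w hw, f3 v hv hv']
        exact hR _ _ (hb1 _)
    · by_cases hv' : ∃ w : W, G.Adj w.1 v
      · obtain ⟨w', hw'⟩ := hv'
        rw [f3 u hu hu', f2 v hv w' hw']
        exact hb1 _
      · rw [f3 u hu hu', f3 v hv hv']
        exact hl

lemma cube_eq (p : ℕ → ℝ) : ∀ᶠ n : ℕ in atTop,
    (p n / (Real.log n / (n : ℝ) ^ 2) ^ (1 / 3 : ℝ)) ^ 3 = (p n) ^ 3 * (n : ℝ) ^ 2 / Real.log n := by
  filter_upwards [eventually_ge_atTop 2] with n hn
  have h2 : (2 : ℝ) ≤ n := by exact_mod_cast hn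
  have h3 : 0 < Real.log n / (n : ℝ) ^ 2 := div_pos (Real.log_pos (by linarith)) (by positivity)
  rw [div_pow, ← Real.rpow_natCast ((Real.log n / (n : ℝ) ^ 2) ^ (1 / 3 : ℝ)) 3,
    ← Real.rpow_mul h3.le]
  norm_num
  rw [div_div_eq_mul_div]

theorem cut_threshold (hR : ∀ x y, R x y → R y x) {l : V} (hl : R l l)
    (hecc : ∀ x, ∃ y, R l y ∧ R y x) {X Y : Set V}
    (hX : ∀ x ∈ X, ∀ y ∈ X, ¬ R x y) (hY : ∃ y, y ∈ Y)
    (hZ : ∃ z, z ∉ X ∧ z ∉ Y) (hcut : ∀ y ∈ Y, ∀ z, z ∉ X → z ∉ Y → ¬ R y z) :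
    IsThreshold (fun _ G => Onto R G)
      (fun n => (Real.log n / (n : ℝ) ^ 2) ^ (1 / 3 : ℝ)) := by
  intro p hp
  constructor
  · intro h
    have h1 := h.tendsto_div_nhds_zero.pow 3
    rw [zero_pow (by norm_num)] at h1
    have h2 := h1.congr' (cube_eq p)
    refine tendsto_one_of_imp hp (special_set (Fintype.card V) p hp h2) ?_
    filter_upwards with n G hG
    obtain ⟨W, h3, h4, h5, h6⟩ := hG
    exact onto_of_special hR hl hecc W h3 h4 h5 h6
  · intro h
    have h0 : ∀ᶠ n : ℕ in atTop, 0 < (Real.log n / (n : ℝ) ^ 2) ^ (1 / 3 : ℝ) := by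
      filter_upwards [eventually_ge_atTop 2] with n hn
      have h2 : (2 : ℝ) ≤ n := by exact_mod_cast hn
      have h3 : 0 < Real.log n / (n : ℝ) ^ 2 := div_pos (Real.log_pos (by linarith)) (by positivity)
      exact Real.rpow_pos_of_pos h3 _
    have h1 := (tendsto_pow_atTop (α := ℝ) (n := 3) (by norm_num)).comp (div_atTop_of_o hp h0 h)
    have h2 := h1.congr' (cube_eq p)
    refine tendsto_zero_of_imp hp (K5c.no_stable_cut p hp h2) ?_
    filter_upwards with n G hG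
    exact cut_of_onto hR hX hY hZ hcut hG

end Pool.Agent.TH948.SH
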