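import Pool.Agent.TH948.SH.Base

set_option autoImplicit false

/-!
# Below `1/n` the random graph is bipartite
-/

namespace Pool.Agent.TH948.SH

open Filter Topology Asymptotics
open scoped Classical

/-- the edges of the closed walk given by `z` -/
noncomputable def cycE {n : ℕ} (m : ℕ) (z : Fin (m + 3) → Fin n) : Finset (Sym2 (Fin n)) :=
  Finset.univ.image fun i : Fin (m + 3) => s(z i, z (i + 1))

lemma fin_one_ne_zero (m : ℕ) : (1 : Fin (m + 3)) ≠ 0 := by
  intro h
  have := congrArg Fin.val h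
  simp at this

lemma fin_two_ne_zero (m : ℕ) : (1 + 1 : Fin (m + 3)) ≠ 0 := by
  intro h
  have h1 : ((1 : Fin (m + 3)) : ℕ) = 1 := by
    rw [Fin.val_one']
    exact Nat.mod_eq_of_lt (by omega)
  have h2 : ((1 + 1 : Fin (m + 3)) : ℕ) = 2 := by
    rw [Fin.val_add, h1]
    exact Nat.mod_eq_of_lt (by omega)
  rw [h] at h2
  simp at h2

lemma cycE_diag {n : ℕ} (m : ℕ) (z : Fin (m + 3) → Fin n) (hz : Function.Injective z) :
    ∀ e ∈ cycE m z, ¬ e.IsDiag := by
  intro e he
  obtain ⟨i, _, rfl⟩ := Finset.mem_image.mp he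
  rw [Sym2.mk_isDiag_iff]
  intro h
  have h1 : i = i + 1 := hz h
  exact fin_one_ne_zero m (left_eq_add.mp h1)

lemma cycE_card {n : ℕ} (m : ℕ) (z : Fin (m + 3) → Fin n) (hz : Function.Injective z) :
    (cycE m z).card = m + 3 := by
  unfold cycE
  rw [Finset.card_image_of_injective, Finset.card_univ, Fintype.card_fin]
  intro i j hij
  simp only [Sym2.eq_iff] at hij
  rcases hij with ⟨h1, _⟩ | ⟨h1, h2⟩
  · exact hz h1
  · have e1 : i = j + 1 := hz h1
    have e2 : i + 1 = j := hz h2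
    rw [e1, add_assoc] at e2
    exact absurd (add_eq_left.mp e2) (fin_two_ne_zero m)

/-- a graph with a cycle contains one of the cycles -/
lemma exists_cyc {n : ℕ} (G : SimpleGraph (Fin n)) (hG : ¬ G.IsAcyclic) :
    ∃ i ∈ (Finset.range n).sigma fun m => (Finset.univ : Finset (Fin (m + 3) → Fin n)).filter
        Function.Injective,
      ∀ e ∈ cycE i.1 i.2, e ∈ G.edgeSet := by
  unfold SimpleGraph.IsAcyclic at hG
  push Not at hG
  obtain ⟨v, c, hc⟩ := hG
  have h3 := hc.three_le_length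
  obtain ⟨m, hm⟩ : ∃ m, c.length = m + 3 := ⟨c.length - 3, by omega⟩
  have hinj : Function.Injective fun i : Fin (m + 3) => c.getVert i := by
    intro i j hij
    have := hc.getVert_injOn' (show (i : ℕ) ≤ c.length - 1 by omega)
      (show (j : ℕ) ≤ c.length - 1 by omega) hij
    exact Fin.ext this
  have hcard : m + 3 ≤ n := by
    have := Fintype.card_le_of_injective _ hinj
    simpa using this
  refine ⟨⟨m, fun i => c.getVert i⟩, ?_, ?_⟩
  · rw [Finset.mem_sigma, Finset.mem_range, Finset.mem_filter]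
    exact ⟨by simp only; omega, Finset.mem_univ _, hinj⟩
  · intro e he
    obtain ⟨i, _, rfl⟩ := Finset.mem_image.mp he
    rw [SimpleGraph.mem_edgeSet]
    simp only
    have hi2 : (i : ℕ) < m + 3 := i.2
    have h4 : c.getVert ((i + 1 : Fin (m + 3)) : ℕ) = c.getVert ((i : ℕ) + 1) := by
      by_cases hi : (i : ℕ) + 1 = m + 3
      · have h5 : ((i + 1 : Fin (m + 3)) : ℕ) = 0 := by
          rw [Fin.val_add]
          simp [hi]
        rw [h5, hi, ← hm, SimpleGraph.Walk.getVert_zero, SimpleGraph.Walk.getVert_length]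
      · congr 1
        rw [Fin.val_add]
        have : (i : ℕ) + 1 < m + 3 := by omega
        simp [Nat.mod_eq_of_lt this]
    rw [h4]
    exact c.adj_getVert_succ (lt_of_lt_of_eq i.2 hm.symm)

lemma gnp_cyc {n : ℕ} {p : ℝ} (hp0 : 0 ≤ p) (hp1 : p ≤ 1) (hx : p * n ≤ 1 / 2) :
    gnp n p (fun G => ¬ G.IsAcyclic) ≤ 2 * (p * n) := by
  have hx0 : 0 ≤ p * n := by positivity
  refine (gnp_imp hp0 hp1 (fun G hG => exists_cyc G hG)).trans ?_
  refine (gnp_union hp0 hp1 _ (fun i : (m : ℕ) × (Fin (m + 3) → Fin n) =>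
    fun G : SimpleGraph (Fin n) => ∀ e ∈ cycE i.1 i.2, e ∈ G.edgeSet)).trans ?_
  rw [Finset.sum_sigma]
  have h1 : ∀ m ∈ Finset.range n,
      ∑ z ∈ (Finset.univ : Finset (Fin (m + 3) → Fin n)).filter Function.Injective,
        gnp n p (fun G => ∀ e ∈ cycE m z, e ∈ G.edgeSet) ≤ (p * n) * (1 / 2) ^ (m + 1) := by
    intro m _
    have e1 : ∀ z ∈ (Finset.univ : Finset (Fin (m + 3) → Fin n)).filter Function.Injective,
        gnp n p (fun G => ∀ e ∈ cycE m z, e ∈ G.edgeSet) = p ^ (m + 3) := by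
      intro z hz
      have hz' := (Finset.mem_filter.mp hz).2
      rw [gnp_present _ (cycE_diag m z hz'), cycE_card m z hz']
    rw [Finset.sum_congr rfl e1, Finset.sum_const, nsmul_eq_mul]
    have e2 : (((Finset.univ : Finset (Fin (m + 3) → Fin n)).filter Function.Injective).card : ℝ)
        ≤ (n : ℝ) ^ (m + 3) := by
      have := Finset.card_filter_le (Finset.univ : Finset (Fin (m + 3) → Fin n))
        Function.Injective
      rw [Finset.card_univ, Fintype.card_fun, Fintype.card_fin, Fintype.card_fin] at this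
      exact_mod_cast this
    calc _ ≤ (n : ℝ) ^ (m + 3) * p ^ (m + 3) := mul_le_mul_of_nonneg_right e2 (by positivity)
      _ = (p * n) * (p * n) ^ (m + 2) := by rw [← mul_pow]; ring
      _ ≤ (p * n) * (1 / 2) ^ (m + 2) :=
          mul_le_mul_of_nonneg_left (pow_le_pow_left₀ hx0 hx _) hx0
      _ ≤ (p * n) * (1 / 2) ^ (m + 1) := by
          refine mul_le_mul_of_nonneg_left ?_ hx0
          exact pow_le_pow_of_le_one (by norm_num) (by norm_num) (by omega)
  refine (Finset.sum_le_sum h1).trans ?_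
  have h2 : ∑ m ∈ Finset.range n, (p * n) * (1 / 2 : ℝ) ^ (m + 1) ≤ (p * n) * 1 := by
    rw [← Finset.mul_sum]
    refine mul_le_mul_of_nonneg_left ?_ hx0
    have h3 : ∀ k : ℕ, ∑ m ∈ Finset.range k, (1 / 2 : ℝ) ^ (m + 1) = 1 - (1 / 2) ^ k := by
      intro k
      induction k with
      | zero => simp
      | succ k ih => rw [Finset.sum_range_succ, ih]; ring
    rw [h3]
    have : (0 : ℝ) ≤ (1 / 2) ^ n := by positivity
    linarith
  linarith

/-- below `1/n` the graph is bipartite -/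
lemma bipartite_whp (p : ℕ → ℝ) (hp : ∀ n, 0 ≤ p n ∧ p n ≤ 1)
    (h : Tendsto (fun n : ℕ => p n * n) atTop (𝓝 0)) :
    Tendsto (fun n => gnp n (p n) (fun G => G.Colorable 2)) atTop (𝓝 1) := by
  have h1 : Tendsto (fun n : ℕ => 1 - 2 * (p n * n)) atTop (𝓝 1) := by
    have := (h.const_mul 2).const_sub 1
    simpa using this
  refine tendsto_of_tendsto_of_tendsto_of_le_of_le' h1 tendsto_const_nhds ?_ ?_
  · have h2 : ∀ᶠ n : ℕ in atTop, p n * n < 1 / 2 := h.eventually_lt_const (by norm_num)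
    filter_upwards [h2] with n hn
    have h3 := gnp_cyc (hp n).1 (hp n).2 hn.le
    rw [gnp_not] at h3
    have h4 : gnp n (p n) (fun G => G.IsAcyclic) ≤ gnp n (p n) (fun G => G.Colorable 2) :=
      gnp_imp (hp n).1 (hp n).2 fun G hG => hG.colorable_two
    linarith
  · exact Eventually.of_forall fun n => gnp_le_one (hp n).1 (hp n).2 _

end Pool.Agent.TH948.SH
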