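import Mathlib

set_option autoImplicit false

/-!
# Surjective homomorphisms from `G(n,p)`: definitions
-/

namespace Pool.Agent.TH948.SH

open Filter Topology Asymptotics
open scoped Classical

/-- The probability that the binomial random graph `G(n,p)` has the property `P`. -/
noncomputable def gnp (n : ℕ) (p : ℝ) (P : SimpleGraph (Fin n) → Prop) : ℝ :=
  ∑ G : SimpleGraph (Fin n),
    if P G then p ^ G.edgeSet.ncard * (1 - p) ^ (n.choose 2 - G.edgeSet.ncard) else 0

/-- `G` has a surjective homomorphism onto the graph with loops given by the symmetric relation `R`. -/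
def Onto {V : Type} (R : V → V → Prop) {n : ℕ} (G : SimpleGraph (Fin n)) : Prop :=
  ∃ f : Fin n → V, Function.Surjective f ∧ ∀ u v, G.Adj u v → R (f u) (f v)

/-- `q` is a threshold for the decreasing property `P`. -/
def IsThreshold (P : ∀ n : ℕ, SimpleGraph (Fin n) → Prop) (q : ℕ → ℝ) : Prop :=
  ∀ p : ℕ → ℝ, (∀ n, 0 ≤ p n ∧ p n ≤ 1) →
    (p =o[atTop] q → Tendsto (fun n => gnp n (p n) (P n)) atTop (𝓝 1)) ∧
    (q =o[atTop] p → Tendsto (fun n => gnp n (p n) (P n)) atTop (𝓝 0))

end Pool.Agent.TH948.SH
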