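import Pool.Agent.TH948.SH.F

set_option autoImplicit false
set_option linter.unusedSectionVars false

namespace Pool.Agent.TH948.SH

open scoped Classical

variable {V : Type} [Fintype V]

/-- a subgraph of a graph with a surjective homomorphism has one -/
lemma Onto.anti {R : V → V → Prop} {n : ℕ} {G G' : SimpleGraph (Fin n)} (h : G ≤ G')
    (hO : Onto R G') : Onto R G := by
  obtain ⟨f, hf, hh⟩ := hO
  exact ⟨f, hf, fun u v huv => hh u v (h huv)⟩

/-- placing the vertices of a set `s` of size `card V` on all of `V`, the others by `g` -/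
lemma exists_surj {n : ℕ} (s : Finset (Fin n)) (hs : s.card = Fintype.card V) (g : Fin n → V) :
    ∃ f : Fin n → V, Function.Surjective f ∧ ∀ v, v ∉ s → f v = g v := by
  have e : s ≃ V := Fintype.equivOfCardEq (by simpa using hs)
  refine ⟨fun v => if h : v ∈ s then e ⟨v, h⟩ else g v, ?_, ?_⟩
  · intro x
    refine ⟨(e.symm x).1, ?_⟩
    have h := (e.symm x).2
    simp only [h, dif_pos, Subtype.coe_eta, Equiv.apply_symm_apply]
  · intro v hv
    simp only [hv, dif_neg, not_false_iff]

/-- many isolated vertices and a homomorphism: surjective homomorphism -/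
lemma onto_of_isolated {R : V → V → Prop} {n : ℕ} {G : SimpleGraph (Fin n)}
    (s : Finset (Fin n)) (hs : s.card = Fintype.card V) (hiso : ∀ v ∈ s, ∀ w, ¬ G.Adj v w)
    (g : Fin n → V) (hg : ∀ u v, G.Adj u v → R (g u) (g v)) : Onto R G := by
  obtain ⟨f, hf, hfg⟩ := exists_surj s hs g
  refine ⟨f, hf, fun u v huv => ?_⟩
  have hu : u ∉ s := fun h => hiso u h v huv
  have hv : v ∉ s := fun h => hiso v h u huv.symm
  rw [hfg u hu, hfg v hv]
  exact hg u v huv

/-- an independent set of size `card V` and a dominating looped vertex -/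
lemma onto_of_indep {R : V → V → Prop} (hR : ∀ x y, R x y → R y x) {l : V} (hl : ∀ y, R l y)
    {n : ℕ} {G : SimpleGraph (Fin n)}
    (s : Finset (Fin n)) (hs : s.card = Fintype.card V) (hiso : ∀ v ∈ s, ∀ w ∈ s, ¬ G.Adj v w) :
    Onto R G := by
  obtain ⟨f, hf, hfg⟩ := exists_surj s hs (fun _ => l)
  refine ⟨f, hf, fun u v huv => ?_⟩
  by_cases hu : u ∈ s
  · by_cases hv : v ∈ s
    · exact absurd huv (hiso u hu v hv)
    · rw [hfg v hv]
      exact hR _ _ (hl _)
  · rw [hfg u hu]
    exact hl _

lemma colorable_of_onto {R : V → V → Prop} (hR : ∀ x, ¬ R x x) {n : ℕ} {G : SimpleGraph (Fin n)}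
    (h : Onto R G) : G.Colorable (Fintype.card V) := by
  obtain ⟨f, _, hh⟩ := h
  have C : G.Coloring V := SimpleGraph.Coloring.mk f (by
    intro u v huv he
    have := hh u v huv
    rw [he] at this
    exact hR _ this)
  exact C.colorable

lemma connected_of_onto {R : V → V → Prop} {n : ℕ} {G : SimpleGraph (Fin n)}
    (hG : G.Connected) (h : Onto R G) : ∀ x y, Relation.ReflTransGen R x y := by
  obtain ⟨f, hf, hh⟩ := h
  intro x y
  obtain ⟨u, rfl⟩ := hf x
  obtain ⟨v, rfl⟩ := hf y
  obtain ⟨w⟩ := hG.preconnected u v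
  induction w with
  | nil => exact Relation.ReflTransGen.refl
  | cons h p ih => exact Relation.ReflTransGen.head (hh _ _ h) ih

lemma common_of_onto {R : V → V → Prop} (hR : ∀ x y, R x y → R y x)
    (hdom : ¬ ∃ x, ∀ y, R x y) {n : ℕ} {G : SimpleGraph (Fin n)} (h : Onto R G) :
    ∃ U : Finset (Fin n), U.card ≤ Fintype.card V ∧ ∀ w, ∃ u ∈ U, ¬ G.Adj u w := by
  obtain ⟨f, hf, hh⟩ := h
  push Not at hdom
  choose y hy using hdom
  choose v hv using fun x => hf (y x)
  refine ⟨Finset.univ.image v, Finset.card_image_le.trans (by simp), fun w => ?_⟩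
  refine ⟨v (f w), Finset.mem_image_of_mem _ (Finset.mem_univ _), fun hadj => ?_⟩
  have h1 := hh _ _ hadj
  rw [hv] at h1
  exact hy _ (hR _ _ h1)

/-- a finite walk from `l` through all the vertices -/
lemma exists_walk {R : V → V → Prop} (hc : ∀ x y, Relation.ReflTransGen R x y) (l : V) :
    ∃ (L : ℕ) (w : ℕ → V), w 0 = l ∧ (∀ i, i < L → R (w i) (w (i + 1))) ∧
      ∀ x, ∃ i, i ≤ L ∧ w i = x := by
  have hpath : ∀ x y, Relation.ReflTransGen R x y → ∃ (m : ℕ) (u : ℕ → V), u 0 = x ∧ u m = y ∧
      ∀ i, i < m → R (u i) (u (i + 1)) := by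
    intro x y h
    induction h with
    | refl => exact ⟨0, fun _ => x, rfl, rfl, fun i hi => absurd hi (by omega)⟩
    | @tail b c _ hbc ih =>
      obtain ⟨m, u, h0, hm, hu⟩ := ih
      refine ⟨m + 1, fun i => if i ≤ m then u i else c, by simp [h0], by simp, ?_⟩
      intro i hi
      by_cases h1 : i < m
      · simp only [show i ≤ m by omega, show i + 1 ≤ m by omega, if_true]
        exact hu i h1
      · have h2 : i = m := by omega
        subst h2
        simp only [le_refl, if_true, show ¬ (i + 1 ≤ i) by omega, if_false, hm]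
        exact hbc
  have key : ∀ A : Finset V, ∃ (L : ℕ) (w : ℕ → V), w 0 = l ∧
      (∀ i, i < L → R (w i) (w (i + 1))) ∧ ∀ x ∈ A, ∃ i, i ≤ L ∧ w i = x := by
    intro A
    induction A using Finset.induction_on with
    | empty => exact ⟨0, fun _ => l, rfl, fun i hi => absurd hi (by omega), by simp⟩
    | insert a A _ ih =>
      obtain ⟨L, w, h0, hw, hA⟩ := ih
      obtain ⟨m, u, hu0, hum, hu⟩ := hpath (w L) a (hc _ _)
      refine ⟨L + m, fun i => if i ≤ L then w i else u (i - L), by simp [h0], ?_, ?_⟩
      · intro i hi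
        by_cases h1 : i < L
        · simp only [show i ≤ L by omega, show i + 1 ≤ L by omega, if_true]
          exact hw i h1
        · by_cases h2 : i = L
          · subst h2
            simp only [le_refl, if_true, show ¬ (i + 1 ≤ i) by omega, if_false]
            have := hu 0 (by omega)
            rw [hu0] at this
            simpa using this
          · simp only [show ¬ i ≤ L by omega, show ¬ i + 1 ≤ L by omega, if_false]
            have := hu (i - L) (by omega)
            rwa [show i - L + 1 = i + 1 - L by omega] at this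
      · intro x hx
        rcases Finset.mem_insert.mp hx with rfl | hx
        · refine ⟨L + m, le_refl _, ?_⟩
          by_cases hm : m = 0
          · subst hm
            simp only [add_zero, le_refl, if_true]
            rw [← hu0, hum]
          · simp only [show ¬ L + m ≤ L by omega, if_false, Nat.add_sub_cancel_left]
            exact hum
        · obtain ⟨i, hi, hix⟩ := hA x hx
          exact ⟨i, by omega, by simp [hi, hix]⟩
  obtain ⟨L, w, h0, hw, hA⟩ := key Finset.univ
  exact ⟨L, w, h0, hw, fun x => hA x (Finset.mem_univ x)⟩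

/-- the map given by the distances from a vertex with a tree like neighbourhood -/
lemma onto_of_tree {R : V → V → Prop} (hR : ∀ x y, R x y → R y x) {l : V} (hl : R l l)
    {L : ℕ} {w : ℕ → V} (h0 : w 0 = l) (hw : ∀ i, i < L → R (w i) (w (i + 1)))
    (hx : ∀ x, ∃ i, i ≤ L ∧ w i = x) {n : ℕ} {G : SimpleGraph (Fin n)} (hG : G.Connected)
    (v u : Fin n)
    (h1 : ¬ ∃ S : Finset (Fin n), v ∈ S ∧ S.card ≤ 2 * L ∧ S.card ≤ eIn G S)
    (h2 : ¬ ∃ S : Finset (Fin n), v ∈ S ∧ u ∈ S ∧ S.card ≤ 2 * L ∧ S.card ≤ eIn G S + 1) :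
    Onto R G := by
  have hdist : L ≤ G.dist v u := by
    by_contra h
    push Not at h
    obtain ⟨S, a, b, c, d⟩ := exists_path_set G hG v u L h
    exact h2 ⟨S, a, b, by omega, d⟩
  have hlev : ∀ x y, G.Adj x y → G.dist v x = G.dist v y → L ≤ G.dist v x := by
    intro x y hxy he
    by_contra h
    push Not at h
    obtain ⟨S, a, c, d⟩ := exists_dense_set G hG v x y L h hxy he
    exact h1 ⟨S, a, c, d⟩
  refine ⟨fun z => w (L - G.dist v z), ?_, ?_⟩
  · intro x
    obtain ⟨i, hi, rfl⟩ := hx x
    -- a vertex at distance `L - i`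
    have : ∃ z, G.dist v z = L - i := by
      obtain ⟨P, hP⟩ := hG.exists_walk_length_eq_dist v u
      refine ⟨P.getVert (L - i), ?_⟩
      have h3 : G.dist v (P.getVert (L - i)) ≤ L - i :=
        (SimpleGraph.dist_le (P.take (L - i))).trans (by
          rw [SimpleGraph.Walk.take_length]; exact min_le_left _ _)
      have h4 : G.dist (P.getVert (L - i)) u ≤ P.length - (L - i) :=
        (SimpleGraph.dist_le (P.drop (L - i))).trans (by
          rw [SimpleGraph.Walk.drop_length])
      have h5 : G.dist v u ≤ G.dist v (P.getVert (L - i)) + G.dist (P.getVert (L - i)) u :=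
        hG.dist_triangle
      omega
    obtain ⟨z, hz⟩ := this
    refine ⟨z, ?_⟩
    show w (L - G.dist v z) = w i
    rw [hz]
    congr 1
    omega
  · intro x y hxy
    show R (w (L - G.dist v x)) (w (L - G.dist v y))
    have hxy1 : G.dist v y ≤ G.dist v x + 1 := by
      have := hG.dist_triangle (u := v) (v := x) (w := y)
      rw [SimpleGraph.dist_eq_one_iff_adj.mpr hxy] at this
      exact this
    have hxy2 : G.dist v x ≤ G.dist v y + 1 := by
      have := hG.dist_triangle (u := v) (v := y) (w := x)
      rw [SimpleGraph.dist_eq_one_iff_adj.mpr hxy.symm] at this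
      exact this
    rcases Nat.lt_trichotomy (G.dist v x) (G.dist v y) with h | h | h
    · have h3 : G.dist v y = G.dist v x + 1 := by omega
      by_cases h4 : G.dist v x < L
      · have := hw (L - G.dist v y) (by omega)
        rw [show L - G.dist v y + 1 = L - G.dist v x by omega] at this
        exact hR _ _ this
      · rw [show L - G.dist v x = 0 by omega, show L - G.dist v y = 0 by omega, h0]
        exact hl
    · have := hlev x y hxy h
      rw [show L - G.dist v x = 0 by omega, show L - G.dist v y = 0 by omega, h0]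
      exact hl
    · have h3 : G.dist v x = G.dist v y + 1 := by omega
      by_cases h4 : G.dist v y < L
      · have := hw (L - G.dist v x) (by omega)
        rw [show L - G.dist v x + 1 = L - G.dist v y by omega] at this
        exact this
      · rw [show L - G.dist v x = 0 by omega, show L - G.dist v y = 0 by omega, h0]
        exact hl

end Pool.Agent.TH948.SH
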