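import Pool.Agent.TH948.SH.Base

set_option autoImplicit false

/-!
# Small sets with many edges in `G(n,p)`, `p = n ^ (-1 + δ)`
-/

namespace Pool.Agent.TH948.SH

open Filter Topology Asymptotics
open scoped Classical

/-- number of edges inside `S` -/
noncomputable def eIn {n : ℕ} (G : SimpleGraph (Fin n)) (S : Finset (Fin n)) : ℕ :=
  {e | e ∈ G.edgeSet ∧ ∀ v ∈ e, v ∈ S}.ncard

private lemma exists_edges {n : ℕ} (G : SimpleGraph (Fin n)) (S : Finset (Fin n)) (m : ℕ)
    (h : m ≤ eIn G S) :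
    ∃ T ∈ (S.sym2.filter fun e => ¬ e.IsDiag).powersetCard m, ∀ e ∈ T, e ∈ G.edgeSet := by
  have hfin : ({e | e ∈ G.edgeSet ∧ ∀ v ∈ e, v ∈ S} : Set (Sym2 (Fin n))).Finite :=
    Set.toFinite _
  have h' : m ≤ hfin.toFinset.card := by
    rw [← Set.ncard_eq_toFinset_card _ hfin]
    exact h
  obtain ⟨T, hT, hc⟩ := Finset.exists_subset_card_eq h'
  refine ⟨T, ?_, ?_⟩
  · rw [Finset.mem_powersetCard]
    refine ⟨fun e he => ?_, hc⟩
    have := (hfin.mem_toFinset).1 (hT he)
    rw [Finset.mem_filter, Finset.mem_sym2_iff]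
    exact ⟨this.2, G.not_isDiag_of_mem_edgeSet this.1⟩
  · intro e he
    exact ((hfin.mem_toFinset).1 (hT he)).1

private lemma prob_eIn {n : ℕ} {p : ℝ} (hp0 : 0 ≤ p) (hp1 : p ≤ 1) (S : Finset (Fin n)) (m : ℕ) :
    gnp n p (fun G => m ≤ eIn G S) ≤ 2 ^ ((S.card + 1).choose 2) * p ^ m := by
  calc gnp n p (fun G => m ≤ eIn G S)
      ≤ gnp n p (fun G => ∃ T ∈ (S.sym2.filter fun e => ¬ e.IsDiag).powersetCard m,
          ∀ e ∈ T, e ∈ G.edgeSet) := gnp_imp hp0 hp1 fun G h => exists_edges G S m h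
    _ ≤ ∑ T ∈ (S.sym2.filter fun e => ¬ e.IsDiag).powersetCard m,
          gnp n p (fun G => ∀ e ∈ T, e ∈ G.edgeSet) := gnp_union hp0 hp1 _ _
    _ = ∑ T ∈ (S.sym2.filter fun e => ¬ e.IsDiag).powersetCard m, p ^ m := by
        refine Finset.sum_congr rfl fun T hT => ?_
        rw [Finset.mem_powersetCard] at hT
        rw [gnp_present T fun e he => (Finset.mem_filter.1 (hT.1 he)).2, hT.2]
    _ ≤ 2 ^ ((S.card + 1).choose 2) * p ^ m := by
        rw [Finset.sum_const, nsmul_eq_mul]
        refine mul_le_mul_of_nonneg_right ?_ (pow_nonneg hp0 m)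
        have h1 : ((S.sym2.filter fun e => ¬ e.IsDiag).powersetCard m).card ≤
            2 ^ ((S.card + 1).choose 2) := by
          calc ((S.sym2.filter fun e => ¬ e.IsDiag).powersetCard m).card
              ≤ ((S.sym2.filter fun e => ¬ e.IsDiag).powerset).card :=
                Finset.card_le_card fun T hT =>
                  Finset.mem_powerset.2 (Finset.mem_powersetCard.1 hT).1
            _ = 2 ^ (S.sym2.filter fun e => ¬ e.IsDiag).card := Finset.card_powerset _
            _ ≤ 2 ^ S.sym2.card := Nat.pow_le_pow_right (by norm_num) (Finset.card_filter_le _ _)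
            _ = 2 ^ ((S.card + 1).choose 2) := by rw [Finset.card_sym2]
        exact_mod_cast h1

private lemma card_family {n : ℕ} (W : Finset (Fin n)) (N : ℕ) :
    (Finset.univ.filter fun S : Finset (Fin n) => W ⊆ S ∧ S.card = N).card ≤
      n ^ (N - W.card) := by
  calc (Finset.univ.filter fun S : Finset (Fin n) => W ⊆ S ∧ S.card = N).card
      ≤ ((Finset.univ : Finset (Fin n)).powersetCard (N - W.card)).card := by
        refine Finset.card_le_card_of_injOn (fun S => S \ W) ?_ ?_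
        · intro S hS
          have hS' := (Finset.mem_filter.1 (Finset.mem_coe.1 hS)).2
          refine Finset.mem_coe.2 (Finset.mem_powersetCard.2 ⟨Finset.subset_univ _, ?_⟩)
          show (S \ W).card = N - W.card
          rw [Finset.card_sdiff_of_subset hS'.1, hS'.2]
        · intro S hS S' hS' h
          have h1 := (Finset.mem_filter.1 (Finset.mem_coe.1 hS)).2.1
          have h2 := (Finset.mem_filter.1 (Finset.mem_coe.1 hS')).2.1
          have h3 : S \ W = S' \ W := h
          rw [← Finset.sdiff_union_of_subset h1, h3, Finset.sdiff_union_of_subset h2]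
    _ = n.choose (N - W.card) := by
        rw [Finset.card_powersetCard, Finset.card_univ, Fintype.card_fin]
    _ ≤ n ^ (N - W.card) := Nat.choose_le_pow _ _

private lemma pow_bound {n : ℕ} (hn : 1 ≤ n) (K j : ℕ) (hj : j + 1 ≤ K) (δ : ℝ) (hδ : 0 < δ) :
    (n : ℝ) ^ j * ((n : ℝ) ^ (-1 + δ)) ^ (j + 1) ≤ (n : ℝ) ^ (-1 + δ * K) := by
  have hn1 : (1 : ℝ) ≤ n := by exact_mod_cast hn
  have hn0 : (0 : ℝ) < n := lt_of_lt_of_le one_pos hn1
  rw [← Real.rpow_natCast, ← Real.rpow_natCast, ← Real.rpow_mul hn0.le, ← Real.rpow_add hn0]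
  refine Real.rpow_le_rpow_of_exponent_le hn1 ?_
  have h1 : ((j : ℝ) + 1) ≤ K := by exact_mod_cast hj
  push_cast
  nlinarith

private lemma general {n : ℕ} (hn : 1 ≤ n) (K : ℕ) (δ : ℝ) (hδ : 0 < δ) (hK : δ * K < 1) (hK1 : 1 ≤ K)
    (W : Finset (Fin n)) (hW : 1 ≤ W.card) :
    gnp n ((n : ℝ) ^ (-1 + δ)) (fun G => ∃ S : Finset (Fin n), W ⊆ S ∧ S.card ≤ K ∧
      S.card + 1 ≤ eIn G S + W.card) ≤
      (K + 1) * (2 ^ ((K + 1).choose 2) * (n : ℝ) ^ (-1 + δ * K)) := by
  have hn1 : (1 : ℝ) ≤ n := by exact_mod_cast hn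
  have hn0 : (0 : ℝ) < n := lt_of_lt_of_le one_pos hn1
  have hδ1 : δ < 1 := by
    have h1 : (1 : ℝ) ≤ K := by exact_mod_cast hK1
    nlinarith
  have hp0 : 0 ≤ (n : ℝ) ^ (-1 + δ) := Real.rpow_nonneg hn0.le _
  have hp1 : (n : ℝ) ^ (-1 + δ) ≤ 1 := Real.rpow_le_one_of_one_le_of_nonpos hn1 (by linarith)
  have hB0 : 0 ≤ 2 ^ ((K + 1).choose 2) * (n : ℝ) ^ (-1 + δ * K) :=
    mul_nonneg (by positivity) (Real.rpow_nonneg hn0.le _)
  have hkey := @pow_bound n hn K
  set p : ℝ := (n : ℝ) ^ (-1 + δ) with hp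
  set F : Finset (Finset (Fin n)) := Finset.univ.filter fun S => W ⊆ S ∧ S.card ≤ K with hF
  calc gnp n p (fun G => ∃ S : Finset (Fin n), W ⊆ S ∧ S.card ≤ K ∧
        S.card + 1 ≤ eIn G S + W.card)
      ≤ gnp n p (fun G => ∃ S ∈ F, S.card + 1 - W.card ≤ eIn G S) := by
        refine gnp_imp hp0 hp1 fun G h => ?_
        obtain ⟨S, h1, h2, h3⟩ := h
        exact ⟨S, Finset.mem_filter.2 ⟨Finset.mem_univ _, h1, h2⟩, by omega⟩
    _ ≤ ∑ S ∈ F, gnp n p (fun G => S.card + 1 - W.card ≤ eIn G S) := gnp_union hp0 hp1 _ _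
    _ ≤ ∑ S ∈ F, 2 ^ ((K + 1).choose 2) * p ^ (S.card + 1 - W.card) := by
        refine Finset.sum_le_sum fun S hS => (prob_eIn hp0 hp1 S _).trans ?_
        refine mul_le_mul_of_nonneg_right ?_ (pow_nonneg hp0 _)
        have h1 : S.card ≤ K := (Finset.mem_filter.1 hS).2.2
        exact pow_le_pow_right₀ (by norm_num) (Nat.choose_le_choose 2 (by omega))
    _ = ∑ N ∈ Finset.range (K + 1), ∑ S ∈ F.filter (fun S => S.card = N),
          2 ^ ((K + 1).choose 2) * p ^ (S.card + 1 - W.card) := by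
        refine (Finset.sum_fiberwise_of_maps_to (fun S hS => ?_) _).symm
        have h1 : S.card ≤ K := (Finset.mem_filter.1 hS).2.2
        exact Finset.mem_range.2 (by omega)
    _ ≤ ∑ N ∈ Finset.range (K + 1), 2 ^ ((K + 1).choose 2) * (n : ℝ) ^ (-1 + δ * K) := by
        refine Finset.sum_le_sum fun N hN => ?_
        have hNK : N ≤ K := by
          have := Finset.mem_range.1 hN
          omega
        by_cases hNW : N < W.card
        · have h0 : F.filter (fun S => S.card = N) = ∅ := by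
            rw [Finset.filter_eq_empty_iff]
            intro S hS hSN
            have h1 : W.card ≤ S.card := Finset.card_le_card (Finset.mem_filter.1 hS).2.1
            omega
          rw [h0, Finset.sum_empty]
          exact hB0
        · have h1 : ∀ S ∈ F.filter (fun S => S.card = N),
              2 ^ ((K + 1).choose 2) * p ^ (S.card + 1 - W.card) =
                2 ^ ((K + 1).choose 2) * p ^ (N - W.card + 1) := by
            intro S hS
            have h2 : S.card = N := (Finset.mem_filter.1 hS).2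
            rw [h2, show N + 1 - W.card = N - W.card + 1 by omega]
          rw [Finset.sum_congr rfl h1, Finset.sum_const, nsmul_eq_mul]
          have h3 : (F.filter (fun S => S.card = N)).card ≤ n ^ (N - W.card) := by
            refine le_trans (Finset.card_le_card fun S hS => ?_) (card_family W N)
            have h4 := Finset.mem_filter.1 hS
            exact Finset.mem_filter.2 ⟨Finset.mem_univ _, (Finset.mem_filter.1 h4.1).2.1, h4.2⟩
          have h3' : ((F.filter (fun S => S.card = N)).card : ℝ) ≤ (n : ℝ) ^ (N - W.card) := by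
            exact_mod_cast h3
          have h5 := hkey (N - W.card) (by omega) δ hδ
          calc ((F.filter (fun S => S.card = N)).card : ℝ) *
                (2 ^ ((K + 1).choose 2) * p ^ (N - W.card + 1))
              ≤ (n : ℝ) ^ (N - W.card) * (2 ^ ((K + 1).choose 2) * p ^ (N - W.card + 1)) :=
                mul_le_mul_of_nonneg_right h3' (mul_nonneg (by positivity) (pow_nonneg hp0 _))
            _ = 2 ^ ((K + 1).choose 2) * ((n : ℝ) ^ (N - W.card) * p ^ (N - W.card + 1)) := by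
                ring
            _ ≤ 2 ^ ((K + 1).choose 2) * (n : ℝ) ^ (-1 + δ * K) :=
                mul_le_mul_of_nonneg_left h5 (by positivity)
    _ = (K + 1) * (2 ^ ((K + 1).choose 2) * (n : ℝ) ^ (-1 + δ * K)) := by
        rw [Finset.sum_const, Finset.card_range, nsmul_eq_mul]
        push_cast
        ring

private lemma eventually_small (K : ℕ) (δ : ℝ) (hK : δ * K < 1) (ε : ℝ) (hε : 0 < ε) :
    ∀ᶠ n : ℕ in atTop, (K + 1) * (2 ^ ((K + 1).choose 2) * (n : ℝ) ^ (-1 + δ * K)) ≤ ε := by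
  have h1 : Tendsto (fun n : ℕ => (n : ℝ) ^ (-(1 - δ * K))) atTop (𝓝 0) :=
    (tendsto_rpow_neg_atTop (by linarith)).comp tendsto_natCast_atTop_atTop
  have h2 : Tendsto (fun n : ℕ => (K + 1) * (2 ^ ((K + 1).choose 2) *
      (n : ℝ) ^ (-(1 - δ * K)))) atTop (𝓝 0) := by
    have := (h1.const_mul ((2 : ℝ) ^ ((K + 1).choose 2))).const_mul ((K : ℝ) + 1)
    simpa using this
  filter_upwards [h2.eventually (ge_mem_nhds hε)] with n hn
  rw [show -1 + δ * K = -(1 - δ * K) by ring]
  exact hn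

private lemma gnp_false {n : ℕ} {p : ℝ} {P : SimpleGraph (Fin n) → Prop} (h : ∀ G, ¬ P G) :
    gnp n p P = 0 := by
  unfold gnp
  exact Finset.sum_eq_zero fun G _ => if_neg (h G)

/-- a fixed vertex is in no small set with as many edges as vertices -/
lemma no_dense_at (K : ℕ) (δ : ℝ) (hδ : 0 < δ) (hK : δ * K < 1) (ε : ℝ) (hε : 0 < ε) :
    ∀ᶠ n : ℕ in atTop, ∀ v : Fin n,
      gnp n ((n : ℝ) ^ (-1 + δ)) (fun G => ∃ S : Finset (Fin n), v ∈ S ∧ S.card ≤ K ∧
        S.card ≤ eIn G S) ≤ ε := by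
  rcases Nat.eq_zero_or_pos K with rfl | hK1
  · refine Eventually.of_forall fun n v => ?_
    rw [gnp_false]
    · exact hε.le
    · rintro G ⟨S, h1, h2, -⟩
      have := Finset.card_pos.2 ⟨v, h1⟩
      omega
  · filter_upwards [eventually_small K δ hK ε hε, eventually_ge_atTop 1] with n hn hn1 v
    refine le_trans (le_of_eq ?_) ((general hn1 K δ hδ hK hK1 {v} (by simp)).trans hn)
    congr 1
    funext G
    simp only [Finset.singleton_subset_iff, Finset.card_singleton, add_le_add_iff_right]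

/-- two fixed vertices are in no small connected set -/
lemma no_path_between (K : ℕ) (δ : ℝ) (hδ : 0 < δ) (hK : δ * K < 1) (ε : ℝ) (hε : 0 < ε) :
    ∀ᶠ n : ℕ in atTop, ∀ v u : Fin n, v ≠ u →
      gnp n ((n : ℝ) ^ (-1 + δ)) (fun G => ∃ S : Finset (Fin n), v ∈ S ∧ u ∈ S ∧ S.card ≤ K ∧
        S.card ≤ eIn G S + 1) ≤ ε := by
  rcases Nat.eq_zero_or_pos K with rfl | hK1
  · refine Eventually.of_forall fun n v u _ => ?_
    rw [gnp_false]
    · exact hε.le
    · rintro G ⟨S, h1, -, h2, -⟩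
      have := Finset.card_pos.2 ⟨v, h1⟩
      omega
  · filter_upwards [eventually_small K δ hK ε hε, eventually_ge_atTop 1] with n hn hn1 v u hvu
    refine le_trans (le_of_eq ?_) ((general hn1 K δ hδ hK hK1 {v, u} (by
      rw [Finset.card_pair hvu]; norm_num)).trans hn)
    congr 1
    funext G
    rw [Finset.card_pair hvu]
    simp only [Finset.insert_subset_iff, Finset.singleton_subset_iff, and_assoc]
    refine propext ⟨?_, ?_⟩
    · rintro ⟨S, h1, h2, h3, h4⟩
      exact ⟨S, h1, h2, h3, by omega⟩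
    · rintro ⟨S, h1, h2, h3, h4⟩
      exact ⟨S, h1, h2, h3, by omega⟩

end Pool.Agent.TH948.SH
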