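import Pool.Agent.TH948.SH.E
import Pool.Agent.TH451.SH.Core

set_option autoImplicit false

namespace Pool.Agent.TH948.SH

/-- two vertices of a connected graph at distance less than `L` -/
lemma exists_path_set {n : ℕ} (G : SimpleGraph (Fin n)) (hG : G.Connected) (v u : Fin n) (L : ℕ)
    (hL : G.dist v u < L) :
    ∃ S : Finset (Fin n), v ∈ S ∧ u ∈ S ∧ S.card ≤ L ∧ S.card ≤ eIn G S + 1 :=
  Pool.Agent.TH451.SH.exists_path_set hG v u L hL

/-- an edge inside a level of the breadth first search from `v` -/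
lemma exists_dense_set {n : ℕ} (G : SimpleGraph (Fin n)) (hG : G.Connected) (v x y : Fin n)
    (L : ℕ) (hL : G.dist v x < L) (hxy : G.Adj x y) (hd : G.dist v x = G.dist v y) :
    ∃ S : Finset (Fin n), v ∈ S ∧ S.card ≤ 2 * L ∧ S.card ≤ eIn G S :=
  Pool.Agent.TH451.SH.exists_dense_set hG v x y L hL hxy hd

end Pool.Agent.TH948.SH
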