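import Pool.Agent.TH948.SH.Base

set_option autoImplicit false

namespace Pool.Agent.TH948.SH

open Filter Topology Asymptotics
open scoped Classical

namespace GG

/-- union bound over the sets of size `m` -/
lemma indep_le {n : ℕ} {p : ℝ} (hp0 : 0 ≤ p) (hp1 : p ≤ 1) (m : ℕ) :
    gnp n p (fun G => ∃ s ∈ Finset.powersetCard m (Finset.univ : Finset (Fin n)),
      ∀ x ∈ s, ∀ y ∈ s, ¬ G.Adj x y) ≤ (n : ℝ) ^ m * (1 - p) ^ (m.choose 2) := by
  refine (gnp_union hp0 hp1 _ (fun s G => ∀ x ∈ s, ∀ y ∈ s, ¬ G.Adj x y)).trans ?_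
  have hq : 0 ≤ 1 - p := by linarith
  have h1 : ∀ s ∈ Finset.powersetCard m (Finset.univ : Finset (Fin n)),
      gnp n p (fun G => ∀ x ∈ s, ∀ y ∈ s, ¬ G.Adj x y) ≤ (1 - p) ^ (m.choose 2) := by
    intro s hs
    rw [Finset.mem_powersetCard] at hs
    have hT : ∀ e ∈ s.offDiag.image Sym2.mk.uncurry, ¬ e.IsDiag := by
      intro e he
      obtain ⟨⟨x, y⟩, hxy, rfl⟩ := Finset.mem_image.1 he
      rw [Finset.mem_offDiag] at hxy
      exact fun h => hxy.2.2 h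
    rw [← hs.2, ← Sym2.card_image_offDiag, ← gnp_absent _ hT]
    refine gnp_imp hp0 hp1 ?_
    intro G hG e he
    obtain ⟨⟨x, y⟩, hxy, rfl⟩ := Finset.mem_image.1 he
    rw [Finset.mem_offDiag] at hxy
    exact hG x hxy.1 y hxy.2.1
  refine (Finset.sum_le_card_nsmul _ _ _ h1).trans ?_
  rw [nsmul_eq_mul, Finset.card_powersetCard, Finset.card_univ, Fintype.card_fin]
  refine mul_le_mul_of_nonneg_right ?_ (pow_nonneg hq _)
  exact_mod_cast Nat.choose_le_pow n m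

/-- the estimate for one `n` -/
lemma est {N X p : ℝ} {n m : ℕ} (hN : N = n) (hn : 1 ≤ n) (hX : 0 < X) (hX2 : 2 ≤ X ^ 2)
    (hl : 8 * Real.log N ≤ X) (hm : X ^ 2 ≤ m) (hp0 : 0 ≤ p) (hp1 : p ≤ 1) (hp : X⁻¹ ≤ p) :
    N ^ m * (1 - p) ^ (m.choose 2) ≤ 1 / N := by
  have hn1 : (1 : ℝ) ≤ N := by rw [hN]; exact_mod_cast hn
  have hN0 : 0 < N := by linarith
  have hlog : 0 ≤ Real.log N := Real.log_nonneg hn1
  have hm1 : (1 : ℝ) ≤ m := by linarith
  have h1 : (1 - p) ^ (m.choose 2) ≤ Real.exp (-(p * (m.choose 2 : ℝ))) := by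
    have h2 : (1 - p) ^ (m.choose 2) ≤ (Real.exp (-p)) ^ (m.choose 2) :=
      pow_le_pow_left₀ (by linarith) (Real.one_sub_le_exp_neg p) _
    rw [← Real.exp_nat_mul] at h2
    refine h2.trans (le_of_eq ?_)
    congr 1
    ring
  have h3 : N ^ m = Real.exp (m * Real.log N) := by
    rw [Real.exp_nat_mul, Real.exp_log hN0]
  have h4 : ((m.choose 2 : ℕ) : ℝ) = m * (m - 1) / 2 := Nat.cast_choose_two ℝ m
  have h5 : X / 4 ≤ p * (m - 1) / 2 := by
    have h6 : X ^ 2 / 2 ≤ (m : ℝ) - 1 := by linarith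
    have h7 : X⁻¹ * (X ^ 2 / 2) ≤ p * ((m : ℝ) - 1) :=
      mul_le_mul hp h6 (by positivity) hp0
    have h8 : X⁻¹ * (X ^ 2 / 2) = X / 2 := by
      field_simp
    rw [h8] at h7
    linarith
  have h9 : (m : ℝ) * Real.log N + -(p * ((m.choose 2 : ℕ) : ℝ)) ≤ -Real.log N := by
    rw [h4]
    have h10 : Real.log N - p * (m - 1) / 2 ≤ -Real.log N := by linarith
    have h11 : (m : ℝ) * (Real.log N - p * (m - 1) / 2) ≤ (m : ℝ) * (-Real.log N) :=
      mul_le_mul_of_nonneg_left h10 (by linarith)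
    have h12 : (m : ℝ) * (-Real.log N) ≤ -Real.log N := by nlinarith
    calc (m : ℝ) * Real.log N + -(p * (m * (m - 1) / 2)) =
        (m : ℝ) * (Real.log N - p * (m - 1) / 2) := by ring
      _ ≤ _ := h11.trans h12
  calc N ^ m * (1 - p) ^ (m.choose 2) ≤
      Real.exp (m * Real.log N) * Real.exp (-(p * (m.choose 2 : ℝ))) := by
        rw [h3]
        exact mul_le_mul_of_nonneg_left h1 (Real.exp_pos _).le
    _ = Real.exp (m * Real.log N + -(p * (m.choose 2 : ℝ))) := (Real.exp_add _ _).symm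
    _ ≤ Real.exp (-Real.log N) := Real.exp_le_exp.2 h9
    _ = 1 / N := by rw [Real.exp_neg, Real.exp_log hN0, one_div]

end GG

/-- the independence number is small -/
lemma no_indep (δ : ℝ) (hδ : 0 < δ) (hδ1 : δ < 1 / 4) (p : ℕ → ℝ) (hp : ∀ n, 0 ≤ p n ∧ p n ≤ 1)
    (h : ∀ᶠ n : ℕ in atTop, (n : ℝ) ^ (-δ) ≤ p n) :
    Tendsto (fun n => gnp n (p n) (fun G => ∃ s : Finset (Fin n), (n : ℝ) ^ (2 * δ) ≤ s.card ∧
      ∀ x ∈ s, ∀ y ∈ s, ¬ G.Adj x y)) atTop (𝓝 0) := by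
  have hlog : ∀ᶠ n : ℕ in atTop, 8 * Real.log n ≤ (n : ℝ) ^ δ := by
    have h1 := (isLittleO_log_rpow_atTop hδ).bound (show (0 : ℝ) < 1 / 8 by norm_num)
    have h2 := tendsto_natCast_atTop_atTop.eventually h1
    filter_upwards [h2, eventually_ge_atTop 1] with n hn hn1
    have hn1' : (1 : ℝ) ≤ n := by exact_mod_cast hn1
    rw [Real.norm_of_nonneg (Real.log_nonneg hn1'),
      Real.norm_of_nonneg (Real.rpow_nonneg (by linarith) _)] at hn
    linarith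
  have hbig : ∀ᶠ n : ℕ in atTop, (2 : ℝ) ≤ (n : ℝ) ^ (2 * δ) :=
    ((tendsto_rpow_atTop (by linarith : 0 < 2 * δ)).comp
      tendsto_natCast_atTop_atTop).eventually_ge_atTop 2
  refine squeeze_zero' (Eventually.of_forall fun n => gnp_nonneg (hp n).1 (hp n).2 _) ?_
    tendsto_one_div_atTop_nhds_zero_nat
  filter_upwards [h, hlog, hbig, eventually_ge_atTop 1] with n hn hl h2 hn1
  have hn0 : (0 : ℝ) < n := by
    have : 0 < n := by omega
    exact_mod_cast this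
  have e1 : (n : ℝ) ^ (2 * δ) = ((n : ℝ) ^ δ) ^ 2 := by
    rw [mul_comm, Real.rpow_mul hn0.le]
    exact Real.rpow_natCast _ 2
  have e2 : (n : ℝ) ^ (-δ) = ((n : ℝ) ^ δ)⁻¹ := Real.rpow_neg hn0.le δ
  refine le_trans ?_ ((GG.indep_le (hp n).1 (hp n).2 ⌈(n : ℝ) ^ (2 * δ)⌉₊).trans
    (GG.est rfl hn1 (Real.rpow_pos_of_pos hn0 δ) (by rw [← e1]; exact h2) hl
      (by rw [← e1]; exact Nat.le_ceil _) (hp n).1 (hp n).2 (by rw [← e2]; exact hn)))
  refine gnp_imp (hp n).1 (hp n).2 ?_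
  rintro G ⟨s, hs1, hs2⟩
  obtain ⟨t, ht1, ht2⟩ := Finset.exists_subset_card_eq (Nat.ceil_le.2 hs1)
  exact ⟨t, Finset.mem_powersetCard.2 ⟨Finset.subset_univ _, ht2⟩,
    fun x hx y hy => hs2 x (ht1 hx) y (ht1 hy)⟩

end Pool.Agent.TH948.SH
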