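import Pool.Agent.TH948.SH.Base

set_option autoImplicit false

/-!
# Common neighbourhoods are large
-/

namespace Pool.Agent.TH948.SH

open Filter Topology Asymptotics
open scoped Classical

namespace HH

variable {n : ℕ} {p : ℝ}

/-- no vertex of `M` is adjacent to all vertices of `U` -/
lemma block_le (hp0 : 0 ≤ p) (hp1 : p ≤ 1) (U M : Finset (Fin n)) (hd : ∀ w ∈ M, w ∉ U) :
    gnp n p (fun G => ∀ w ∈ M, ¬ ∀ u ∈ U, G.Adj u w) ≤
      Real.exp (-((M.card : ℝ) * p ^ U.card)) := by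
  have hinj : ∀ w : Fin n, Function.Injective fun u : Fin n => s(u, w) := by
    intro w u u' h
    have h' : s(u, w) = s(u', w) := h
    rw [Sym2.eq_iff] at h'
    rcases h' with ⟨h1, _⟩ | ⟨h1, h2⟩
    · exact h1
    · rw [h1, h2]
  have h1 := gnp_blocks_present (n := n) (p := p) M (fun w => U.image fun u => s(u, w)) (by
      intro w hw e he
      obtain ⟨u, hu, rfl⟩ := Finset.mem_image.1 he
      rw [Sym2.mk_isDiag_iff]
      rintro rfl
      exact hd u hw hu) (by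
      intro w hw w' hw' hne
      rw [Finset.disjoint_left]
      intro e he he'
      obtain ⟨u, hu, rfl⟩ := Finset.mem_image.1 he
      obtain ⟨u', hu', h2⟩ := Finset.mem_image.1 he'
      rw [Sym2.eq_iff] at h2
      rcases h2 with ⟨_, h3⟩ | ⟨h3, _⟩
      · exact hne h3.symm
      · exact hd w hw (h3 ▸ hu'))
  have h2 : (fun G : SimpleGraph (Fin n) => ∀ w ∈ M, ¬ ∀ e ∈ U.image (fun u => s(u, w)),
      e ∈ G.edgeSet) = (fun G => ∀ w ∈ M, ¬ ∀ u ∈ U, G.Adj u w) := by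
    funext G
    simp only [Finset.forall_mem_image, SimpleGraph.mem_edgeSet]
  rw [h2] at h1
  rw [h1]
  have h3 : ∀ w ∈ M, (1 - p ^ (U.image fun u => s(u, w)).card) = 1 - p ^ U.card := by
    intro w _
    rw [Finset.card_image_of_injective _ (hinj w)]
  rw [Finset.prod_congr rfl h3, Finset.prod_const]
  have h4 : 1 - p ^ U.card ≤ Real.exp (-(p ^ U.card)) := by
    have := Real.add_one_le_exp (-(p ^ U.card))
    linarith
  have h5 : 0 ≤ 1 - p ^ U.card := by
    have := pow_le_one₀ (n := U.card) hp0 hp1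
    linarith
  calc (1 - p ^ U.card) ^ M.card ≤ Real.exp (-(p ^ U.card)) ^ M.card := pow_le_pow_left₀ h5 h4 _
    _ = Real.exp (-((M.card : ℝ) * p ^ U.card)) := by
      rw [← Real.exp_nat_mul]
      congr 1
      ring

/-- the vertex `j` of the block `i` -/
def vtx {m b : ℕ} (h : m * b ≤ n) (i : Fin m) (j : Fin b) : Fin n :=
  ⟨i * b + j, by
    have h1 : (i : ℕ) + 1 ≤ m := i.isLt
    have h2 := j.isLt
    have h3 : ((i : ℕ) + 1) * b ≤ m * b := Nat.mul_le_mul_right b h1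
    have h4 : ((i : ℕ) + 1) * b = i * b + b := by ring
    omega⟩

lemma vtx_inj {m b : ℕ} (h : m * b ≤ n) {i i' : Fin m} {j j' : Fin b}
    (hv : vtx h i j = vtx h i' j') : i = i' ∧ j = j' := by
  have h1 : (i : ℕ) * b + j = i' * b + j' := congrArg Fin.val hv
  have hb : 0 < b := lt_of_le_of_lt (Nat.zero_le _) j.isLt
  have h2 : ((i : ℕ) * b + j) / b = i := by
    rw [Nat.add_comm, Nat.add_mul_div_right _ _ hb, Nat.div_eq_of_lt j.isLt, Nat.zero_add]
  have h3 : ((i' : ℕ) * b + j') / b = i' := by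
    rw [Nat.add_comm, Nat.add_mul_div_right _ _ hb, Nat.div_eq_of_lt j'.isLt, Nat.zero_add]
  have h4 : (i : ℕ) = i' := by rw [← h2, ← h3, h1]
  refine ⟨Fin.ext h4, Fin.ext ?_⟩
  rw [h4] at h1
  omega

/-- the block `i` -/
noncomputable def blk {m b : ℕ} (h : m * b ≤ n) (i : Fin m) : Finset (Fin n) :=
  Finset.univ.image (vtx h i)

lemma blk_card {m b : ℕ} (h : m * b ≤ n) (i : Fin m) : (blk h i).card = b := by
  unfold blk
  rw [Finset.card_image_of_injective, Finset.card_univ, Fintype.card_fin]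
  intro j j' hj
  exact (vtx_inj h hj).2

/-- the set given by a list of at most `k` vertices -/
noncomputable def st {k : ℕ} (f : Fin k → Option (Fin n)) : Finset (Fin n) :=
  Finset.univ.filter fun u => ∃ j, f j = some u

lemma st_card {k : ℕ} (f : Fin k → Option (Fin n)) : (st f).card ≤ k := by
  have h1 : (st f).image some ⊆ Finset.univ.image f := by
    intro x hx
    obtain ⟨u, hu, rfl⟩ := Finset.mem_image.1 hx
    unfold st at hu
    rw [Finset.mem_filter] at hu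
    obtain ⟨_, j, hj⟩ := hu
    exact Finset.mem_image.2 ⟨j, Finset.mem_univ _, hj⟩
  have h2 := Finset.card_le_card h1
  rw [Finset.card_image_of_injective _ (Option.some_injective _)] at h2
  refine h2.trans (Finset.card_image_le.trans ?_)
  rw [Finset.card_univ, Fintype.card_fin]

lemma exists_st {k : ℕ} (U : Finset (Fin n)) (hU : U.card ≤ k) :
    ∃ f : Fin k → Option (Fin n), st f = U := by
  refine ⟨fun j => U.toList[(j : ℕ)]?, ?_⟩
  ext u
  unfold st
  rw [Finset.mem_filter]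
  constructor
  · rintro ⟨_, j, hj⟩
    rw [← Finset.mem_toList]
    exact List.mem_of_getElem? hj
  · intro hu
    refine ⟨Finset.mem_univ _, ?_⟩
    rw [← Finset.mem_toList] at hu
    obtain ⟨i, hi, hiu⟩ := List.mem_iff_getElem.1 hu
    have hi2 : i < k := by
      rw [Finset.length_toList] at hi
      omega
    refine ⟨⟨i, hi2⟩, ?_⟩
    show U.toList[i]? = some u
    rw [List.getElem?_eq_getElem hi, hiu]

lemma main_le (hp0 : 0 ≤ p) (hp1 : p ≤ 1) (k m b : ℕ) (hmb : m * b ≤ n) :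
    gnp n p (fun G => ∃ U : Finset (Fin n), U.card ≤ k ∧
      (Finset.univ.filter (fun w => ∀ u ∈ U, G.Adj u w)).card < m) ≤
      ((n : ℝ) + 1) ^ k * m * Real.exp (-(((b : ℝ) - k) * p ^ k)) := by
  have h1 : gnp n p (fun G => ∃ U : Finset (Fin n), U.card ≤ k ∧
      (Finset.univ.filter (fun w => ∀ u ∈ U, G.Adj u w)).card < m) ≤
      gnp n p (fun G => ∃ x ∈ (Finset.univ : Finset ((Fin k → Option (Fin n)) × Fin m)),
        ∀ w ∈ blk hmb x.2 \ st x.1, ¬ ∀ u ∈ st x.1, G.Adj u w) := by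
    apply gnp_imp hp0 hp1
    rintro G ⟨U, hU, hN⟩
    obtain ⟨f, hf⟩ := exists_st U hU
    by_contra hcon
    push Not at hcon
    have h2 : ∀ i : Fin m, ∃ w ∈ blk hmb i \ U, ∀ u ∈ U, G.Adj u w := by
      intro i
      have h3 := hcon (f, i) (Finset.mem_univ _)
      simp only [hf] at h3
      exact h3
    choose w hw1 hw2 using h2
    have h3 : (Finset.univ : Finset (Fin m)).card ≤
        (Finset.univ.filter (fun w => ∀ u ∈ U, G.Adj u w)).card := by
      apply Finset.card_le_card_of_injOn w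
      · intro i _
        simp only [Finset.coe_filter, Finset.mem_univ, true_and, Set.mem_ofPred_eq]
        exact hw2 i
      · intro i _ i' _ hii
        have h4 := (Finset.mem_sdiff.1 (hw1 i)).1
        have h5 := (Finset.mem_sdiff.1 (hw1 i')).1
        unfold blk at h4 h5
        obtain ⟨j, _, hj⟩ := Finset.mem_image.1 h4
        obtain ⟨j', _, hj'⟩ := Finset.mem_image.1 h5
        have h6 : vtx hmb i j = vtx hmb i' j' := by rw [hj, hj', hii]
        exact (vtx_inj hmb h6).1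
    rw [Finset.card_univ, Fintype.card_fin] at h3
    omega
  refine h1.trans ((gnp_union hp0 hp1 _ _).trans ?_)
  have h2 : ∀ x ∈ (Finset.univ : Finset ((Fin k → Option (Fin n)) × Fin m)),
      gnp n p (fun G => ∀ w ∈ blk hmb x.2 \ st x.1, ¬ ∀ u ∈ st x.1, G.Adj u w) ≤
        Real.exp (-(((b : ℝ) - k) * p ^ k)) := by
    intro x _
    refine (block_le hp0 hp1 (st x.1) (blk hmb x.2 \ st x.1)
      (fun w hw => (Finset.mem_sdiff.1 hw).2)).trans ?_
    apply Real.exp_le_exp.2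
    apply neg_le_neg
    have h3 := st_card x.1
    have h4 : b ≤ (blk hmb x.2 \ st x.1).card + k := by
      have h5 := Finset.le_card_sdiff (st x.1) (blk hmb x.2)
      rw [blk_card] at h5
      omega
    have h5 : (b : ℝ) - k ≤ ((blk hmb x.2 \ st x.1).card : ℝ) := by
      have : (b : ℝ) ≤ ((blk hmb x.2 \ st x.1).card : ℝ) + k := by exact_mod_cast h4
      linarith
    have h6 : p ^ k ≤ p ^ (st x.1).card := pow_le_pow_of_le_one hp0 hp1 h3
    calc ((b : ℝ) - k) * p ^ k ≤ ((blk hmb x.2 \ st x.1).card : ℝ) * p ^ k :=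
          mul_le_mul_of_nonneg_right h5 (by positivity)
      _ ≤ ((blk hmb x.2 \ st x.1).card : ℝ) * p ^ (st x.1).card :=
          mul_le_mul_of_nonneg_left h6 (by positivity)
  refine (Finset.sum_le_sum h2).trans ?_
  rw [Finset.sum_const, nsmul_eq_mul, Finset.card_univ, Fintype.card_prod, Fintype.card_fin,
    Fintype.card_fun, Fintype.card_option, Fintype.card_fin, Fintype.card_fin]
  push_cast
  exact le_rfl

end HH

/-- common neighbourhoods are large -/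
lemma common_large (k : ℕ) (δ : ℝ) (hδ : 0 < δ) (hδ1 : δ * (k + 4) < 1) (p : ℕ → ℝ)
    (hp : ∀ n, 0 ≤ p n ∧ p n ≤ 1) (h : ∀ᶠ n : ℕ in atTop, (n : ℝ) ^ (-δ) ≤ p n) :
    Tendsto (fun n => gnp n (p n) (fun G => ∃ U : Finset (Fin n), U.card ≤ k ∧
      ((Finset.univ.filter (fun w => ∀ u ∈ U, G.Adj u w)).card : ℝ) ≤ (n : ℝ) ^ (3 * δ)))
      atTop (𝓝 0) := by
  have hk0 : (0 : ℝ) ≤ k := Nat.cast_nonneg k
  have hkd : 0 ≤ δ * k := by positivity
  obtain ⟨η, hη⟩ : ∃ η : ℝ, η = 1 - 3 * δ - k * δ := ⟨_, rfl⟩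
  have hη0 : 0 < η := by rw [hη]; nlinarith
  have h3δ : 3 * δ < 1 := by nlinarith
  have hcast : Tendsto (fun n : ℕ => (n : ℝ)) atTop atTop := tendsto_natCast_atTop_atTop
  have hlim : Tendsto (fun n : ℕ => (2 : ℝ) ^ (k + 1) * (((n : ℝ) ^ η) ^ (((k : ℝ) + 1) / η) *
      Real.exp (-(1 / 8) * (n : ℝ) ^ η))) atTop (𝓝 0) := by
    have h1 := (tendsto_rpow_mul_exp_neg_mul_atTop_nhds_zero (((k : ℝ) + 1) / η) (1 / 8)
      (by norm_num)).comp ((tendsto_rpow_atTop hη0).comp hcast)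
    have h2 := h1.const_mul ((2 : ℝ) ^ (k + 1))
    rw [mul_zero] at h2
    exact h2
  have hbig : ∀ᶠ n : ℕ in atTop, 3 * ((k : ℝ) + 1) ≤ (n : ℝ) ^ (1 - 3 * δ) :=
    ((tendsto_rpow_atTop (by linarith : 0 < 1 - 3 * δ)).comp hcast).eventually_ge_atTop _
  refine squeeze_zero' (Eventually.of_forall fun n => gnp_nonneg (hp n).1 (hp n).2 _) ?_ hlim
  filter_upwards [h, hbig, eventually_ge_atTop 1] with n hn1 hn2 hn3
  have hn : (1 : ℝ) ≤ n := by exact_mod_cast hn3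
  have hn0 : (0 : ℝ) < n := by linarith
  obtain ⟨m, hm⟩ : ∃ m : ℕ, m = ⌊(n : ℝ) ^ (3 * δ)⌋₊ + 1 := ⟨_, rfl⟩
  obtain ⟨b, hb⟩ : ∃ b : ℕ, b = n / m := ⟨_, rfl⟩
  have hm0 : 0 < m := by omega
  have hpow0 : 0 < (n : ℝ) ^ (3 * δ) := Real.rpow_pos_of_pos hn0 _
  have hpow1 : 1 ≤ (n : ℝ) ^ (3 * δ) := Real.one_le_rpow hn (by linarith)
  have hm1 : (n : ℝ) ^ (3 * δ) < m := by
    rw [hm]
    push_cast
    exact Nat.lt_floor_add_one _
  have hm2 : (m : ℝ) ≤ (n : ℝ) ^ (3 * δ) + 1 := by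
    rw [hm]
    push_cast
    linarith [Nat.floor_le hpow0.le]
  have hmb : m * b ≤ n := by
    rw [hb]
    exact Nat.mul_div_le n m
  have hstep : gnp n (p n) (fun G => ∃ U : Finset (Fin n), U.card ≤ k ∧
      ((Finset.univ.filter (fun w => ∀ u ∈ U, G.Adj u w)).card : ℝ) ≤ (n : ℝ) ^ (3 * δ)) ≤
      gnp n (p n) (fun G => ∃ U : Finset (Fin n), U.card ≤ k ∧
      (Finset.univ.filter (fun w => ∀ u ∈ U, G.Adj u w)).card < m) := by
    apply gnp_imp (hp n).1 (hp n).2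
    rintro G ⟨U, hU, hN⟩
    refine ⟨U, hU, ?_⟩
    have : ((Finset.univ.filter (fun w => ∀ u ∈ U, G.Adj u w)).card : ℝ) < m := hN.trans_lt hm1
    exact_mod_cast this
  refine hstep.trans ((HH.main_le (hp n).1 (hp n).2 k m b hmb).trans ?_)
  -- the number of terms
  have hc1 : ((n : ℝ) + 1) ^ k * m ≤ 2 ^ (k + 1) * (n : ℝ) ^ (k + 1) := by
    have h1 : ((n : ℝ) + 1) ^ k ≤ (2 * n) ^ k := pow_le_pow_left₀ (by linarith) (by linarith) k
    have h2 : (m : ℝ) ≤ 2 * n := by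
      have h3 : (n : ℝ) ^ (3 * δ) ≤ (n : ℝ) ^ (1 : ℝ) :=
        Real.rpow_le_rpow_of_exponent_le hn h3δ.le
      rw [Real.rpow_one] at h3
      linarith
    calc ((n : ℝ) + 1) ^ k * m ≤ (2 * n) ^ k * (2 * n) :=
          mul_le_mul h1 h2 (by positivity) (by positivity)
      _ = 2 ^ (k + 1) * (n : ℝ) ^ (k + 1) := by
        rw [← pow_succ, mul_pow]
  have hc2 : ((n : ℝ) ^ η) ^ (((k : ℝ) + 1) / η) = (n : ℝ) ^ (k + 1) := by
    rw [← Real.rpow_mul hn0.le, mul_div_cancel₀ _ hη0.ne', ← Real.rpow_natCast]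
    push_cast
    rfl
  -- the exponent
  have hb1 : (n : ℝ) ^ (1 - 3 * δ) / 8 ≤ (b : ℝ) - k := by
    have h1 : (n : ℝ) / m < b + 1 := by
      rw [hb]
      have h0 := Nat.lt_floor_add_one ((n : ℝ) / m)
      rw [Nat.floor_div_eq_div] at h0
      exact h0
    have h2 : (n : ℝ) ^ (1 - 3 * δ) / 2 ≤ (n : ℝ) / m := by
      rw [Real.rpow_sub hn0, Real.rpow_one, div_div]
      apply div_le_div_of_nonneg_left hn0.le (by exact_mod_cast hm0)
      linarith
    linarith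
  have hp2 : (n : ℝ) ^ (-(k * δ)) ≤ p n ^ k := by
    have h1 : ((n : ℝ) ^ (-δ)) ^ k ≤ p n ^ k :=
      pow_le_pow_left₀ (Real.rpow_nonneg hn0.le _) hn1 k
    have h2 : ((n : ℝ) ^ (-δ)) ^ k = (n : ℝ) ^ (-(k * δ)) := by
      rw [← Real.rpow_natCast, ← Real.rpow_mul hn0.le]
      congr 1
      ring
    rw [h2] at h1
    exact h1
  have hexp : 1 / 8 * (n : ℝ) ^ η ≤ ((b : ℝ) - k) * p n ^ k := by
    have h1 : (n : ℝ) ^ η = (n : ℝ) ^ (1 - 3 * δ) * (n : ℝ) ^ (-(k * δ)) := by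
      rw [← Real.rpow_add hn0, hη]
      congr 1
    rw [h1]
    have h2 : 0 ≤ (n : ℝ) ^ (1 - 3 * δ) := Real.rpow_nonneg hn0.le _
    have h3 : 0 ≤ (n : ℝ) ^ (-(k * δ)) := Real.rpow_nonneg hn0.le _
    calc 1 / 8 * ((n : ℝ) ^ (1 - 3 * δ) * (n : ℝ) ^ (-(k * δ))) =
          (n : ℝ) ^ (1 - 3 * δ) / 8 * (n : ℝ) ^ (-(k * δ)) := by ring
      _ ≤ ((b : ℝ) - k) * p n ^ k :=
          mul_le_mul hb1 hp2 h3 ((by positivity : (0 : ℝ) ≤ (n : ℝ) ^ (1 - 3 * δ) / 8).trans hb1)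
  calc ((n : ℝ) + 1) ^ k * m * Real.exp (-(((b : ℝ) - k) * p n ^ k)) ≤
        (2 ^ (k + 1) * (n : ℝ) ^ (k + 1)) * Real.exp (-(1 / 8) * (n : ℝ) ^ η) := by
        apply mul_le_mul hc1 _ (Real.exp_nonneg _) (by positivity)
        apply Real.exp_le_exp.2
        linarith
    _ = 2 ^ (k + 1) * (((n : ℝ) ^ η) ^ (((k : ℝ) + 1) / η) *
        Real.exp (-(1 / 8) * (n : ℝ) ^ η)) := by
        rw [hc2]
        ring

end Pool.Agent.TH948.SH
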