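import Pool.Agent.TH948.SH.Defs2

set_option autoImplicit false

/-!
# The outer neighbourhood of a fixed set is rarely small
-/

namespace Pool.Agent.TH948.SH

open Filter Topology Asymptotics
open scoped Classical
open Pool.Agent.TH965.Spread Pool.Agent.TH965.Emb

private lemma k1_card {n : ℕ} (C : Finset (Fin n)) (w : Fin n) (hw : w ∉ C) :
    (C.image (fun u => s(u, w))).card = C.card := by
  apply Finset.card_image_of_injOn
  intro u hu u' _ h
  have h2 : s(u, w) = s(u', w) := h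
  rw [Sym2.eq_iff] at h2
  rcases h2 with ⟨h3, _⟩ | ⟨h3, _⟩
  · exact h3
  · exact absurd (h3 ▸ hu) hw

private lemma k1_mem {n : ℕ} (G : SimpleGraph (Fin n)) (C : Finset (Fin n)) (w : Fin n) :
    w ∈ outN G C ↔ w ∉ C ∧ ∃ u ∈ C, G.Adj u w := by
  unfold outN
  simp

lemma outN_small {n : ℕ} {p : ℝ} (hp0 : 0 ≤ p) (hp1 : p ≤ 1) (C : Finset (Fin n)) (m : ℝ) :
    gnp n p (fun G => ((outN G C).card : ℝ) ≤ m)
      ≤ Real.exp (m - ((n : ℝ) - C.card) * (1 - (1 - p) ^ C.card) / 2) := by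
  obtain ⟨T, hT⟩ : ∃ T : Fin n → Finset (Sym2 (Fin n)), ∀ w, T w = C.image (fun u => s(u, w)) :=
    ⟨_, fun _ => rfl⟩
  obtain ⟨c, hc⟩ : ∃ c : ℝ, c = Real.exp (-1) := ⟨_, rfl⟩
  have hc0 : 0 < c := by rw [hc]; exact Real.exp_pos _
  have hc1 : c ≤ 1 / 2 := by
    rw [hc, Real.exp_neg, inv_eq_one_div]
    apply one_div_le_one_div_of_le (by norm_num)
    have := Real.add_one_le_exp (1 : ℝ)
    linarith
  obtain ⟨g, hg⟩ : ∃ g : Fin n → Finset (Sym2 (Fin n)) → ℝ, ∀ w, g w =
      fun Y => c + (1 - c) * (if Disjoint (T w) Y then 1 else 0) := ⟨_, fun _ => rfl⟩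
  have hmem : ∀ w e, e ∈ T w ↔ ∃ u ∈ C, s(u, w) = e := by
    intro w e
    rw [hT, Finset.mem_image]
  have hs : ∀ w ∈ Cᶜ, T w ⊆ eF (⊤ : SimpleGraph (Fin n)) := by
    intro w hw e he
    obtain ⟨u, hu, rfl⟩ := (hmem w e).1 he
    rw [mem_top_eF, Sym2.mk_isDiag_iff]
    rintro rfl
    exact (Finset.mem_compl.1 hw) hu
  have hd : ∀ w ∈ Cᶜ, ∀ w' ∈ Cᶜ, w ≠ w' → Disjoint (T w) (T w') := by
    intro w _ w' hw' hne
    rw [Finset.disjoint_left]
    intro e he he'
    obtain ⟨u, hu, rfl⟩ := (hmem w e).1 he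
    obtain ⟨u', hu', h⟩ := (hmem w' _).1 he'
    rw [Sym2.eq_iff] at h
    rcases h with ⟨_, h⟩ | ⟨_, h⟩
    · exact hne h.symm
    · exact (Finset.mem_compl.1 hw') (h ▸ hu)
  have hprod := exs_prod Cᶜ p T g (eF (⊤ : SimpleGraph (Fin n))) hs hd
  rw [gnp_eq]
  have h1 : exs (eF (⊤ : SimpleGraph (Fin n))) p
      (fun W => if (((outN (SimpleGraph.fromEdgeSet (W : Set (Sym2 (Fin n)))) C).card : ℝ) ≤ m)
        then 1 else 0) ≤
      exs (eF (⊤ : SimpleGraph (Fin n))) p
        (fun W => Real.exp m * ∏ w ∈ Cᶜ, g w (W ∩ T w)) := by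
    refine exs_mono _ hp0 hp1 (fun W _ => ?_)
    have hnn : 0 ≤ Real.exp m * ∏ w ∈ Cᶜ, g w (W ∩ T w) := by
      apply mul_nonneg (Real.exp_pos _).le
      apply Finset.prod_nonneg
      intro w _
      rw [hg]
      show 0 ≤ c + (1 - c) * (if Disjoint (T w) (W ∩ T w) then 1 else 0)
      split_ifs
      · linarith
      · linarith
    show (if _ then (1 : ℝ) else 0) ≤ _
    split_ifs with hm
    · have hval : ∀ w ∈ Cᶜ, g w (W ∩ T w) =
          if w ∈ outN (SimpleGraph.fromEdgeSet (W : Set (Sym2 (Fin n)))) C then c else 1 := by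
        intro w hw
        rw [hg]
        show c + (1 - c) * (if Disjoint (T w) (W ∩ T w) then 1 else 0) = _
        by_cases hD : Disjoint (T w) (W ∩ T w)
        · rw [if_pos hD, if_neg]
          · ring
          · intro h
            rw [k1_mem] at h
            obtain ⟨_, u, hu, hadj⟩ := h
            rw [SimpleGraph.fromEdgeSet_adj] at hadj
            have he : s(u, w) ∈ T w := (hmem w _).2 ⟨u, hu, rfl⟩
            exact (Finset.disjoint_left.1 hD) he
              (Finset.mem_inter.2 ⟨Finset.mem_coe.1 hadj.1, he⟩)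
        · rw [if_neg hD, if_pos]
          · ring
          · rw [Finset.disjoint_left] at hD
            push Not at hD
            obtain ⟨e, he, he'⟩ := hD
            obtain ⟨u, hu, rfl⟩ := (hmem w e).1 he
            rw [k1_mem]
            refine ⟨Finset.mem_compl.1 hw, u, hu, ?_⟩
            rw [SimpleGraph.fromEdgeSet_adj]
            refine ⟨Finset.mem_coe.2 (Finset.mem_inter.1 he').1, ?_⟩
            rintro rfl
            exact (Finset.mem_compl.1 hw) hu
      rw [Finset.prod_congr rfl hval, Finset.prod_ite, Finset.prod_const, Finset.prod_const_one,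
        mul_one]
      have hfil : Cᶜ.filter (fun w => w ∈ outN (SimpleGraph.fromEdgeSet (W : Set (Sym2 (Fin n)))) C)
          = outN (SimpleGraph.fromEdgeSet (W : Set (Sym2 (Fin n)))) C := by
        ext w
        rw [Finset.mem_filter]
        constructor
        · exact fun h => h.2
        · intro h
          refine ⟨?_, h⟩
          exact Finset.mem_compl.2 ((k1_mem _ _ _).1 h).1
      rw [hfil, hc, ← Real.exp_nat_mul, ← Real.exp_add]
      apply Real.one_le_exp
      linarith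
    · exact hnn
  refine h1.trans ?_
  rw [exs_mul_left, hprod]
  have hfac : ∀ w ∈ Cᶜ, exs (T w) p (g w) ≤ Real.exp (-((1 - (1 - p) ^ C.card) / 2)) := by
    intro w hw
    have hcard : (T w).card = C.card := by
      rw [hT]
      exact k1_card C w (Finset.mem_compl.1 hw)
    rw [hg, exs_add, exs_const, exs_mul_left, exs_dis, hcard]
    have hr1 : (1 - p) ^ C.card ≤ 1 := pow_le_one₀ (by linarith) (by linarith)
    refine le_trans ?_ (Real.one_sub_le_exp_neg _)
    nlinarith
  have hfac0 : ∀ w ∈ Cᶜ, 0 ≤ exs (T w) p (g w) := by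
    intro w hw
    rw [hg, exs_add, exs_const, exs_mul_left, exs_dis]
    have hr0 : 0 ≤ (1 - p) ^ (T w).card := pow_nonneg (by linarith) _
    have : 0 ≤ (1 - c) * (1 - p) ^ (T w).card := mul_nonneg (by linarith) hr0
    linarith
  have h2 : ∏ w ∈ Cᶜ, exs (T w) p (g w) ≤
      Real.exp (-((1 - (1 - p) ^ C.card) / 2)) ^ (n - C.card) := by
    calc ∏ w ∈ Cᶜ, exs (T w) p (g w)
        ≤ ∏ _w ∈ Cᶜ, Real.exp (-((1 - (1 - p) ^ C.card) / 2)) := Finset.prod_le_prod hfac0 hfac
      _ = _ := by rw [Finset.prod_const, Finset.card_compl, Fintype.card_fin]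
  refine (mul_le_mul_of_nonneg_left h2 (Real.exp_pos m).le).trans (le_of_eq ?_)
  rw [← Real.exp_nat_mul, ← Real.exp_add]
  congr 1
  rw [Nat.cast_sub (by simpa using Finset.card_le_univ C)]
  ring

end Pool.Agent.TH948.SH
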