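import Pool.Agent.TH948.SH.Defs2

set_option autoImplicit false

/-!
# Large independent sets and holes
-/

namespace Pool.Agent.TH948.SH

open Filter Topology Asymptotics
open scoped Classical

private lemma K3_exp {p : ℝ} (hp1 : p ≤ 1) (k : ℕ) : (1 - p) ^ k ≤ Real.exp (-(p * k)) := by
  have h2 : (1 - p) ^ k ≤ (Real.exp (-p)) ^ k :=
    pow_le_pow_left₀ (by linarith) (Real.one_sub_le_exp_neg p) _
  rw [← Real.exp_nat_mul] at h2
  refine h2.trans (le_of_eq ?_)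
  congr 1
  ring

private lemma K3_two (n : ℕ) : (2 : ℝ) ^ n ≤ Real.exp n := by
  have h1 : (2 : ℝ) ≤ Real.exp 1 := by
    have := Real.add_one_le_exp (1 : ℝ)
    linarith
  calc (2 : ℝ) ^ n ≤ (Real.exp 1) ^ n := pow_le_pow_left₀ (by norm_num) h1 n
    _ = Real.exp n := by rw [← Real.exp_nat_mul, mul_one]

private lemma K3_indep {n : ℕ} {p : ℝ} (hp0 : 0 ≤ p) (hp1 : p ≤ 1) (s : Finset (Fin n)) :
    gnp n p (fun G => ∀ x ∈ s, ∀ y ∈ s, ¬ G.Adj x y) ≤ (1 - p) ^ (s.card.choose 2) := by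
  have hT : ∀ e ∈ s.offDiag.image Sym2.mk.uncurry, ¬ e.IsDiag := by
    intro e he
    obtain ⟨⟨x, y⟩, hxy, rfl⟩ := Finset.mem_image.1 he
    rw [Finset.mem_offDiag] at hxy
    exact fun h => hxy.2.2 h
  rw [← Sym2.card_image_offDiag, ← gnp_absent _ hT]
  refine gnp_imp hp0 hp1 ?_
  intro G hG e he
  obtain ⟨⟨x, y⟩, hxy, rfl⟩ := Finset.mem_image.1 he
  rw [Finset.mem_offDiag] at hxy
  exact hG x hxy.1 y hxy.2.1

private lemma K3_pair {n : ℕ} {p : ℝ} (hp0 : 0 ≤ p) (hp1 : p ≤ 1) (C A : Finset (Fin n)) :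
    gnp n p (fun G => Disjoint C A ∧ ∀ x ∈ C, ∀ y ∈ A, ¬ G.Adj x y)
      ≤ (1 - p) ^ (C.card * A.card) := by
  by_cases hd : Disjoint C A
  · have hT : ∀ e ∈ (C ×ˢ A).image Sym2.mk.uncurry, ¬ e.IsDiag := by
      intro e he
      obtain ⟨⟨x, y⟩, hxy, rfl⟩ := Finset.mem_image.1 he
      rw [Finset.mem_product] at hxy
      intro h
      have h2 : x = y := h
      subst h2
      exact (Finset.disjoint_left.1 hd) hxy.1 hxy.2
    have hc : ((C ×ˢ A).image Sym2.mk.uncurry).card = C.card * A.card := by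
      rw [Finset.card_image_of_injOn, Finset.card_product]
      rintro ⟨x, y⟩ hxy ⟨x', y'⟩ hxy' h
      rw [Finset.mem_coe, Finset.mem_product] at hxy hxy'
      have h2 : s(x, y) = s(x', y') := h
      rw [Sym2.eq_iff] at h2
      rcases h2 with ⟨h3, h4⟩ | ⟨h3, h4⟩
      · rw [h3, h4]
      · exfalso
        have h5 : x ∈ A := by rw [h3]; exact hxy'.2
        exact (Finset.disjoint_left.1 hd) hxy.1 h5
    rw [← hc, ← gnp_absent _ hT]
    refine gnp_imp hp0 hp1 ?_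
    intro G hG e he
    obtain ⟨⟨x, y⟩, hxy, rfl⟩ := Finset.mem_image.1 he
    rw [Finset.mem_product] at hxy
    exact hG.2 x hxy.1 y hxy.2
  · have h1 : gnp n p (fun G => Disjoint C A ∧ ∀ x ∈ C, ∀ y ∈ A, ¬ G.Adj x y)
        ≤ gnp n p (fun _ => ¬ True) :=
      gnp_imp hp0 hp1 fun G h => absurd h.1 hd
    rw [gnp_not, gnp_true, sub_self] at h1
    exact h1.trans (pow_nonneg (by linarith) _)

lemma no_big_indep (p : ℕ → ℝ) (hp : ∀ n, 0 ≤ p n ∧ p n ≤ 1)
    (h : Tendsto (fun n : ℕ => p n * n) atTop atTop) :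
    Tendsto (fun n => gnp n (p n) (fun G => ∃ s : Finset (Fin n), (n : ℝ) / 4 ≤ s.card ∧
      ∀ x ∈ s, ∀ y ∈ s, ¬ G.Adj x y)) atTop (𝓝 0) := by
  have hlim : Tendsto (fun n : ℕ => Real.exp (-(n : ℝ))) atTop (𝓝 0) :=
    Real.tendsto_exp_neg_atTop_nhds_zero.comp tendsto_natCast_atTop_atTop
  refine tendsto_of_tendsto_of_tendsto_of_le_of_le' tendsto_const_nhds hlim
    (Eventually.of_forall fun n => gnp_nonneg (hp n).1 (hp n).2 _) ?_
  filter_upwards [h.eventually_ge_atTop 128, eventually_ge_atTop 8] with n hn hn8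
  have hn8' : (8 : ℝ) ≤ n := by exact_mod_cast hn8
  have hstep : gnp n (p n) (fun G => ∃ s : Finset (Fin n), (n : ℝ) / 4 ≤ s.card ∧
      ∀ x ∈ s, ∀ y ∈ s, ¬ G.Adj x y) ≤
      gnp n (p n) (fun G => ∃ s ∈ (Finset.univ : Finset (Finset (Fin n))).filter
        (fun s => (n : ℝ) / 4 ≤ s.card), ∀ x ∈ s, ∀ y ∈ s, ¬ G.Adj x y) := by
    refine gnp_imp (hp n).1 (hp n).2 ?_
    rintro G ⟨s, hs, hs2⟩
    exact ⟨s, Finset.mem_filter.2 ⟨Finset.mem_univ _, hs⟩, hs2⟩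
  refine hstep.trans ((gnp_union (hp n).1 (hp n).2 _ _).trans ?_)
  have h1 : ∀ s ∈ (Finset.univ : Finset (Finset (Fin n))).filter
      (fun s => (n : ℝ) / 4 ≤ s.card),
      gnp n (p n) (fun G => ∀ x ∈ s, ∀ y ∈ s, ¬ G.Adj x y) ≤ Real.exp (-(2 * n)) := by
    intro s hs
    rw [Finset.mem_filter] at hs
    refine (K3_indep (hp n).1 (hp n).2 s).trans ((K3_exp (hp n).2 _).trans ?_)
    rw [Real.exp_le_exp, neg_le_neg_iff]
    have h2 : (n : ℝ) ^ 2 / 64 ≤ ((s.card.choose 2 : ℕ) : ℝ) := by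
      rw [Nat.cast_choose_two]
      have h3 := hs.2
      have h4 : (n : ℝ) / 4 - 1 ≤ (s.card : ℝ) - 1 := by linarith
      have h5 : (n : ℝ) / 8 ≤ (n : ℝ) / 4 - 1 := by linarith
      have h6 : (n : ℝ) / 4 * (n / 8) ≤ (s.card : ℝ) * ((s.card : ℝ) - 1) :=
        mul_le_mul h3 (h5.trans h4) (by positivity) (by positivity)
      nlinarith
    have h7 := mul_le_mul_of_nonneg_left h2 (hp n).1
    have h8 : 2 * (n : ℝ) ≤ p n * ((n : ℝ) ^ 2 / 64) := by
      have h9 : p n * ((n : ℝ) ^ 2 / 64) = (p n * n) * n / 64 := by ring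
      rw [h9]
      nlinarith
    linarith
  refine (Finset.sum_le_card_nsmul _ _ _ h1).trans ?_
  rw [nsmul_eq_mul]
  have h2 : ((((Finset.univ : Finset (Finset (Fin n))).filter
      (fun s => (n : ℝ) / 4 ≤ s.card)).card : ℕ) : ℝ) ≤ (2 : ℝ) ^ n := by
    have h3 : ((Finset.univ : Finset (Finset (Fin n))).filter
      (fun s => (n : ℝ) / 4 ≤ s.card)).card ≤ 2 ^ n := by
      refine (Finset.card_filter_le _ _).trans ?_
      rw [Finset.card_univ, Fintype.card_finset, Fintype.card_fin]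
    exact_mod_cast h3
  calc _ ≤ Real.exp n * Real.exp (-(2 * n)) :=
        mul_le_mul_of_nonneg_right (h2.trans (K3_two n)) (Real.exp_pos _).le
    _ = Real.exp (-(n : ℝ)) := by
        rw [← Real.exp_add]
        congr 1
        ring

lemma no_hole (p : ℕ → ℝ) (hp : ∀ n, 0 ≤ p n ∧ p n ≤ 1)
    (h : Tendsto (fun n : ℕ => p n * n / Real.log n) atTop atTop) :
    Tendsto (fun n => gnp n (p n) (fun G => ∃ C A : Finset (Fin n), 8 ≤ p n * C.card ∧
      (n : ℝ) / 4 ≤ A.card ∧ Disjoint C A ∧ ∀ x ∈ C, ∀ y ∈ A, ¬ G.Adj x y)) atTop (𝓝 0) := by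
  have hlim : Tendsto (fun n : ℕ => Real.exp (-((n : ℝ) / 2))) atTop (𝓝 0) :=
    Real.tendsto_exp_neg_atTop_nhds_zero.comp
      (tendsto_natCast_atTop_atTop.atTop_div_const (by norm_num))
  refine tendsto_of_tendsto_of_tendsto_of_le_of_le' tendsto_const_nhds hlim
    (Eventually.of_forall fun n => gnp_nonneg (hp n).1 (hp n).2 _) ?_
  filter_upwards [h.eventually_ge_atTop 64, eventually_ge_atTop 3] with n hn hn3
  have hn3' : (3 : ℝ) ≤ n := by exact_mod_cast hn3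
  have hlog : 0 < Real.log n := Real.log_pos (by linarith)
  rw [le_div_iff₀ hlog] at hn
  have hp0 : 0 < p n := by
    rcases lt_or_eq_of_le (hp n).1 with h1 | h1
    · exact h1
    · rw [← h1] at hn
      linarith
  obtain ⟨m, hm⟩ : ∃ m : ℕ, m = ⌈8 / p n⌉₊ := ⟨_, rfl⟩
  have hm1 : 8 / p n ≤ m := by rw [hm]; exact Nat.le_ceil _
  have hm2 : (m : ℝ) < 8 / p n + 1 := by
    rw [hm]; exact Nat.ceil_lt_add_one (by positivity)
  have hm3 : 8 ≤ p n * m := by
    rw [div_le_iff₀ hp0] at hm1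
    linarith
  have hmlog : (m : ℝ) * Real.log n ≤ n / 2 := by
    have h1 : (m : ℝ) * Real.log n ≤ (8 / p n + 1) * Real.log n :=
      mul_le_mul_of_nonneg_right hm2.le hlog.le
    have h2 : 8 / p n * Real.log n ≤ n / 8 := by
      rw [div_mul_eq_mul_div, div_le_iff₀ hp0]
      linarith
    have h3 : p n * n ≤ n := by nlinarith [(hp n).2]
    linarith
  let I : Finset (Finset (Fin n) × Finset (Fin n)) :=
    (Finset.powersetCard m Finset.univ) ×ˢ
      ((Finset.univ : Finset (Finset (Fin n))).filter (fun s => (n : ℝ) / 4 ≤ s.card))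
  have hstep : gnp n (p n) (fun G => ∃ C A : Finset (Fin n), 8 ≤ p n * C.card ∧
      (n : ℝ) / 4 ≤ A.card ∧ Disjoint C A ∧ ∀ x ∈ C, ∀ y ∈ A, ¬ G.Adj x y) ≤
      gnp n (p n) (fun G => ∃ i ∈ I, Disjoint i.1 i.2 ∧ ∀ x ∈ i.1, ∀ y ∈ i.2, ¬ G.Adj x y) := by
    refine gnp_imp (hp n).1 (hp n).2 ?_
    rintro G ⟨C, A, h1, h2, h3, h4⟩
    have h5 : m ≤ C.card := by
      rw [hm, Nat.ceil_le, div_le_iff₀ hp0]
      linarith
    obtain ⟨C1, hC1, hC2⟩ := Finset.exists_subset_card_eq h5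
    refine ⟨(C1, A), ?_, h3.mono_left hC1, fun x hx y hy => h4 x (hC1 hx) y hy⟩
    exact Finset.mem_product.2 ⟨Finset.mem_powersetCard.2 ⟨Finset.subset_univ _, hC2⟩,
      Finset.mem_filter.2 ⟨Finset.mem_univ _, h2⟩⟩
  refine hstep.trans ((gnp_union (hp n).1 (hp n).2 I
    (fun i G => Disjoint i.1 i.2 ∧ ∀ x ∈ i.1, ∀ y ∈ i.2, ¬ G.Adj x y)).trans ?_)
  have h1 : ∀ i ∈ I, gnp n (p n) (fun G => Disjoint i.1 i.2 ∧
      ∀ x ∈ i.1, ∀ y ∈ i.2, ¬ G.Adj x y) ≤ Real.exp (-(2 * n)) := by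
    rintro ⟨C, A⟩ hi
    obtain ⟨hi1, hi2⟩ := Finset.mem_product.1 hi
    have hC := (Finset.mem_powersetCard.1 hi1).2
    have hA := (Finset.mem_filter.1 hi2).2
    refine (K3_pair (hp n).1 (hp n).2 C A).trans ((K3_exp (hp n).2 _).trans ?_)
    rw [Real.exp_le_exp, neg_le_neg_iff]
    have hC' : C.card = m := hC
    have hA' : (n : ℝ) / 4 ≤ (A.card : ℝ) := hA
    rw [hC']
    push_cast
    have h2 : 8 * ((n : ℝ) / 4) ≤ (p n * m) * A.card :=
      mul_le_mul hm3 hA' (by positivity) (by positivity)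
    nlinarith
  refine (Finset.sum_le_card_nsmul _ _ _ h1).trans ?_
  rw [nsmul_eq_mul]
  have h2 : ((I.card : ℕ) : ℝ) ≤ (n : ℝ) ^ m * (2 : ℝ) ^ n := by
    have h3 : I.card ≤ n ^ m * 2 ^ n := by
      rw [Finset.card_product, Finset.card_powersetCard, Finset.card_univ, Fintype.card_fin]
      refine Nat.mul_le_mul (Nat.choose_le_pow n m) ((Finset.card_filter_le _ _).trans ?_)
      rw [Finset.card_univ, Fintype.card_finset, Fintype.card_fin]
    exact_mod_cast h3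
  have h4 : (n : ℝ) ^ m = Real.exp (m * Real.log n) := by
    rw [Real.exp_nat_mul, Real.exp_log (by linarith)]
  calc _ ≤ (Real.exp (n / 2) * Real.exp n) * Real.exp (-(2 * n)) := by
        refine mul_le_mul_of_nonneg_right (h2.trans ?_) (Real.exp_pos _).le
        refine mul_le_mul ?_ (K3_two n) (by positivity) (Real.exp_pos _).le
        rw [h4]
        exact Real.exp_le_exp.2 hmlog
    _ = Real.exp (-((n : ℝ) / 2)) := by
        rw [← Real.exp_add, ← Real.exp_add]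
        congr 1
        ring

end Pool.Agent.TH948.SH
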