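import Pool.Agent.TH948.SH.Defs2
import Pool.Agent.TH948.SH.Lim

set_option autoImplicit false

/-!
# No large independent set and no hole (helper150, second prover)
-/

namespace Pool.Agent.TH948.SH.K3b

open Filter Topology Asymptotics
open scoped Classical

lemma pow_le_exp {p : ℝ} (hp1 : p ≤ 1) (k : ℕ) : (1 - p) ^ k ≤ Real.exp (-(p * k)) := by
  have h1 : 1 - p ≤ Real.exp (-p) := by
    have := Real.add_one_le_exp (-p)
    linarith
  calc (1 - p) ^ k ≤ Real.exp (-p) ^ k := pow_le_pow_left₀ (by linarith) h1 k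
    _ = Real.exp (-(p * k)) := by
      rw [← Real.exp_nat_mul]
      congr 1
      ring

lemma indep_le {n : ℕ} {p : ℝ} (hp0 : 0 ≤ p) (hp1 : p ≤ 1) (D : Finset (Fin n)) :
    gnp n p (fun G => ∀ x ∈ D, ∀ y ∈ D, ¬ G.Adj x y) ≤ (1 - p) ^ (D.card.choose 2) := by
  have hT : ∀ e ∈ (D.sym2.filter fun e => ¬ e.IsDiag), ¬ e.IsDiag := by
    intro e he
    exact (Finset.mem_filter.mp he).2
  have hcard : (D.sym2.filter fun e => ¬ e.IsDiag).card = D.card.choose 2 := by
    have h1 := Sym2.card_image_offDiag D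
    rw [← h1]
    congr 1
    ext e
    simp only [Finset.mem_filter, Finset.mem_image, Finset.mem_offDiag]
    induction e using Sym2.ind with
    | _ a b =>
      simp only [Finset.mk_mem_sym2_iff, Sym2.mk_isDiag_iff]
      constructor
      · rintro ⟨⟨ha, hb⟩, hab⟩
        exact ⟨(a, b), ⟨ha, hb, hab⟩, rfl⟩
      · rintro ⟨⟨c, d⟩, ⟨hc, hd, hcd⟩, he⟩
        rcases Sym2.eq_iff.1 he with ⟨rfl, rfl⟩ | ⟨rfl, rfl⟩
        · exact ⟨⟨hc, hd⟩, hcd⟩
        · exact ⟨⟨hd, hc⟩, fun h => hcd h.symm⟩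
  have h2 := gnp_absent (n := n) (p := p) (D.sym2.filter fun e => ¬ e.IsDiag) hT
  rw [hcard] at h2
  rw [← h2]
  apply gnp_imp hp0 hp1
  intro G hG e he
  induction e using Sym2.ind with
  | _ a b =>
    rw [Finset.mem_filter, Finset.mk_mem_sym2_iff] at he
    rw [SimpleGraph.mem_edgeSet]
    exact hG a he.1.1 b he.1.2

lemma cross_le {n : ℕ} {p : ℝ} (hp0 : 0 ≤ p) (hp1 : p ≤ 1) (C A : Finset (Fin n))
    (hCA : Disjoint C A) :
    gnp n p (fun G => ∀ x ∈ C, ∀ y ∈ A, ¬ G.Adj x y) ≤ (1 - p) ^ (C.card * A.card) := by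
  have hne : ∀ x ∈ C, ∀ y ∈ A, x ≠ y := fun x hx y hy h =>
    (Finset.disjoint_left.mp hCA) hx (h ▸ hy)
  have hT : ∀ e ∈ (C ×ˢ A).image (fun q : Fin n × Fin n => s(q.1, q.2)), ¬ e.IsDiag := by
    intro e he
    rw [Finset.mem_image] at he
    obtain ⟨⟨a, b⟩, hab, rfl⟩ := he
    rw [Finset.mem_product] at hab
    rw [Sym2.mk_isDiag_iff]
    exact hne a hab.1 b hab.2
  have hcard : ((C ×ˢ A).image (fun q : Fin n × Fin n => s(q.1, q.2))).card =
      C.card * A.card := by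
    rw [Finset.card_image_of_injOn, Finset.card_product]
    rintro ⟨a, b⟩ hab ⟨c, d⟩ hcd he
    simp only [Finset.coe_product, Set.mem_prod, Finset.mem_coe] at hab hcd
    rcases Sym2.eq_iff.1 he with ⟨h1, h2⟩ | ⟨h1, h2⟩
    · exact Prod.ext h1 h2
    · exact absurd h1 (hne a hab.1 d hcd.2)
  have h2 := gnp_absent (n := n) (p := p) _ hT
  rw [hcard] at h2
  rw [← h2]
  apply gnp_imp hp0 hp1
  intro G hG e he
  rw [Finset.mem_image] at he
  obtain ⟨⟨a, b⟩, hab, rfl⟩ := he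
  rw [Finset.mem_product] at hab
  rw [SimpleGraph.mem_edgeSet]
  exact hG a hab.1 b hab.2

lemma exp_neg_n : Tendsto (fun n : ℕ => Real.exp (-(n : ℝ))) atTop (𝓝 0) :=
  Real.tendsto_exp_neg_atTop_nhds_zero.comp tendsto_natCast_atTop_atTop

lemma two_pow (n : ℕ) : (2 : ℝ) ^ n ≤ Real.exp (n * (7 / 10)) := by
  have h : (2 : ℝ) ≤ Real.exp (7 / 10) := by
    rw [← Real.log_le_iff_le_exp (by norm_num)]
    have := Real.log_two_lt_d9
    linarith
  calc (2 : ℝ) ^ n ≤ Real.exp (7 / 10) ^ n := pow_le_pow_left₀ (by norm_num) h n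
    _ = Real.exp (n * (7 / 10)) := by rw [← Real.exp_nat_mul]

theorem no_big_indep (p : ℕ → ℝ) (hp : ∀ n, 0 ≤ p n ∧ p n ≤ 1)
    (h : Tendsto (fun n : ℕ => p n * n) atTop atTop) :
    Tendsto (fun n => gnp n (p n) (fun G => ∃ s : Finset (Fin n), (n : ℝ) / 4 ≤ s.card ∧
      ∀ x ∈ s, ∀ y ∈ s, ¬ G.Adj x y)) atTop (𝓝 0) := by
  refine tendsto_of_tendsto_of_tendsto_of_le_of_le' tendsto_const_nhds exp_neg_n
    (Eventually.of_forall fun n => gnp_nonneg (hp n).1 (hp n).2 _) ?_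
  filter_upwards [h.eventually_ge_atTop 128, eventually_ge_atTop 8] with n g1 g2
  obtain ⟨hp0, hp1⟩ := hp n
  have hn : (8 : ℝ) ≤ n := by exact_mod_cast g2
  refine (gnp_imp hp0 hp1 (Q := fun G => ∃ s ∈ (Finset.univ.filter fun s : Finset (Fin n) =>
    (n : ℝ) / 4 ≤ s.card), ∀ x ∈ s, ∀ y ∈ s, ¬ G.Adj x y) ?_).trans ?_
  · rintro G ⟨s, h1, h2⟩
    exact ⟨s, Finset.mem_filter.mpr ⟨Finset.mem_univ s, h1⟩, h2⟩
  refine (gnp_union hp0 hp1 _ _).trans ?_
  refine (Finset.sum_le_sum (g := fun _ => Real.exp (-(2 * (n : ℝ)))) ?_).trans ?_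
  · intro s hs
    rw [Finset.mem_filter] at hs
    refine (indep_le hp0 hp1 s).trans ((pow_le_exp hp1 _).trans (Real.exp_le_exp.mpr ?_))
    rw [Nat.cast_choose_two]
    have h1 := hs.2
    have h2 : (n : ℝ) ^ 2 / 64 ≤ (s.card : ℝ) * (s.card - 1) / 2 := by nlinarith
    have h3 : p n * ((n : ℝ) ^ 2 / 64) ≤ p n * ((s.card : ℝ) * (s.card - 1) / 2) :=
      mul_le_mul_of_nonneg_left h2 hp0
    have h4 : (128 : ℝ) * n ≤ (p n * n) * n := mul_le_mul_of_nonneg_right g1 (by linarith)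
    have e : p n * ((n : ℝ) ^ 2 / 64) = (p n * n) * n / 64 := by ring
    rw [e] at h3
    linarith
  · rw [Finset.sum_const, nsmul_eq_mul]
    have h1 : ((Finset.univ.filter fun s : Finset (Fin n) => (n : ℝ) / 4 ≤ s.card).card : ℝ) ≤
        (2 : ℝ) ^ n := by
      have : (Finset.univ.filter fun s : Finset (Fin n) => (n : ℝ) / 4 ≤ s.card).card ≤ 2 ^ n := by
        refine (Finset.card_filter_le _ _).trans ?_
        simp
      exact_mod_cast this
    calc ((Finset.univ.filter fun s : Finset (Fin n) => (n : ℝ) / 4 ≤ s.card).card : ℝ) *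
          Real.exp (-(2 * (n : ℝ))) ≤ Real.exp (n * (7 / 10)) * Real.exp (-(2 * (n : ℝ))) :=
          mul_le_mul_of_nonneg_right (h1.trans (two_pow n)) (Real.exp_pos _).le
      _ = Real.exp (n * (7 / 10) + -(2 * (n : ℝ))) := (Real.exp_add _ _).symm
      _ ≤ Real.exp (-(n : ℝ)) := Real.exp_le_exp.mpr (by linarith)

theorem no_hole (p : ℕ → ℝ) (hp : ∀ n, 0 ≤ p n ∧ p n ≤ 1)
    (h : Tendsto (fun n : ℕ => p n * n / Real.log n) atTop atTop) :
    Tendsto (fun n => gnp n (p n) (fun G => ∃ C A : Finset (Fin n), 8 ≤ p n * C.card ∧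
      (n : ℝ) / 4 ≤ A.card ∧ Disjoint C A ∧ ∀ x ∈ C, ∀ y ∈ A, ¬ G.Adj x y)) atTop (𝓝 0) := by
  refine tendsto_of_tendsto_of_tendsto_of_le_of_le' tendsto_const_nhds exp_neg_n
    (Eventually.of_forall fun n => gnp_nonneg (hp n).1 (hp n).2 _) ?_
  have hl := tendsto_natCast_atTop_atTop.eventually
    (Real.isLittleO_log_id_atTop.def (show (0 : ℝ) < 1 / 8 by norm_num))
  filter_upwards [h.eventually_ge_atTop 64, hl, eventually_ge_atTop 8] with n g1 g3 g2
  obtain ⟨hp0, hp1⟩ := hp n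
  have hn : (8 : ℝ) ≤ n := by exact_mod_cast g2
  have hlog : 0 < Real.log n := Real.log_pos (by linarith)
  have g3' : Real.log n ≤ n / 8 := by
    simp only [id, Real.norm_eq_abs] at g3
    rw [abs_of_pos hlog, abs_of_pos (by linarith : (0 : ℝ) < n)] at g3
    linarith
  rw [le_div_iff₀ hlog] at g1
  have hppos : 0 < p n := by
    by_contra hneg
    push Not at hneg
    have : p n = 0 := le_antisymm hneg hp0
    rw [this] at g1
    linarith
  obtain ⟨m, hm⟩ : ∃ m, m = ⌈(8 / p n : ℝ)⌉₊ := ⟨_, rfl⟩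
  have hm1 : 8 ≤ p n * m := by
    have : 8 / p n ≤ (m : ℝ) := by rw [hm]; exact Nat.le_ceil _
    rw [div_le_iff₀ hppos] at this
    linarith
  have hm2 : (m : ℝ) ≤ 8 / p n + 1 := by
    rw [hm]
    exact (Nat.ceil_lt_add_one (by positivity)).le
  refine (gnp_imp hp0 hp1 (Q := fun G => ∃ q ∈ ((Finset.powersetCard m (Finset.univ :
    Finset (Fin n))) ×ˢ (Finset.univ : Finset (Finset (Fin n)))).filter (fun q =>
      Disjoint q.1 q.2 ∧ (n : ℝ) / 4 ≤ q.2.card), ∀ x ∈ q.1, ∀ y ∈ q.2, ¬ G.Adj x y) ?_).trans ?_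
  · rintro G ⟨C, A, h1, h2, h3, h4⟩
    have hmC : m ≤ C.card := by
      rw [hm]
      apply Nat.ceil_le.mpr
      rw [div_le_iff₀ hppos]
      linarith
    obtain ⟨C1, hC1, hC2⟩ := Finset.exists_subset_card_eq hmC
    refine ⟨(C1, A), Finset.mem_filter.mpr ⟨Finset.mem_product.mpr ⟨?_, Finset.mem_univ _⟩,
      Finset.disjoint_of_subset_left hC1 h3, h2⟩, fun x hx y hy => h4 x (hC1 hx) y hy⟩
    exact Finset.mem_powersetCard.mpr ⟨Finset.subset_univ _, hC2⟩
  refine (gnp_union hp0 hp1 _ _).trans ?_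
  refine (Finset.sum_le_sum (g := fun _ => Real.exp (-(2 * (n : ℝ)))) ?_).trans ?_
  · intro q hq
    rw [Finset.mem_filter, Finset.mem_product, Finset.mem_powersetCard] at hq
    refine (cross_le hp0 hp1 q.1 q.2 hq.2.1).trans
      ((pow_le_exp hp1 _).trans (Real.exp_le_exp.mpr ?_))
    rw [hq.1.1.2]
    push_cast
    have h1 := hq.2.2
    have h2 : 8 * ((n : ℝ) / 4) ≤ (p n * m) * q.2.card :=
      mul_le_mul hm1 h1 (by linarith) (by linarith)
    linarith
  · rw [Finset.sum_const, nsmul_eq_mul]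
    have h1 : ((((Finset.powersetCard m (Finset.univ : Finset (Fin n))) ×ˢ
        (Finset.univ : Finset (Finset (Fin n)))).filter (fun q =>
        Disjoint q.1 q.2 ∧ (n : ℝ) / 4 ≤ q.2.card)).card : ℝ) ≤ (n : ℝ) ^ m * (2 : ℝ) ^ n := by
      have h2 : (((Finset.powersetCard m (Finset.univ : Finset (Fin n))) ×ˢ
          (Finset.univ : Finset (Finset (Fin n)))).filter (fun q =>
          Disjoint q.1 q.2 ∧ (n : ℝ) / 4 ≤ q.2.card)).card ≤ n ^ m * 2 ^ n := by
        refine (Finset.card_filter_le _ _).trans ?_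
        rw [Finset.card_product, Finset.card_powersetCard, Finset.card_univ, Fintype.card_fin,
          Finset.card_univ, Fintype.card_finset, Fintype.card_fin]
        exact Nat.mul_le_mul_right _ (Nat.choose_le_pow n m)
      exact_mod_cast h2
    have h3 : (n : ℝ) ^ m ≤ Real.exp (n / 4) := by
      have e1 : (n : ℝ) ^ m = Real.exp (m * Real.log n) := by
        rw [Real.exp_nat_mul, Real.exp_log (by linarith)]
      rw [e1]
      apply Real.exp_le_exp.mpr
      have h4 : (m : ℝ) * Real.log n ≤ (8 / p n + 1) * Real.log n :=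
        mul_le_mul_of_nonneg_right hm2 hlog.le
      have h5 : 8 / p n * Real.log n ≤ n / 8 := by
        rw [div_mul_eq_mul_div, div_le_iff₀ hppos]
        linarith
      linarith
    calc _ ≤ (Real.exp (n / 4) * Real.exp (n * (7 / 10))) * Real.exp (-(2 * (n : ℝ))) := by
          refine mul_le_mul_of_nonneg_right (h1.trans ?_) (Real.exp_pos _).le
          exact mul_le_mul h3 (two_pow n) (by positivity) (Real.exp_pos _).le
      _ = Real.exp ((n : ℝ) / 4 + n * (7 / 10) + -(2 * (n : ℝ))) := by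
          rw [Real.exp_add, Real.exp_add]
      _ ≤ Real.exp (-(n : ℝ)) := Real.exp_le_exp.mpr (by linarith)

end Pool.Agent.TH948.SH.K3b
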