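import Pool.Agent.TH948.SH.Lim
import Pool.Agent.TH948.SH.Det
import Pool.Agent.TH948.SH.A
import Pool.Agent.TH948.SH.B
import Pool.Agent.TH948.SH.C
import Pool.Agent.TH948.SH.D
import Pool.Agent.TH948.SH.E
import Pool.Agent.TH948.SH.H2

set_option autoImplicit false
set_option linter.unusedSectionVars false

/-!
# Coarse classification of the thresholds for surjective homomorphisms
-/

namespace Pool.Agent.TH948.SH

open Filter Topology Asymptotics
open scoped Classical

variable {V : Type} [Fintype V] {R : V → V → Prop}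

lemma part1 [Nonempty V] (hR : ∀ x y, ¬ R x y) :
    IsThreshold (fun _ G => Onto R G) (fun n => 1 / (n : ℝ) ^ 2) := by
  intro p hp
  constructor
  · intro h
    have h1 : Tendsto (fun n : ℕ => p n * (n : ℝ) ^ 2) atTop (𝓝 0) := by
      have := h.tendsto_div_nhds_zero
      refine this.congr (fun n => ?_)
      rw [div_div_eq_mul_div, div_one]
    refine tendsto_one_of_imp hp (bot_one hp h1) ?_
    filter_upwards [eventually_ge_atTop (Fintype.card V)] with n hn G hG
    obtain ⟨s, _, hs⟩ := Finset.exists_subset_card_eq (s := (Finset.univ : Finset (Fin n)))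
      (n := Fintype.card V) (by simpa using hn)
    subst hG
    obtain ⟨x⟩ := ‹Nonempty V›
    exact onto_of_isolated s hs (fun v _ w h => by simp at h) (fun _ => x)
      (fun u v h => by simp at h)
  · intro h
    have h1 := div_atTop_of_o hp (by
      filter_upwards [eventually_gt_atTop 0] with n hn
      positivity) h
    have h2 : Tendsto (fun n : ℕ => p n * (n : ℝ) ^ 2) atTop atTop := by
      refine h1.congr (fun n => ?_)
      rw [div_div_eq_mul_div, div_one]
    refine tendsto_zero_of_imp hp (bot_zero hp h2) ?_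
    filter_upwards with n G hG
    obtain ⟨f, _, hf⟩ := hG
    ext u v
    constructor
    · intro huv
      exact absurd (hf u v huv) (hR _ _)
    · intro h; exact absurd h (by simp)

lemma part2 (hs : ∀ x y, R x y → R y x) (hR : ∀ x, ¬ R x x) (he : ∃ x y, R x y) :
    IsThreshold (fun _ G => Onto R G) (fun n => 1 / (n : ℝ)) := by
  intro p hp
  constructor
  · intro h
    have h1 : Tendsto (fun n : ℕ => p n * (n : ℝ)) atTop (𝓝 0) := by
      have := h.tendsto_div_nhds_zero
      refine this.congr (fun n => ?_)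
      rw [div_div_eq_mul_div, div_one]
    have h2 : Tendsto (fun n : ℕ => p n * (n : ℝ) / Real.log n) atTop (𝓝 0) := by
      refine squeeze_zero' (g := fun n : ℕ => p n * (n : ℝ)) ?_ ?_ h1
      · filter_upwards [eventually_ge_atTop 1] with n hn
        exact div_nonneg (mul_nonneg (hp n).1 (by positivity)) (Real.log_natCast_nonneg n)
      · filter_upwards [eventually_ge_atTop 3] with n hn
        have h3 : (1 : ℝ) ≤ Real.log n := by
          rw [Real.le_log_iff_exp_le (by positivity)]
          have := Real.exp_one_lt_d9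
          have h4 : (3 : ℝ) ≤ n := by exact_mod_cast hn
          linarith
        exact div_le_self (mul_nonneg (hp n).1 (by positivity)) h3
    refine tendsto_one_of_imp hp (tendsto_one_and hp (bipartite_whp p hp h1)
      (isolated_whp (Fintype.card V) p hp h2)) ?_
    filter_upwards with n G hG
    obtain ⟨⟨C⟩, s, hs1, hs2⟩ := hG
    obtain ⟨a, b, hab⟩ := he
    refine onto_of_isolated s hs1 hs2 (fun v => if C v = 0 then a else b) ?_
    intro u v huv
    have hne := C.valid huv
    by_cases hu : C u = 0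
    · have hv : C v ≠ 0 := fun h => hne (by rw [hu, h])
      simp only [hu, hv, if_true, if_false]
      exact hab
    · have hv : C v = 0 := by
        have h1 : C u = 1 := by omega
        by_contra h2
        have h3 : C v = 1 := by omega
        exact hne (by rw [h1, h3])
      simp only [hu, hv, if_true, if_false]
      exact hs _ _ hab
  · intro h
    have h1 := div_atTop_of_o hp (by
      filter_upwards [eventually_gt_atTop 0] with n hn
      positivity) h
    have h2 : Tendsto (fun n : ℕ => p n * (n : ℝ)) atTop atTop := by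
      refine h1.congr (fun n => ?_)
      rw [div_div_eq_mul_div, div_one]
    refine tendsto_zero_of_imp hp (not_colorable (Fintype.card V) p hp h2) ?_
    filter_upwards with n G hG
    exact colorable_of_onto hR hG

lemma log_pos_ev : ∀ᶠ n : ℕ in atTop, 0 < Real.log n / (n : ℝ) := by
  filter_upwards [eventually_ge_atTop 2] with n hn
  have h2 : (2 : ℝ) ≤ n := by exact_mod_cast hn
  exact div_pos (Real.log_pos (by linarith)) (by linarith)

lemma part3 (hl : ∃ x, R x x) (hc : ¬ ∀ x y, Relation.ReflTransGen R x y) :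
    IsThreshold (fun _ G => Onto R G) (fun n => Real.log n / (n : ℝ)) := by
  intro p hp
  obtain ⟨l, hl⟩ := hl
  constructor
  · intro h
    have h1 : Tendsto (fun n : ℕ => p n * (n : ℝ) / Real.log n) atTop (𝓝 0) := by
      have := h.tendsto_div_nhds_zero
      refine this.congr (fun n => ?_)
      rw [div_div_eq_mul_div]
    refine tendsto_one_of_imp hp (isolated_whp (Fintype.card V) p hp h1) ?_
    filter_upwards with n G hG
    obtain ⟨s, hs1, hs2⟩ := hG
    exact onto_of_isolated s hs1 hs2 (fun _ => l) (fun _ _ _ => hl)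
  · intro h
    have h1 := div_atTop_of_o hp log_pos_ev h
    have h2 : Tendsto (fun n : ℕ => p n * (n : ℝ) / Real.log n) atTop atTop := by
      refine h1.congr (fun n => ?_)
      rw [div_div_eq_mul_div]
    refine tendsto_zero_of_imp hp (tendsto_not (connected_whp p hp h2)) ?_
    filter_upwards with n G hG hconn
    exact hc (connected_of_onto hconn hG)

lemma part4 (hs : ∀ x y, R x y → R y x) (hd : ∃ x, ∀ y, R x y) :
    IsThreshold (fun _ G => Onto R G) (fun _ => 1) := by
  intro p hp
  obtain ⟨l, hl⟩ := hd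
  constructor
  · intro h
    have h1 : Tendsto p atTop (𝓝 0) := by
      have := h.tendsto_div_nhds_zero
      simpa using this
    refine tendsto_one_of_imp hp (indep_whp (Fintype.card V) hp h1) ?_
    filter_upwards with n G hG
    obtain ⟨s, hs1, hs2⟩ := hG
    exact onto_of_indep hs hl s hs1 hs2
  · intro h
    exfalso
    obtain ⟨n, hn⟩ := (h.def (show (0:ℝ) < 1 / 2 by norm_num)).exists
    rw [norm_one, Real.norm_eq_abs, abs_of_nonneg (hp n).1] at hn
    linarith [(hp n).2]

lemma part5_upper (hs : ∀ x y, R x y → R y x) (hd : ¬ ∃ x, ∀ y, R x y) (hk : 1 ≤ Fintype.card V)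
    (p : ℕ → ℝ) (hp : ∀ n, 0 ≤ p n ∧ p n ≤ 1)
    (h : (fun n : ℕ => (Real.log n / (n : ℝ)) ^ (1 / (Fintype.card V : ℝ))) =o[atTop] p) :
    Tendsto (fun n => gnp n (p n) (fun G => Onto R G)) atTop (𝓝 0) := by
  set k := Fintype.card V with hkdef
  have h1 := div_atTop_of_o hp (by
    filter_upwards [log_pos_ev] with n hn
    exact Real.rpow_pos_of_pos hn _) h
  have h2 : Tendsto (fun n : ℕ => (p n) ^ k * n / Real.log n) atTop atTop := by
    have h3 := (tendsto_pow_atTop (α := ℝ) (n := k) (by omega)).comp h1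
    refine h3.congr' ?_
    filter_upwards [log_pos_ev] with n hn
    show (p n / (Real.log n / (n : ℝ)) ^ (1 / (k : ℝ))) ^ k = _
    rw [div_pow, ← Real.rpow_natCast ((Real.log n / (n : ℝ)) ^ (1 / (k : ℝ))) k,
      ← Real.rpow_mul hn.le, one_div_mul_cancel (by positivity), Real.rpow_one,
      div_div_eq_mul_div]
  refine tendsto_zero_of_imp hp (common_nonempty k p hp h2) ?_
  filter_upwards with n G hG
  exact common_of_onto hs hd hG

lemma part5_lower (hs : ∀ x y, R x y → R y x) (hl : ∃ x, R x x)
    (hc : ∀ x y, Relation.ReflTransGen R x y) :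
    ∃ δ : ℝ, 0 < δ ∧ ∀ p : ℕ → ℝ, (∀ n, 0 ≤ p n ∧ p n ≤ 1) →
      (∀ᶠ n : ℕ in atTop, p n ≤ (n : ℝ) ^ (-1 + δ)) →
      Tendsto (fun n => gnp n (p n) (fun G => Onto R G)) atTop (𝓝 1) := by
  obtain ⟨l, hl⟩ := hl
  obtain ⟨L, w, h0, hw, hx⟩ := exists_walk hc l
  set δ : ℝ := 1 / (2 * L + 2) with hδ
  have hδ0 : 0 < δ := by positivity
  have hδ1 : δ < 1 := by
    rw [hδ, div_lt_one (by positivity)]
    have : (0 : ℝ) ≤ L := by positivity
    linarith
  have hK : δ * ((2 * L : ℕ) : ℝ) < 1 := by
    rw [hδ, one_div, inv_mul_lt_one₀ (by positivity)]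
    push_cast
    linarith
  refine ⟨δ, hδ0, fun p hp hpn => ?_⟩
  set q : ℕ → ℝ := fun n => if n = 0 then 0 else (n : ℝ) ^ (-1 + δ) with hq
  have hq01 : ∀ n, 0 ≤ q n ∧ q n ≤ 1 := by
    intro n
    by_cases hn : n = 0
    · simp [hq, hn]
    · simp only [hq, hn, if_false]
      refine ⟨by positivity, Real.rpow_le_one_of_one_le_of_nonpos ?_ (by linarith)⟩
      exact_mod_cast Nat.one_le_iff_ne_zero.mpr hn
  have hqconn : Tendsto (fun n : ℕ => q n * n / Real.log n) atTop atTop := by
    have h1 : Tendsto (fun n : ℕ => (n : ℝ) ^ δ / Real.log n) atTop atTop := by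
      have h2 := (isLittleO_log_rpow_atTop hδ0)
      have h3 : Tendsto (fun x : ℝ => Real.log x / x ^ δ) atTop (𝓝[>] 0) := by
        refine tendsto_nhdsWithin_iff.mpr ⟨h2.tendsto_div_nhds_zero, ?_⟩
        filter_upwards [eventually_gt_atTop 1] with x hx
        exact div_pos (Real.log_pos hx) (Real.rpow_pos_of_pos (by linarith) _)
      have h4 := h3.inv_tendsto_nhdsGT_zero.comp tendsto_natCast_atTop_atTop
      refine h4.congr (fun n => ?_)
      simp [Pi.inv_apply, inv_div]
    refine h1.congr' ?_
    filter_upwards [eventually_gt_atTop 0] with n hn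
    have hn' : (0 : ℝ) < n := by exact_mod_cast hn
    simp only [hq, hn.ne', if_false]
    congr 1
    rw [Real.rpow_add hn', Real.rpow_neg_one]
    field_simp
  have hconn := tendsto_not (connected_whp q hq01 hqconn)
  have key : ∀ ε : ℝ, 0 < ε → ∀ᶠ n : ℕ in atTop,
      gnp n (p n) (fun G => ¬ Onto R G) ≤ ε := by
    intro ε hε
    filter_upwards [no_dense_at (2 * L) δ hδ0 hK (ε / 3) (by linarith),
      no_path_between (2 * L) δ hδ0 hK (ε / 3) (by linarith),
      hconn.eventually_lt_const (show (0:ℝ) < ε / 3 by linarith), hpn,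
      eventually_ge_atTop 2] with n h1 h2 h3 h4 h5
    have hn0 : n ≠ 0 := by omega
    have hqn : q n = (n : ℝ) ^ (-1 + δ) := by simp [hq, hn0]
    rw [← hqn] at h1 h2 h4
    let v : Fin n := ⟨0, by omega⟩
    let u : Fin n := ⟨1, by omega⟩
    have hvu : v ≠ u := by
      intro h
      have := congrArg Fin.val h
      simp [v, u] at this
    have h6 : gnp n (p n) (fun G => ¬ Onto R G) ≤ gnp n (q n) (fun G => ¬ Onto R G) := by
      rw [gnp_not, gnp_not]
      have := gnp_anti (n := n) (hp n).1 h4 (hq01 n).2 (fun G => Onto R G)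
        (fun G G' hG hO => Onto.anti hG hO)
      linarith
    have h7 : gnp n (q n) (fun G => ¬ Onto R G) ≤ gnp n (q n) (fun G => (¬ G.Connected ∨
        (∃ S : Finset (Fin n), v ∈ S ∧ S.card ≤ 2 * L ∧ S.card ≤ eIn G S)) ∨
        (∃ S : Finset (Fin n), v ∈ S ∧ u ∈ S ∧ S.card ≤ 2 * L ∧ S.card ≤ eIn G S + 1)) := by
      apply gnp_imp (hq01 n).1 (hq01 n).2
      intro G hG
      by_contra hcon
      push Not at hcon
      apply hG
      exact onto_of_tree hs hl h0 hw hx hcon.1.1 v u
        (fun ⟨S, a, b, c⟩ => absurd c (not_le.mpr (hcon.1.2 S a b)))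
        (fun ⟨S, a, b, c, d⟩ => absurd d (not_le.mpr (hcon.2 S a b c)))
    have h8 := gnp_or (hq01 n).1 (hq01 n).2 (fun G => (¬ G.Connected ∨
        (∃ S : Finset (Fin n), v ∈ S ∧ S.card ≤ 2 * L ∧ S.card ≤ eIn G S)))
        (fun G => (∃ S : Finset (Fin n), v ∈ S ∧ u ∈ S ∧ S.card ≤ 2 * L ∧ S.card ≤ eIn G S + 1))
    have h9 := gnp_or (hq01 n).1 (hq01 n).2 (fun G : SimpleGraph (Fin n) => ¬ G.Connected)
        (fun G => (∃ S : Finset (Fin n), v ∈ S ∧ S.card ≤ 2 * L ∧ S.card ≤ eIn G S))
    have h10 := h1 v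
    have h11 := h2 v u hvu
    linarith
  have hzero : Tendsto (fun n => gnp n (p n) (fun G => ¬ Onto R G)) atTop (𝓝 0) := by
    rw [Metric.tendsto_atTop]
    intro ε hε
    obtain ⟨N, hN⟩ := eventually_atTop.mp (key (ε / 2) (by linarith))
    refine ⟨N, fun n hn => ?_⟩
    rw [Real.dist_eq, sub_zero, abs_of_nonneg (gnp_nonneg (hp n).1 (hp n).2 _)]
    linarith [hN n hn]
  have := tendsto_not' hzero
  simpa only [not_not] using this

end Pool.Agent.TH948.SH
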